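import Pool.Agent.MP_b746ed_mp.Mg.ThreeAll
import Mathlib

attribute [-instance] AddQuantale.instAddLeftMono instCoeHTCTOfCoeTailOfCoeHTC RKHS.instFunLike
  IdemSemiring.toCanonicallyOrderedAdd instCoeHTCOfCoeHeadOfCoeOTC instCoeTCOfCoe
  NumberField.to_charZero RCLike.charZero_rclike MonTypeEquivalenceMon.monMonoid
  AddQuantale.instAddRightMono GrpTypeEquivalenceGrp.grpGroup instCoeOutOfCoeFun
  ContinuousMonoidHom.instCoeOutOfMonoidHomClassOfContinuousMapClass Nontrivial.to_nonempty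
  IsStarProjection.instTrivialStarOfStarOrderedRing Quantale.instMulRightMono
  LinearOrderedCommMonoidWithZero.toPosMulStrictMono instCoeTOfCoeDep
  MulSemiringAction.toDistribMulAction Zero.instNonempty LieAdmissibleRing.toNonUnitalNonAssocRing
  Group.IsPerfect.subsingleton_of_isMulCommutative bot_nonempty AddCommGroup.toAddGroup
  CommMonTypeEquivalenceCommMon.commMonCommMonoid
  CategoryTheory.Limits.Concrete.instUniqueToTypeTerminal TestFunctionClass.toDFunLike
  instCharZeroOfIsSemireal NonUnitalAlgSemiHomClass.toDistribMulActionSemiHomClass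
  instCoeOutOfCoeSort Prod.instSemiring IsometryClass.instCoeOutIsometryEquiv
  ContDiffMapSupportedInClass.toDFunLike
  ContinuousAddMonoidHom.instCoeOutOfAddMonoidHomClassOfContinuousMapClass AddTorsor.nonempty
  Pi.semiring

-- part Trf
section
/-! Trace functions of positive semidefinite matrices. -/

set_option autoImplicit false
open scoped ComplexOrder
open Matrix

namespace Pool.Agent.MP_b746ed_mp.H14

variable {β γ : Type} [Fintype β] [DecidableEq β] [Fintype γ] [DecidableEq γ]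

/-- sum of `f` over the real parts of the eigenvalues -/
noncomputable def trf (f : ℝ → ℝ) (A : Matrix β β ℂ) : ℝ :=
  (A.charpoly.roots.map fun z => f z.re).sum

/-- real diagonal matrix -/
noncomputable def dg (l : β → ℝ) : Matrix β β ℂ := diagonal fun i => (l i : ℂ)

lemma trf_dg (f : ℝ → ℝ) (l : β → ℝ) : trf f (dg l) = ∑ i, f (l i) := by
  rw [trf, dg, charpoly_diagonal, Polynomial.roots_prod]
  · simp only [Polynomial.roots_X_sub_C, Multiset.bind_singleton, Multiset.map_map, Function.comp_apply, Complex.ofReal_re, Finset.sum_map_val]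
  · simp only [ne_eq, Finset.prod_ne_zero_iff, Finset.mem_univ, Polynomial.X_sub_C_ne_zero, not_false_eq_true, imp_self, implies_true]

lemma trf_comm {f : ℝ → ℝ} (hf : f 0 = 0) (A : Matrix β γ ℂ) (B : Matrix γ β ℂ) :
    trf f (A * B) = trf f (B * A) := by
  have h := congrArg (fun p : Polynomial ℂ => (p.roots.map fun z => f z.re).sum)
    (charpoly_mul_comm' A B)
  have e : ∀ (k : ℕ) (p : Polynomial ℂ), p ≠ 0 →
      ((Polynomial.X ^ k * p).roots.map fun z : ℂ => f z.re).sum =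
        (p.roots.map fun z => f z.re).sum := by
    intro k p hp
    rw [Polynomial.roots_mul (mul_ne_zero (pow_ne_zero _ Polynomial.X_ne_zero) hp),
      Polynomial.roots_X_pow]
    simp only [Multiset.map_add, Multiset.map_nsmul, Multiset.map_singleton, Complex.zero_re, hf, Multiset.sum_add, Multiset.sum_nsmul, Multiset.sum_singleton, nsmul_zero, zero_add]
  rwa [e _ _ (charpoly_monic _).ne_zero, e _ _ (charpoly_monic _).ne_zero] at h

lemma trf_conj (f : ℝ → ℝ) {U : Matrix β β ℂ} (hU : Uᴴ * U = 1) (A : Matrix β β ℂ) :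
    trf f (U * A * Uᴴ) = trf f A := by
  rw [trf, charpoly_mul_comm, ← Matrix.mul_assoc, hU, Matrix.one_mul, trf]

lemma trf_reindex (f : ℝ → ℝ) (e : β ≃ γ) (A : Matrix γ γ ℂ) :
    trf f (A.submatrix e e) = trf f A := by
  have := charpoly_reindex e.symm A
  rw [trf, trf, ← this]
  rfl

lemma exists_spec {A : Matrix β β ℂ} (hA : A.PosSemidef) : ∃ (U : Matrix β β ℂ) (l : β → ℝ),
    Uᴴ * U = 1 ∧ U * Uᴴ = 1 ∧ (∀ i, 0 ≤ l i) ∧ A = U * dg l * Uᴴ := by
  refine ⟨hA.1.eigenvectorUnitary, hA.1.eigenvalues, ?_, ?_, hA.eigenvalues_nonneg, ?_⟩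
  · exact Unitary.coe_star_mul_self _
  · exact Unitary.coe_mul_star_self _
  · exact hA.1.spectral_theorem

lemma trf_herm (f : ℝ → ℝ) {A : Matrix β β ℂ} (hA : A.IsHermitian) :
    trf f A = ∑ i, f (hA.eigenvalues i) := by
  rw [trf, hA.roots_charpoly_eq_eigenvalues]
  simp only [Complex.coe_algebraMap, Function.comp_apply, Multiset.map_map, Complex.ofReal_re, Finset.sum_map_val]

omit [Fintype β] in
lemma dg_conj (l : β → ℝ) : (dg l)ᴴ = dg l := by
  simp [dg, diagonal_conjTranspose, Pi.star_def]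

lemma dg_mul (l m : β → ℝ) : dg l * dg m = dg fun i => l i * m i := by
  simp [dg]

omit [Fintype β] in
lemma dg_psd {l : β → ℝ} (hl : ∀ i, 0 ≤ l i) : (dg l).PosSemidef :=
  PosSemidef.diagonal fun i => by simpa only [Pi.zero_apply, Complex.zero_le_real] using hl i

omit [DecidableEq β] [Fintype β] in
lemma conj_diag (C : Matrix γ β ℂ) (b : γ → ℝ) (j : β) :
    (Cᴴ * dg b * C) j j = ((∑ i, ‖C i j‖ ^ 2 * b i : ℝ) : ℂ) := by
  rw [Matrix.mul_apply, Complex.ofReal_sum]
  refine Finset.sum_congr rfl fun i _ => ?_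
  rw [dg, mul_diagonal, conjTranspose_apply, mul_right_comm, Complex.star_def,
    Complex.conj_mul', Complex.ofReal_mul, Complex.ofReal_pow]

omit [DecidableEq β] [Fintype β] [DecidableEq γ] in
lemma col_sq (C : Matrix γ β ℂ) (j : β) : ∑ i, ‖C i j‖ ^ 2 = ((Cᴴ * C) j j).re := by
  rw [Matrix.mul_apply, Complex.re_sum]
  refine Finset.sum_congr rfl fun i _ => ?_
  rw [conjTranspose_apply, Complex.star_def, Complex.conj_mul', ← Complex.ofReal_pow,
    Complex.ofReal_re]

omit [DecidableEq β] [Fintype γ] [DecidableEq γ] in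
lemma row_sq (C : Matrix γ β ℂ) (i : γ) : ∑ j, ‖C i j‖ ^ 2 = ((C * Cᴴ) i i).re := by
  have := col_sq Cᴴ i
  simpa only [conjTranspose_apply, RCLike.star_def, RCLike.norm_conj, conjTranspose_conjTranspose] using this

omit [DecidableEq β] in
lemma jensen_cols {φ : ℝ → ℝ} (hφ : ConvexOn ℝ (Set.Ici 0) φ) (h0 : φ 0 = 0) (C : Matrix γ β ℂ)
    (hC : ∀ j, ∑ i, ‖C i j‖ ^ 2 ≤ 1) {b : γ → ℝ} (hb : ∀ i, 0 ≤ b i) :
    ∑ j, φ ((Cᴴ * dg b * C) j j).re ≤ ∑ i, ((C * Cᴴ) i i).re * φ (b i) := by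
  simp only [← row_sq, Finset.sum_mul]
  rw [Finset.sum_comm]
  refine Finset.sum_le_sum fun j _ => ?_
  rw [conj_diag, Complex.ofReal_re]
  have := hφ.map_add_sum_le (t := Finset.univ) (w := fun i => ‖C i j‖ ^ 2) (p := b)
    (v := 1 - ∑ i, ‖C i j‖ ^ 2) (q := 0) (fun i _ => by positivity) (by ring) (fun i _ => hb i)
    (by linarith [hC j]) (Set.mem_Ici.2 le_rfl)
  simpa only [ge_iff_le, smul_eq_mul, mul_zero, zero_add, h0] using this

lemma trf_eq_diag (f : ℝ → ℝ) {A U : Matrix β β ℂ} {l : β → ℝ} (h1 : Uᴴ * U = 1)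
    (hA : A = U * dg l * Uᴴ) : trf f A = ∑ j, f ((Uᴴ * A * U) j j).re := by
  have : Uᴴ * A * U = dg l := by
    rw [hA, ← Matrix.mul_assoc, ← Matrix.mul_assoc, h1, Matrix.one_mul, Matrix.mul_assoc, h1,
      Matrix.mul_one]
  rw [this, hA, trf_conj f h1, trf_dg]
  simp only [dg, diagonal_apply_eq, Complex.ofReal_re]

/-- trace Jensen inequality for a contraction -/
lemma pj {φ : ℝ → ℝ} (hφ : ConvexOn ℝ (Set.Ici 0) φ) (h0 : φ 0 = 0) (C : Matrix γ β ℂ)
    (hC : (1 - Cᴴ * C).PosSemidef) {b : γ → ℝ} (hb : ∀ i, 0 ≤ b i) :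
    trf φ (Cᴴ * dg b * C) ≤ ∑ i, ((C * Cᴴ) i i).re * φ (b i) := by
  obtain ⟨U, l, h1, h2, -, hA⟩ := exists_spec ((dg_psd hb).conjTranspose_mul_mul_same C)
  rw [trf_eq_diag φ h1 hA]
  have h := jensen_cols hφ h0 (C * U) (fun j => ?_) hb
  · rw [conjTranspose_mul, Matrix.mul_assoc C, ← Matrix.mul_assoc U, h2, Matrix.one_mul] at h
    simpa only [Matrix.mul_assoc] using h
  · have h3 := (hC.conjTranspose_mul_mul_same U).diag_nonneg (i := j)
    rw [Matrix.mul_sub, Matrix.sub_mul, Matrix.mul_one, h1, Matrix.sub_apply, one_apply_eq] at h3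
    have h4 := (Complex.nonneg_iff.1 h3).1
    rw [col_sq, conjTranspose_mul]
    simp only [Complex.sub_re, Complex.one_re, Matrix.mul_assoc] at h4 ⊢
    linarith

lemma peierls {φ : ℝ → ℝ} (hφ : ConvexOn ℝ (Set.Ici 0) φ) (h0 : φ 0 = 0) {A U : Matrix β β ℂ}
    (hA : A.PosSemidef) (h1 : Uᴴ * U = 1) :
    ∑ j, φ ((Uᴴ * A * U) j j).re ≤ trf φ A := by
  obtain ⟨V, l, h3, h4, hl, rfl⟩ := exists_spec hA
  have e1 : (Vᴴ * U)ᴴ * (Vᴴ * U) = 1 := by
    rw [conjTranspose_mul, conjTranspose_conjTranspose, Matrix.mul_assoc, ← Matrix.mul_assoc V, h4,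
      Matrix.one_mul, h1]
  have e2 : (Vᴴ * U) * (Vᴴ * U)ᴴ = 1 := mul_eq_one_comm.1 e1
  have h := jensen_cols hφ h0 (Vᴴ * U) (fun j => by rw [col_sq, e1]; simp) hl
  rw [e2, conjTranspose_mul, conjTranspose_conjTranspose] at h
  rw [trf_conj φ h3, trf_dg]
  simpa only [Matrix.mul_assoc, ge_iff_le, one_apply_eq, Complex.one_re, one_mul] using h

/-- convexity of trace functions -/
lemma trf_avg {φ : ℝ → ℝ} (hφ : ConvexOn ℝ (Set.Ici 0) φ) (h0 : φ 0 = 0) {S : Type} [Fintype S]
    (c : S → ℝ) (hc : ∀ s, 0 ≤ c s) (hc1 : ∑ s, c s = 1) (A : S → Matrix β β ℂ)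
    (hA : ∀ s, (A s).PosSemidef) {B : ℝ} (hB : ∀ s, trf φ (A s) ≤ B) :
    trf φ (∑ s, (c s : ℂ) • A s) ≤ B := by
  have hM : (∑ s, (c s : ℂ) • A s).PosSemidef :=
    posSemidef_sum _ fun s _ => (hA s).smul (by simpa only [Complex.zero_le_real] using hc s)
  obtain ⟨U, l, h1, -, -, hU⟩ := exists_spec hM
  rw [trf_eq_diag φ h1 hU]
  have h3 : ∀ j, φ ((Uᴴ * (∑ s, (c s : ℂ) • A s) * U) j j).re ≤
      ∑ s, c s * φ ((Uᴴ * A s * U) j j).re := by
    intro j
    have := hφ.map_sum_le (t := Finset.univ) (w := c) (p := fun s => ((Uᴴ * A s * U) j j).re)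
      (fun s _ => hc s) hc1 (fun s _ =>
        (Complex.nonneg_iff.1 ((hA s).conjTranspose_mul_mul_same U).diag_nonneg).1)
    simpa only [Complex.coe_smul, Matrix.mul_sum, Algebra.mul_smul_comm, Matrix.sum_mul, Algebra.smul_mul_assoc, Matrix.sum_apply, Matrix.smul_apply, Complex.real_smul, Complex.re_sum, Complex.mul_re, Complex.ofReal_re, Complex.ofReal_im, zero_mul, sub_zero, ge_iff_le, smul_eq_mul] using this
  refine (Finset.sum_le_sum fun j _ => h3 j).trans ?_
  rw [Finset.sum_comm]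
  calc _ ≤ ∑ s, c s * B := Finset.sum_le_sum fun s _ => by
        rw [← Finset.mul_sum]
        exact mul_le_mul_of_nonneg_left ((peierls hφ h0 (hA s) h1).trans (hB s)) (hc s)
    _ = B := by rw [← Finset.sum_mul, hc1, one_mul]

lemma trf_log {A : Matrix β β ℂ} (hA : A.PosSemidef) :
    trf (fun x => Real.log (1 + x)) A = Real.log (1 + A).det.re ∧ 0 < (1 + A).det.re := by
  obtain ⟨U, l, h1, h2, hl, rfl⟩ := exists_spec hA
  have e : 1 + U * dg l * Uᴴ = U * dg (fun i => 1 + l i) * Uᴴ := by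
    have : dg (fun i => 1 + l i) = 1 + dg l := by
      simp [dg, ← diagonal_one, diagonal_add]
    rw [this, Matrix.mul_add, Matrix.add_mul, Matrix.mul_one, h2]
  have e2 : (1 + U * dg l * Uᴴ).det.re = ∏ i, (1 + l i) := by
    rw [e, det_mul_comm, ← Matrix.mul_assoc, h1, Matrix.one_mul, dg, det_diagonal,
      ← Complex.ofReal_prod, Complex.ofReal_re]
  rw [trf_conj _ h1, trf_dg, e2, Real.log_prod fun i _ => by linarith [hl i]]
  exact ⟨rfl, Finset.prod_pos fun i _ => by linarith [hl i]⟩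

lemma trf_sub {A : Matrix β β ℂ} (hA : A.PosSemidef) (h : ℝ → ℝ) :
    trf (fun x => x - h x) A = A.trace.re - trf h A := by
  obtain ⟨U, l, h1, h2, hl, rfl⟩ := exists_spec hA
  rw [trf_conj _ h1, trf_conj _ h1, trf_dg, trf_dg, trace_mul_comm, ← Matrix.mul_assoc, h1,
    Matrix.one_mul, Finset.sum_sub_distrib, dg, trace_diagonal, Complex.re_sum]
  simp only [Complex.ofReal_re]

end Pool.Agent.MP_b746ed_mp.H14

end

-- part Core
section
/-! A determinant inequality for a diagonal matrix and a matrix with two eigenvalues, and its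
extension to powers by the three lines theorem. -/

set_option autoImplicit false
open scoped ComplexOrder
open Matrix

namespace Pool.Agent.MP_b746ed_mp.H14

variable {β : Type} [Fintype β] [DecidableEq β]

/-- the basic convex function -/
noncomputable def gg (z : ℝ) : ℝ := z - Real.log (1 + z)

/-- the test functions -/
noncomputable def ff (r x : ℝ) : ℝ := gg (x ^ r)

lemma gg_zero : gg 0 = 0 := by simp [gg]

lemma gg_tan {y z : ℝ} (hy : 0 ≤ y) (hz : 0 ≤ z) : gg y + y / (1 + y) * (z - y) ≤ gg z := by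
  have h := Real.log_le_sub_one_of_pos (show 0 < (1 + z) / (1 + y) by positivity)
  rw [Real.log_div (by positivity) (by positivity)] at h
  have e : (1 + z) / (1 + y) - 1 = z - y - y / (1 + y) * (z - y) := by field_simp; ring
  simp only [gg]
  linarith

lemma gg_mono {y z : ℝ} (hy : 0 ≤ y) (hz : y ≤ z) : gg y ≤ gg z := by
  have := gg_tan hy (hy.trans hz)
  have h2 : 0 ≤ y / (1 + y) * (z - y) := mul_nonneg (by positivity) (by linarith)
  linarith

lemma gg_nonneg {z : ℝ} (hz : 0 ≤ z) : 0 ≤ gg z := gg_zero ▸ gg_mono le_rfl hz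

lemma ff_zero {r : ℝ} (hr : 1 ≤ r) : ff r 0 = 0 := by
  rw [ff, Real.zero_rpow (by linarith), gg_zero]

lemma ff_convex {r : ℝ} (hr : 1 ≤ r) : ConvexOn ℝ (Set.Ici 0) (ff r) := by
  refine ⟨convex_Ici 0, fun x hx y hy a b ha hb hab => ?_⟩
  have h1 := (convexOn_rpow hr).2 hx hy ha hb hab
  have hx' : 0 ≤ x ^ r := Real.rpow_nonneg hx r
  have hy' : 0 ≤ y ^ r := Real.rpow_nonneg hy r
  simp only [smul_eq_mul, ff] at h1 ⊢
  have hm : 0 ≤ a * x ^ r + b * y ^ r := by positivity
  refine (gg_mono (Real.rpow_nonneg (by have := hx.out; have := hy.out; positivity) r) h1).trans ?_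
  have h2 := mul_le_mul_of_nonneg_left (gg_tan hm hx') ha
  have h3 := mul_le_mul_of_nonneg_left (gg_tan hm hy') hb
  obtain rfl : b = 1 - a := by linarith only [hab]
  linarith only [h2, h3]

/-- a matrix with two eigenvalues -/
noncomputable def km (P : Matrix β β ℂ) (k₁ k₂ : ℂ) : Matrix β β ℂ := k₂ • (1 - P) + k₁ • P

omit [DecidableEq β] in
lemma proj_psd {P : Matrix β β ℂ} (h1 : Pᴴ = P) (h2 : P * P = P) : P.PosSemidef := by
  have := posSemidef_conjTranspose_mul_self P
  rwa [h1, h2] at this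

lemma compl_sq {P : Matrix β β ℂ} (h2 : P * P = P) : (1 - P) * (1 - P) = 1 - P := by
  simp only [Matrix.mul_sub, mul_one, Matrix.sub_mul, one_mul, h2, sub_self, sub_zero]

omit [Fintype β] in
lemma compl_conj {P : Matrix β β ℂ} (h1 : Pᴴ = P) : (1 - P)ᴴ = 1 - P := by simp [h1]

lemma km_psd {P : Matrix β β ℂ} (h1 : Pᴴ = P) (h2 : P * P = P) {k₁ k₂ : ℝ} (hk₁ : 0 ≤ k₁)
    (hk₂ : 0 ≤ k₂) : (km P k₁ k₂).PosSemidef :=
  ((proj_psd (compl_conj h1) (compl_sq h2)).smul (by simpa only [Complex.zero_le_real] using hk₂)).add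
    ((proj_psd h1 h2).smul (by simpa only [Complex.zero_le_real] using hk₁))

lemma sks_psd {P : Matrix β β ℂ} (h1 : Pᴴ = P) (h2 : P * P = P) {k₁ k₂ : ℝ} (hk₁ : 0 ≤ k₁)
    (hk₂ : 0 ≤ k₂) (s : β → ℝ) : (dg s * km P k₁ k₂ * dg s).PosSemidef := by
  have := (km_psd h1 h2 hk₁ hk₂).conjTranspose_mul_mul_same (dg s)
  rwa [dg_conj] at this

theorem core_one {P : Matrix β β ℂ} (h1 : Pᴴ = P) (h2 : P * P = P) {k₁ k₂ : ℝ} (hk₂ : 0 ≤ k₂)
    (hk : k₂ ≤ k₁) (s : β → ℝ) :
    trf gg (dg s * km P k₁ k₂ * dg s) ≤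
      ∑ i, ((P i i).re * gg (k₁ * s i ^ 2) + (1 - (P i i).re) * gg (k₂ * s i ^ 2)) := by
  have hA := sks_psd h1 h2 (hk₂.trans hk) hk₂ s
  have hk₁ := hk₂.trans hk
  set b : β → ℝ := fun i => (k₁ - k₂) * s i ^ 2 / (1 + k₂ * s i ^ 2) with hb
  have hb0 : ∀ i, 0 ≤ b i := fun i => div_nonneg (mul_nonneg (by linarith) (sq_nonneg _))
    (by positivity)
  have hB := (dg_psd hb0).conjTranspose_mul_mul_same P
  have e1 : 1 + dg s * km P k₁ k₂ * dg s = dg (fun i => 1 + k₂ * s i ^ 2) *
      (1 + (dg (fun i => (k₁ - k₂) * s i / (1 + k₂ * s i ^ 2)) * P) * (P * dg s)) := by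
    rw [Matrix.mul_assoc (dg _) P, ← Matrix.mul_assoc P, h2, ← Matrix.mul_assoc, Matrix.mul_add,
      Matrix.mul_one, ← Matrix.mul_assoc, ← Matrix.mul_assoc, dg_mul]
    ext i j
    have : (1 + k₂ * s i ^ 2) * ((k₁ - k₂) * s i / (1 + k₂ * s i ^ 2)) = (k₁ - k₂) * s i := by
      field_simp
    simp only [dg, km, Matrix.add_apply, mul_diagonal, diagonal_mul, Matrix.smul_apply,
      Matrix.sub_apply, this, diagonal_apply, one_apply, smul_eq_mul]
    split_ifs with h
    · subst h; push_cast; ring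
    · push_cast; ring
  have e2 : (1 + dg s * km P k₁ k₂ * dg s).det =
      ((∏ i, (1 + k₂ * s i ^ 2) : ℝ) : ℂ) * (1 + Pᴴ * dg b * P).det := by
    have : (fun i => s i * ((k₁ - k₂) * s i / (1 + k₂ * s i ^ 2))) = b := by
      ext i
      simp only [hb]
      ring
    rw [e1, det_mul, det_one_add_mul_comm, dg, det_diagonal, Complex.ofReal_prod, h1,
      Matrix.mul_assoc P, ← Matrix.mul_assoc (dg s), dg_mul, Matrix.mul_assoc P, this]
  have h3 := pj (φ := fun x => -Real.log (1 + x)) (by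
    have : ConcaveOn ℝ (Set.Ici 0) fun x : ℝ => Real.log (1 + x) := by
      refine ⟨convex_Ici 0, fun x hx y hy a b ha hb hab => ?_⟩
      have := strictConcaveOn_log_Ioi.concaveOn.2 (show 1 + x ∈ Set.Ioi 0 by
        have := hx.out; simp only [Set.mem_Ioi]; linarith only [this]) (show 1 + y ∈ Set.Ioi 0 by
        have := hy.out; simp only [Set.mem_Ioi]; linarith only [this]) ha hb hab
      simp only [smul_eq_mul] at this ⊢
      rwa [show a * (1 + x) + b * (1 + y) = 1 + (a * x + b * y) by linear_combination hab] at this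
    exact this.neg) (by simp) P (by rw [h1, h2]; exact proj_psd (compl_conj h1) (compl_sq h2)) hb0
  have e3 : trf (fun x => -Real.log (1 + x)) (Pᴴ * dg b * P) =
      -trf (fun x => Real.log (1 + x)) (Pᴴ * dg b * P) := by
    simp only [trf, Multiset.sum_map_neg]
  have e4 : (dg s * km P k₁ k₂ * dg s).trace.re =
      ∑ i, ((P i i).re * (k₁ * s i ^ 2) + (1 - (P i i).re) * (k₂ * s i ^ 2)) := by
    rw [trace, Complex.re_sum]
    refine Finset.sum_congr rfl fun i _ => ?_
    simp only [dg, km, Complex.coe_smul, diag_apply, mul_diagonal, diagonal_mul, Matrix.add_apply, Matrix.smul_apply, Matrix.sub_apply, one_apply_eq, Complex.real_smul, Complex.mul_re, Complex.ofReal_re, Complex.add_re, Complex.sub_re, Complex.one_re, Complex.ofReal_im, Complex.sub_im, Complex.one_im, zero_sub, mul_neg, zero_mul, neg_zero, sub_zero, Complex.add_im, Complex.mul_im, add_zero, mul_zero]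
    ring
  have e5 : ∀ i, Real.log (1 + b i) =
      Real.log (1 + k₁ * s i ^ 2) - Real.log (1 + k₂ * s i ^ 2) := by
    intro i
    rw [← Real.log_div (by positivity) (by positivity)]
    congr 1
    simp only [hb]
    field_simp
    ring
  have e6 := trf_sub hA fun x => Real.log (1 + x)
  rw [(trf_log hA).1, e2, Complex.re_ofReal_mul, Real.log_mul (by positivity) (trf_log hB).2.ne',
    ← (trf_log hB).1, Real.log_prod fun i _ => by positivity, e4] at e6
  rw [e3, h1, h2] at h3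
  rw [h1] at e6
  have e7 : ∑ i, ((P i i).re * gg (k₁ * s i ^ 2) + (1 - (P i i).re) * gg (k₂ * s i ^ 2)) =
      ∑ i, ((P i i).re * (k₁ * s i ^ 2) + (1 - (P i i).re) * (k₂ * s i ^ 2)) -
      ∑ i, Real.log (1 + k₂ * s i ^ 2) + ∑ i, (P i i).re * -Real.log (1 + b i) := by
    rw [← Finset.sum_sub_distrib, ← Finset.sum_add_distrib]
    refine Finset.sum_congr rfl fun i _ => ?_
    rw [e5, gg, gg]
    ring
  rw [e7]
  change trf (fun x => x - Real.log (1 + x)) _ ≤ _
  linarith only [h3, e6]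

/-- complex powers of a nonnegative real, zero at zero -/
noncomputable def ex (s : ℝ) (z : ℂ) : ℂ := if s = 0 then 0 else Complex.exp (z * Real.log s)

lemma norm_ex {s : ℝ} (hs : 0 ≤ s) (z : ℂ) : ‖ex s z‖ ≤ s ^ z.re := by
  unfold ex
  split_ifs with h
  · simpa only [norm_zero] using Real.rpow_nonneg hs _
  · rw [Complex.norm_exp, Real.rpow_def_of_pos (lt_of_le_of_ne hs (Ne.symm h)), mul_comm]
    simp

lemma ex_split {s : ℝ} (hs : 0 ≤ s) (z : ℂ) :
    ex s z = ((s ^ z.re : ℝ) : ℂ) * ex s (z.im * Complex.I) := by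
  unfold ex
  split_ifs with h
  · simp
  · rw [Real.rpow_def_of_pos (lt_of_le_of_ne hs (Ne.symm h)), Complex.ofReal_exp,
      ← Complex.exp_add]
    congr 1
    conv_lhs => rw [← Complex.re_add_im z]
    push_cast
    ring

lemma ex_real {s x : ℝ} (hs : 0 ≤ s) : ex s x * s = ((s ^ x * s : ℝ) : ℂ) := by
  rw [ex_split hs]
  by_cases h : s = 0 <;> simp [ex, h]

lemma ex_one {s : ℝ} (hs : 0 ≤ s) : ex s 1 = s := by
  rw [ex_split hs]
  by_cases h : s = 0 <;> simp [ex, h]

/-- entire and bounded on the strip -/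
def Nice (r : ℝ) (F : ℂ → ℂ) : Prop :=
  Differentiable ℂ F ∧ ∃ C, ∀ z : ℂ, 0 ≤ z.re → z.re ≤ r → ‖F z‖ ≤ C

lemma Nice.const (r : ℝ) (c : ℂ) : Nice r fun _ => c := ⟨by fun_prop, ‖c‖, fun _ _ _ => le_rfl⟩

lemma Nice.add {r : ℝ} {F G : ℂ → ℂ} (hF : Nice r F) (hG : Nice r G) :
    Nice r fun z => F z + G z := by
  obtain ⟨h1, C, hC⟩ := hF
  obtain ⟨h2, D, hD⟩ := hG
  exact ⟨h1.add h2, C + D, fun z a b => (norm_add_le _ _).trans (add_le_add (hC z a b) (hD z a b))⟩

lemma Nice.mul {r : ℝ} {F G : ℂ → ℂ} (hF : Nice r F) (hG : Nice r G) :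
    Nice r fun z => F z * G z := by
  obtain ⟨h1, C, hC⟩ := hF
  obtain ⟨h2, D, hD⟩ := hG
  exact ⟨h1.mul h2, C * D, fun z a b => (norm_mul_le _ _).trans
    (mul_le_mul (hC z a b) (hD z a b) (norm_nonneg _) ((norm_nonneg _).trans (hC z a b)))⟩

lemma Nice.sum {r : ℝ} {ι : Type} (t : Finset ι) {F : ι → ℂ → ℂ} (hF : ∀ i, Nice r (F i)) :
    Nice r fun z => ∑ i ∈ t, F i z := by
  classical
  induction t using Finset.induction_on with
  | empty => simpa using Nice.const r 0
  | insert a t ha ih => simpa [Finset.sum_insert ha] using (hF a).add ih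

lemma rpow_le_strip {s x r : ℝ} (hs : 0 ≤ s) (h0 : 0 ≤ x) (h1 : x ≤ r) : s ^ x ≤ (1 + s) ^ r :=
  (Real.rpow_le_rpow hs (by linarith) h0).trans
    (Real.rpow_le_rpow_of_exponent_le (by linarith) h1)

lemma diff_ex (s : ℝ) : Differentiable ℂ (ex s) := by
  unfold ex
  split_ifs <;> fun_prop

lemma nice_ex (r : ℝ) {s : ℝ} (hs : 0 ≤ s) : Nice r (ex s) :=
  ⟨diff_ex s, _, fun z a b => (norm_ex hs z).trans (rpow_le_strip hs a b)⟩

lemma nice_ex' (r : ℝ) {s : ℝ} (hs : 0 ≤ s) : Nice r fun z => ex s (r - z) :=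
  ⟨(diff_ex s).comp (by fun_prop), _, fun z a b => (norm_ex hs _).trans
    (rpow_le_strip (r := r) hs (by simpa using b) (by simpa only [Complex.sub_re, Complex.ofReal_re, tsub_le_iff_right, le_add_iff_nonneg_right] using a))⟩

omit [DecidableEq β] in
lemma proj_bound {P : Matrix β β ℂ} (h1 : Pᴴ = P) (h2 : P * P = P) (X Y : Matrix β β ℂ) (i : β) :
    ‖(Xᴴ * P * Y) i i‖ ≤ (((Xᴴ * P * X) i i).re + ((Yᴴ * P * Y) i i).re) / 2 := by
  have e : ∀ X Y : Matrix β β ℂ, Xᴴ * P * Y = (P * X)ᴴ * (P * Y) := fun X Y => by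
    rw [conjTranspose_mul, h1, Matrix.mul_assoc, Matrix.mul_assoc, ← Matrix.mul_assoc P, h2]
  rw [e, e, e, ← col_sq, ← col_sq, Matrix.mul_apply, ← Finset.sum_add_distrib, Finset.sum_div]
  refine (norm_sum_le _ _).trans (Finset.sum_le_sum fun a _ => ?_)
  rw [norm_mul, conjTranspose_apply, norm_star]
  linarith only [sq_nonneg (‖(P * X) a i‖ - ‖(P * Y) a i‖)]

lemma km_bound {P : Matrix β β ℂ} (h1 : Pᴴ = P) (h2 : P * P = P) (X Y : Matrix β β ℂ) (i : β)
    {e₁ e₂ : ℂ} {a₁ a₂ : ℝ} (ha₁ : ‖e₁‖ ≤ a₁) (ha₂ : ‖e₂‖ ≤ a₂) :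
    ‖(Xᴴ * km P e₁ e₂ * Y) i i‖ ≤
      (((Xᴴ * km P a₁ a₂ * X) i i).re + ((Yᴴ * km P a₁ a₂ * Y) i i).re) / 2 := by
  have h3 := mul_le_mul ha₁ (proj_bound h1 h2 X Y i) (norm_nonneg _) ((norm_nonneg _).trans ha₁)
  have h4 := mul_le_mul ha₂ (proj_bound (compl_conj h1) (compl_sq h2) X Y i) (norm_nonneg _)
    ((norm_nonneg _).trans ha₂)
  simp only [km, Matrix.mul_add, Matrix.add_mul, Matrix.mul_smul, Matrix.smul_mul,
    Matrix.add_apply, Matrix.smul_apply, smul_eq_mul, Complex.add_re, Complex.re_ofReal_mul]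
  refine (norm_add_le _ _).trans ?_
  rw [norm_mul, norm_mul]
  linarith

lemma ds_col {U V : Matrix β β ℂ} (hU : Uᴴ * U = 1) (hV : V * Vᴴ = 1) {D : β → ℂ}
    (hD : ∀ a, ‖D a‖ ≤ 1) (i : β) : ∑ j, ‖(Vᴴ * (diagonal D * U)) j i‖ ^ 2 ≤ 1 := by
  rw [col_sq, conjTranspose_mul, conjTranspose_conjTranspose, Matrix.mul_assoc,
    ← Matrix.mul_assoc V, hV, Matrix.one_mul, ← col_sq]
  have h : ∑ a, ‖U a i‖ ^ 2 = 1 := by rw [col_sq, hU]; simp
  rw [← h]
  refine Finset.sum_le_sum fun a _ => ?_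
  rw [diagonal_mul, norm_mul]
  exact pow_le_pow_left₀ (by positivity) (mul_le_of_le_one_left (norm_nonneg _) (hD a)) 2

lemma wbound {U N : Matrix β β ℂ} (hU : Uᴴ * U = 1) (hN : N.PosSemidef) {D : β → ℂ}
    (hD : ∀ a, ‖D a‖ ≤ 1) {w c : β → ℝ} (hc : ∀ i, 0 ≤ c i)
    (hw : ∀ i z, 0 ≤ z → w i * z ≤ gg z + c i) :
    ∑ i, w i * (((diagonal D * U)ᴴ * N * (diagonal D * U)) i i).re ≤ trf gg N + ∑ i, c i := by
  obtain ⟨V, l, h1, h2, hl, rfl⟩ := exists_spec hN
  have e : (diagonal D * U)ᴴ * (V * dg l * Vᴴ) * (diagonal D * U) =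
      (Vᴴ * (diagonal D * U))ᴴ * dg l * (Vᴴ * (diagonal D * U)) := by
    rw [conjTranspose_mul Vᴴ, conjTranspose_conjTranspose]
    simp only [Matrix.mul_assoc]
  have hr : ∀ j, ∑ i, ‖(Vᴴ * (diagonal D * U)) j i‖ ^ 2 ≤ 1 := by
    intro j
    have := ds_col h1 (mul_eq_one_comm.1 hU) (D := star D) (fun a => by simpa only [Pi.star_apply, RCLike.star_def, RCLike.norm_conj] using hD a) j
    have e : Uᴴ * (diagonal (star D) * V) = (Vᴴ * (diagonal D * U))ᴴ := by
      simp [conjTranspose_mul, diagonal_conjTranspose, Matrix.mul_assoc]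
    simpa only [ge_iff_le, e, conjTranspose_apply, RCLike.star_def, RCLike.norm_conj] using this
  rw [e, trf_conj _ h1, trf_dg]
  simp only [conj_diag, Complex.ofReal_re]
  set p : β → β → ℝ := fun j i => ‖(Vᴴ * (diagonal D * U)) j i‖ ^ 2
  calc ∑ i, w i * ∑ j, p j i * l j ≤ ∑ i, ∑ j, (p j i * gg (l j) + p j i * c i) := by
        refine Finset.sum_le_sum fun i _ => ?_
        rw [Finset.mul_sum]
        refine Finset.sum_le_sum fun j _ => ?_
        have := mul_le_mul_of_nonneg_left (hw i _ (hl j)) (show 0 ≤ p j i by positivity)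
        linarith
    _ = ∑ j, (∑ i, p j i) * gg (l j) + ∑ i, (∑ j, p j i) * c i := by
        simp only [Finset.sum_add_distrib, Finset.sum_mul]
        rw [Finset.sum_comm]
    _ ≤ _ := add_le_add
        (Finset.sum_le_sum fun j _ => mul_le_of_le_one_left (gg_nonneg (hl j)) (hr j))
        (Finset.sum_le_sum fun i _ => mul_le_of_le_one_left (hc i) (ds_col hU h2 hD i))

theorem interp {P : Matrix β β ℂ} (h1 : Pᴴ = P) (h2 : P * P = P) {k₁ k₂ r : ℝ} (hk₁ : 0 ≤ k₁)
    (hk₂ : 0 ≤ k₂) (hr : 1 ≤ r) {s : β → ℝ} (hs : ∀ i, 0 ≤ s i) :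
    trf (ff r) (dg s * km P k₁ k₂ * dg s) ≤ trf gg (dg (fun i => s i ^ r) *
      km P (k₁ ^ r : ℝ) (k₂ ^ r : ℝ) * dg fun i => s i ^ r) := by
  obtain ⟨U, l, hU, -, hl, hN⟩ := exists_spec (sks_psd h1 h2 hk₁ hk₂ s)
  set N : ℝ → Matrix β β ℂ := fun x => dg (fun i => s i ^ x) *
    km P (k₁ ^ x : ℝ) (k₂ ^ x : ℝ) * dg fun i => s i ^ x with hNdef
  set w : β → ℝ := fun i => l i ^ r / (1 + l i ^ r) with hw
  set c : β → ℝ := fun i => w i * l i ^ r - gg (l i ^ r) with hc
  have hlr : ∀ i, 0 ≤ l i ^ r := fun i => Real.rpow_nonneg (hl i) r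
  have hw0 : ∀ i, 0 ≤ w i := fun i => div_nonneg (hlr i) (by linarith [hlr i])
  have hwc : ∀ i z, 0 ≤ z → w i * z ≤ gg z + c i := fun i z hz => by
    have := gg_tan (hlr i) hz
    simp only [hc, hw]
    linarith only [this]
  have hc0 : ∀ i, 0 ≤ c i := fun i => by simpa only [mul_zero, gg_zero, zero_add] using hwc i 0 le_rfl
  set G : ℂ → Matrix β β ℂ := fun z => Uᴴ * diagonal (fun a => ex (s a) z) *
    km P (ex k₁ z) (ex k₂ z) * (diagonal (fun a => ex (s a) z) * U) with hG
  have hGb : ∀ z : ℂ, ∃ D : β → ℂ, (∀ a, ‖D a‖ ≤ 1) ∧ ∀ i, ‖G z i i‖ ≤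
      ((((diagonal (star D) * U)ᴴ * N z.re * (diagonal (star D) * U)) i i).re +
      (((diagonal D * U)ᴴ * N z.re * (diagonal D * U)) i i).re) / 2 := by
    intro z
    refine ⟨fun a => ex (s a) (z.im * Complex.I), fun a => by
      simpa only [Complex.mul_re, Complex.ofReal_re, Complex.I_re, mul_zero, Complex.ofReal_im, Complex.I_im, mul_one, sub_self, Real.rpow_zero] using norm_ex (hs a) (z.im * Complex.I), fun i => ?_⟩
    set D : β → ℂ := fun a => ex (s a) (z.im * Complex.I)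
    have e : (diagonal fun a => ex (s a) z) = dg (fun i => s i ^ z.re) * diagonal D := by
      simp only [dg, diagonal_mul_diagonal]
      congr 1
      ext a
      exact ex_split (hs a) z
    have e' : (diagonal fun a => ex (s a) z) = diagonal D * dg (fun i => s i ^ z.re) := by
      rw [e]; simp only [dg, diagonal_mul_diagonal, mul_comm]
    have h := km_bound h1 h2 (dg (fun i => s i ^ z.re) * (diagonal (star D) * U))
      (dg (fun i => s i ^ z.re) * (diagonal D * U)) i (norm_ex hk₁ z) (norm_ex hk₂ z)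
    simp only [conjTranspose_mul (dg _), dg_conj] at h
    have e2 : G z = (diagonal (star D) * U)ᴴ * dg (fun i => s i ^ z.re) *
        km P (ex k₁ z) (ex k₂ z) * (dg (fun i => s i ^ z.re) * (diagonal D * U)) := by
      simp only [hG]
      nth_rewrite 1 [e']
      rw [e]
      simp [conjTranspose_mul, diagonal_conjTranspose, Matrix.mul_assoc]
    rw [e2]
    simpa only [hNdef, Matrix.mul_assoc] using h
  set F : ℂ → ℂ := fun z => ∑ i, (w i : ℂ) * ex (l i) (r - z) * G z i i with hF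
  have hnice : Nice r F := by
    refine Nice.sum _ fun i => ((Nice.const r _).mul (nice_ex' r (hl i))).mul ?_
    have e : (fun z => G z i i) = fun z => ∑ a, (∑ b, (Uᴴ i b * ex (s b) z) *
        (ex k₂ z * (1 - P) b a + ex k₁ z * P b a)) * (ex (s a) z * U a i) := by
      ext z
      simp only [hG]
      rw [Matrix.mul_apply]
      refine Finset.sum_congr rfl fun a _ => ?_
      rw [diagonal_mul, Matrix.mul_apply]
      simp only [mul_diagonal]
      rfl
    rw [e]
    exact Nice.sum _ fun a => (Nice.sum _ fun b => ((Nice.const r _).mul (nice_ex r (hs b))).mul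
      (((nice_ex r hk₂).mul (Nice.const r _)).add ((nice_ex r hk₁).mul (Nice.const r _)))).mul
      ((nice_ex r (hs a)).mul (Nice.const r _))
  have hFb : ∀ z, ‖F z‖ ≤ ∑ i, w i * l i ^ (r - z.re) * ‖G z i i‖ := fun z =>
    (norm_sum_le _ _).trans (Finset.sum_le_sum fun i _ => by
      rw [norm_mul, norm_mul, Complex.norm_real, Real.norm_of_nonneg (hw0 i)]
      exact mul_le_mul_of_nonneg_right (mul_le_mul_of_nonneg_left
        (by simpa using norm_ex (hl i) (r - z)) (hw0 i)) (norm_nonneg _))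
  have h3 := Complex.HadamardThreeLines.norm_le_interp_of_mem_verticalClosedStrip' (f := F)
    (z := 1) (a := ∑ i, w i * l i ^ r) (b := trf gg (N r) + ∑ i, c i) (l := 0) (u := r)
    (by linarith only [hr]) ⟨by simp, by simpa using hr⟩ hnice.1.diffContOnCl
    (by
      obtain ⟨C, hC⟩ := hnice.2
      exact ⟨C, by rintro _ ⟨z, hz, rfl⟩; exact hC z hz.1 hz.2⟩)
    (fun z hz => by
      have hz' : z.re = 0 := hz
      obtain ⟨D, hD, hb⟩ := hGb z
      refine (hFb z).trans (Finset.sum_le_sum fun i _ => ?_)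
      rw [hz', sub_zero]
      refine mul_le_of_le_one_right (mul_nonneg (hw0 i) (hlr i)) ((hb i).trans ?_)
      have e : N 0 = 1 := by simp [hNdef, dg, km]
      have a1 := ds_col hU (V := 1) (by simp) hD i
      have a2 := ds_col hU (V := 1) (by simp) (D := star D) (fun a => by simpa only [Pi.star_apply, RCLike.star_def, RCLike.norm_conj] using hD a) i
      rw [conjTranspose_one, Matrix.one_mul, col_sq] at a1 a2
      rw [hz', e, Matrix.mul_one, Matrix.mul_one]
      linarith only [a1, a2])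
    (fun z hz => by
      have hz' : z.re = r := hz
      obtain ⟨D, hD, hb⟩ := hGb z
      have hNr : (N r).PosSemidef :=
        sks_psd h1 h2 (Real.rpow_nonneg hk₁ r) (Real.rpow_nonneg hk₂ r) _
      have a1 := wbound hU hNr hD hc0 hwc
      have a2 := wbound hU hNr (D := star D) (fun a => by simpa only [Pi.star_apply, RCLike.star_def, RCLike.norm_conj] using hD a) hc0 hwc
      refine (hFb z).trans ?_
      rw [hz'] at hb ⊢
      simp only [sub_self, Real.rpow_zero, mul_one]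
      refine (Finset.sum_le_sum fun i _ => mul_le_mul_of_nonneg_left (hb i) (hw0 i)).trans ?_
      simp only [← mul_div_assoc, mul_add, ← Finset.sum_div, Finset.sum_add_distrib]
      linarith only [a1, a2])
  have hG1 : G 1 = dg l := by
    have e : (diagonal fun a => ex (s a) 1) = dg s := by simp only [ex_one (hs _), dg]
    simp only [hG, e, ex_one hk₁, ex_one hk₂]
    calc _ = Uᴴ * (dg s * km P k₁ k₂ * dg s) * U := by simp only [Matrix.mul_assoc]
      _ = (Uᴴ * U) * dg l * (Uᴴ * U) := by rw [hN]; simp only [Matrix.mul_assoc]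
      _ = _ := by rw [hU, Matrix.one_mul, Matrix.mul_one]
  have hF1 : F 1 = ((∑ i, w i * l i ^ r : ℝ) : ℂ) := by
    simp only [hF, hG1, dg, diagonal_apply_eq, Complex.ofReal_sum]
    refine Finset.sum_congr rfl fun i _ => ?_
    have := ex_real (x := r - 1) (hl i)
    rw [← Real.rpow_add_one' (hl i) (by linarith only [hr]), sub_add_cancel, Complex.ofReal_sub,
      Complex.ofReal_one] at this
    rw [mul_assoc, this, Complex.ofReal_mul]
  set S := ∑ i, w i * l i ^ r with hS
  set B := trf gg (N r) + ∑ i, c i with hB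
  have hS0 : 0 ≤ S := Finset.sum_nonneg fun i _ => mul_nonneg (hw0 i) (hlr i)
  have hB0 : 0 ≤ B := by
    have := wbound hU (sks_psd h1 h2 (Real.rpow_nonneg hk₁ r) (Real.rpow_nonneg hk₂ r)
      fun i => s i ^ r) (D := 0) (by simp) hc0 hwc
    simpa only [ge_iff_le, diagonal_zero', zero_mul, conjTranspose_zero, mul_zero, Matrix.zero_apply, Complex.zero_re, Finset.sum_const_zero] using this
  rw [hF1, Complex.norm_real, Real.norm_of_nonneg hS0] at h3
  have hSB : S ≤ B := by
    by_contra hlt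
    push Not at hlt
    have hθ : 0 < ((1 : ℂ).re - 0) / (r - 0) := by simp; linarith only [hr]
    have := mul_lt_mul_of_pos_left (Real.rpow_lt_rpow hB0 hlt hθ)
      (Real.rpow_pos_of_pos (hB0.trans_lt hlt) (1 - ((1 : ℂ).re - 0) / (r - 0)))
    rw [← Real.rpow_add (hB0.trans_lt hlt), sub_add_cancel, Real.rpow_one] at this
    linarith only [h3, this]
  rw [hN, trf_conj _ hU, trf_dg]
  have : ∑ i, c i = S - ∑ i, ff r (l i) := by simp only [hc, hS, ff, Finset.sum_sub_distrib]
  change _ ≤ trf gg (N r)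
  linarith only [hSB, this]

theorem core {P : Matrix β β ℂ} (h1 : Pᴴ = P) (h2 : P * P = P) {k₁ k₂ r : ℝ} (hk₂ : 0 ≤ k₂)
    (hk : k₂ ≤ k₁) (hr : 1 ≤ r) {s : β → ℝ} (hs : ∀ i, 0 ≤ s i) :
    trf (ff r) (dg s * km P k₁ k₂ * dg s) ≤
      ∑ i, ((P i i).re * ff r (k₁ * s i ^ 2) + (1 - (P i i).re) * ff r (k₂ * s i ^ 2)) := by
  refine (interp h1 h2 (hk₂.trans hk) hk₂ hr hs).trans ((core_one h1 h2 (Real.rpow_nonneg hk₂ r)
    (Real.rpow_le_rpow hk₂ hk (by linarith)) _).trans_eq ?_)
  refine Finset.sum_congr rfl fun i _ => ?_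
  have e : (s i ^ r) ^ 2 = (s i ^ 2) ^ r := by rw [sq, sq, Real.mul_rpow (hs i) (hs i)]
  rw [ff, ff, Real.mul_rpow (hk₂.trans hk) (sq_nonneg _), Real.mul_rpow hk₂ (sq_nonneg _), e]

end Pool.Agent.MP_b746ed_mp.H14

end

-- part Block
section
/-! One site: the phase damping step and the decomposition of the depolarizing channel. -/

set_option autoImplicit false
open scoped ComplexOrder Kronecker
open Matrix

namespace Pool.Agent.MP_b746ed_mp.H14

variable {α H γ δ ε : Type} [Fintype α] [DecidableEq α] [Fintype H] [DecidableEq H]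
  [Fintype γ] [Fintype δ] [Fintype ε]

/-- the map `h ↦ z ⊗ h` -/
def ez (H : Type) [DecidableEq H] (z : α → ℂ) : Matrix (α × H) H ℂ := of fun p h => if p.2 = h then z p.1 else 0

/-- compression of the first factor to a vector -/
noncomputable def cmp (z : α → ℂ) (τ : Matrix (α × H) (α × H) ℂ) : Matrix H H ℂ :=
  (ez H z)ᴴ * τ * ez H z

omit [DecidableEq α] in
lemma cmp_apply (z : α → ℂ) (τ : Matrix (α × H) (α × H) ℂ) (h k : H) :
    cmp z τ h k = ∑ a, ∑ b, star (z a) * z b * τ (a, h) (b, k) := by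
  simp only [cmp, ez, Matrix.mul_apply, Fintype.sum_prod_type, conjTranspose_apply, of_apply,
    apply_ite star, star_zero, ite_mul, zero_mul, mul_ite, mul_zero, Finset.sum_ite_eq',
    Finset.mem_univ, if_true, Finset.sum_mul]
  rw [Finset.sum_comm]
  exact Finset.sum_congr rfl fun a _ => Finset.sum_congr rfl fun b _ => by ring

omit [DecidableEq α] [Fintype α] in
lemma ez_mul_apply (z : α → ℂ) (X : Matrix H H ℂ) (p p' : α × H) :
    (ez H z * X * (ez H z)ᴴ) p p' = z p.1 * star (z p'.1) * X p.2 p'.2 := by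
  simp only [ez, Matrix.mul_apply, of_apply, ite_mul, zero_mul, Finset.sum_ite_eq, Finset.mem_univ, ↓ reduceIte, conjTranspose_apply, apply_ite star, RCLike.star_def, star_zero, mul_ite, mul_zero]
  ring

omit [DecidableEq α] in
lemma ez_ez (z w : α → ℂ) : (ez H z)ᴴ * ez H w = (star z ⬝ᵥ w) • (1 : Matrix H H ℂ) := by
  ext h k
  simp only [ez, Matrix.mul_apply, Fintype.sum_prod_type, conjTranspose_apply, of_apply,
    apply_ite star, star_zero, ite_mul, zero_mul, Finset.sum_ite_eq',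
    Finset.mem_univ, if_true, Matrix.smul_apply, one_apply, smul_eq_mul, dotProduct, Pi.star_apply]
  split_ifs <;> simp only [RCLike.star_def, mul_one, mul_zero, Finset.sum_const_zero]

lemma sum_ez {Z : Matrix α α ℂ} (h : Z * Zᴴ = 1) :
    ∑ x, ez H (fun a => Z a x) * (ez H fun a => Z a x)ᴴ = 1 := by
  ext p p'
  have h1 := congrFun (congrFun h p.1) p'.1
  have h2 := fun x => ez_mul_apply (H := H) (fun a => Z a x) 1 p p'
  simp only [Matrix.mul_one] at h2
  simp only [Matrix.mul_apply, conjTranspose_apply] at h1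
  simp only [Matrix.sum_apply, h2, ← Finset.sum_mul, h1, one_apply, Prod.ext_iff]
  split_ifs <;> simp_all

/-- matrices put on top of each other -/
def stack (A : α → Matrix γ δ ℂ) : Matrix (α × γ) δ ℂ := of fun p c => A p.1 p.2 c

omit [DecidableEq α] [Fintype δ] [Fintype ε] in
lemma stack_mul (A : α → Matrix γ δ ℂ) (B : α → Matrix γ ε ℂ) :
    (stack A)ᴴ * stack B = ∑ x, (A x)ᴴ * B x := by
  ext c c'
  simp only [stack, Matrix.mul_apply, conjTranspose_apply, of_apply, RCLike.star_def, Fintype.sum_prod_type, Matrix.sum_apply]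

omit [DecidableEq α] [Fintype α] [Fintype γ] in
lemma mul_stack (A B : α → Matrix γ δ ℂ) (p p' : α × γ) :
    (stack A * (stack B)ᴴ) p p' = (A p.1 * (B p'.1)ᴴ) p.2 p'.2 := by
  simp only [stack, Matrix.mul_apply, of_apply, conjTranspose_apply, RCLike.star_def]

/-- phase damping in the basis of the columns of `Z` -/
noncomputable def pd (q : ℝ) (Z : Matrix α α ℂ) (τ : Matrix (α × H) (α × H) ℂ) :
    Matrix (α × H) (α × H) ℂ :=
  (q : ℂ) • τ + ((1 - q : ℝ) : ℂ) •
    ∑ x, ez H (fun a => Z a x) * cmp (fun a => Z a x) τ * (ez H fun a => Z a x)ᴴ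

omit [DecidableEq α] in
lemma pd_psd {q : ℝ} (h0 : 0 ≤ q) (h1 : q ≤ 1) (Z : Matrix α α ℂ) {τ : Matrix (α × H) (α × H) ℂ}
    (hτ : τ.PosSemidef) : (pd q Z τ).PosSemidef :=
  (hτ.smul (by simpa only [Complex.zero_le_real] using h0)).add ((posSemidef_sum _ fun _ _ =>
    (hτ.conjTranspose_mul_mul_same _).mul_mul_conjTranspose_same _).smul
    (by rw [Complex.zero_le_real]; linarith))

theorem block [Nonempty α] {q r : ℝ} (h0 : 0 ≤ q) (h1 : q ≤ 1) (hr : 1 ≤ r) {Z : Matrix α α ℂ}
    (hZ : Z * Zᴴ = 1) {τ : Matrix (α × H) (α × H) ℂ} (hτ : τ.PosSemidef) :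
    trf (ff r) (pd q Z τ) ≤ ∑ x, (1 / Fintype.card α : ℝ) *
      (trf (ff r) (((1 - q + q * Fintype.card α : ℝ) : ℂ) • cmp (fun a => Z a x) τ) +
      (Fintype.card α - 1) * trf (ff r) (((1 - q : ℝ) : ℂ) • cmp (fun a => Z a x) τ)) := by
  have hd : (Fintype.card α : ℝ) ≠ 0 := by exact_mod_cast Fintype.card_ne_zero
  have hd' : (Fintype.card α : ℂ) ≠ 0 := by exact_mod_cast Fintype.card_ne_zero
  obtain ⟨W, hW⟩ : ∃ W : Matrix (α × H) (α × H) ℂ, Wᴴ * W = τ := by
    obtain ⟨U, l, -, -, hl, rfl⟩ := exists_spec hτ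
    refine ⟨dg (fun i => √(l i)) * Uᴴ, ?_⟩
    rw [conjTranspose_mul, dg_conj, conjTranspose_conjTranspose, Matrix.mul_assoc,
      ← Matrix.mul_assoc (dg _), dg_mul, ← Matrix.mul_assoc]
    simp only [Real.mul_self_sqrt (hl _)]
  set E : α → Matrix (α × H) H ℂ := fun x => ez H fun a => Z a x with hE
  choose V t hV1 hV2 ht hVt using fun x => exists_spec (posSemidef_self_mul_conjTranspose (W * E x))
  have hc : ∀ x, cmp (fun a => Z a x) τ = (W * E x)ᴴ * (W * E x) := fun x => by
    rw [cmp, ← hW, conjTranspose_mul]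
    simp only [Matrix.mul_assoc, hE]
  set R := stack fun x => (V x)ᴴ * (W * E x) * (E x)ᴴ with hR
  set Y := stack fun x => (V x)ᴴ with hY
  set P : Matrix (α × α × H) (α × α × H) ℂ := (1 / Fintype.card α : ℂ) • (Y * Yᴴ) with hP
  have hYY : Yᴴ * Y = (Fintype.card α : ℂ) • (1 : Matrix (α × H) (α × H) ℂ) := by
    rw [hY, stack_mul]
    simp only [conjTranspose_conjTranspose, hV2, Finset.sum_const, Finset.card_univ,
      Nat.cast_smul_eq_nsmul]
  have hP1 : Pᴴ = P := by simp [hP, conjTranspose_mul]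
  have hP2 : P * P = P := by
    simp only [hP, Matrix.smul_mul, Matrix.mul_smul, Matrix.mul_assoc, ← Matrix.mul_assoc Yᴴ, hYY,
      Matrix.one_mul, smul_smul]
    congr 1
    field_simp
  have hPd : ∀ p, (P p p).re = 1 / Fintype.card α := fun p => by
    rw [hP, Matrix.smul_apply, hY, mul_stack, conjTranspose_conjTranspose, hV1]
    simp only [one_div, one_apply_eq, smul_eq_mul, mul_one, Complex.inv_re, Complex.natCast_re, Complex.normSq_natCast, div_self_mul_self']
  have hYR : Yᴴ * R = W := by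
    rw [hY, hR, stack_mul]
    simp only [conjTranspose_conjTranspose, ← Matrix.mul_assoc, hV2, Matrix.one_mul]
    simp only [Matrix.mul_assoc, ← Matrix.mul_sum, hE, sum_ez hZ, Matrix.mul_one]
  have hRR : Rᴴ * R = ∑ x, E x * cmp (fun a => Z a x) τ * (E x)ᴴ := by
    rw [hR, stack_mul]
    refine Finset.sum_congr rfl fun x _ => ?_
    rw [hc, conjTranspose_mul, conjTranspose_mul (V x)ᴴ, conjTranspose_conjTranspose,
      conjTranspose_conjTranspose]
    simp only [Matrix.mul_assoc, ← Matrix.mul_assoc (V x), hV2, Matrix.one_mul]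
  set s : α × α × H → ℝ := fun p => √(t p.1 p.2) with hs
  have hRR' : R * Rᴴ = dg s * dg s := by
    ext ⟨x, g⟩ ⟨y, g'⟩
    have hxy : (Zᴴ * Z) x y = (1 : Matrix α α ℂ) x y := by rw [mul_eq_one_comm.1 hZ]
    have e : (E x)ᴴ * E y = (if x = y then (1 : ℂ) else 0) • (1 : Matrix H H ℂ) := by
      rw [hE, ez_ez, ← one_apply, ← hxy]
      rfl
    rw [hR, mul_stack, dg_mul, conjTranspose_mul, conjTranspose_conjTranspose, Matrix.mul_assoc,
      ← Matrix.mul_assoc (E x)ᴴ, e]
    simp only [hs, Real.mul_self_sqrt (ht _ _), dg, diagonal_apply, Prod.mk.injEq]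
    split_ifs with h h' h'
    · subst h
      obtain rfl := h'.2
      rw [one_smul, Matrix.one_mul, conjTranspose_mul (V x)ᴴ, conjTranspose_conjTranspose,
        Matrix.mul_assoc, ← Matrix.mul_assoc (W * E x), hVt]
      simp [Matrix.mul_assoc, ← Matrix.mul_assoc (V x)ᴴ, hV1, dg]
    · subst h
      rw [one_smul, Matrix.one_mul, conjTranspose_mul (V x)ᴴ, conjTranspose_conjTranspose,
        Matrix.mul_assoc, ← Matrix.mul_assoc (W * E x), hVt]
      simp only [true_and] at h'
      simp [Matrix.mul_assoc, ← Matrix.mul_assoc (V x)ᴴ, hV1, dg, h']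
    · exact absurd h'.1 h
    · simp
  have hM : pd q Z τ = Rᴴ * (km P (1 - q + q * Fintype.card α : ℝ) (1 - q : ℝ) * R) := by
    have e : Rᴴ * (P * R) = (1 / Fintype.card α : ℂ) • τ := by
      rw [hP, Matrix.smul_mul, Matrix.mul_smul, Matrix.mul_assoc, hYR, ← hW, ← hYR,
        conjTranspose_mul, conjTranspose_conjTranspose, ← Matrix.mul_assoc]
    simp only [km, Matrix.add_mul, Matrix.smul_mul, Matrix.sub_mul, Matrix.one_mul, Matrix.mul_add,
      Matrix.mul_smul, Matrix.mul_sub, e, hRR, pd, smul_smul, hE]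
    match_scalars
    · field_simp
      ring
    · ring
  have hk : ∀ (k : ℝ) x, trf (ff r) ((k : ℂ) • cmp (fun a => Z a x) τ) =
      ∑ g, ff r (k * s (x, g) ^ 2) := fun k x => by
    have e : (k : ℂ) • dg (t x) = dg fun g => k * s (x, g) ^ 2 := by
      simp [dg, hs, Real.sq_sqrt (ht _ _), ← diagonal_smul, Pi.smul_def]
    rw [hc, ← Matrix.smul_mul, trf_comm (ff_zero hr), Matrix.mul_smul, hVt, ← Matrix.smul_mul,
      ← Matrix.mul_smul, trf_conj _ (hV1 x), e, trf_dg]
  rw [hM, trf_comm (ff_zero hr), Matrix.mul_assoc, hRR', ← Matrix.mul_assoc, trf_comm (ff_zero hr),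
    ← Matrix.mul_assoc]
  refine (core hP1 hP2 (by linarith) (by have : 0 ≤ q * Fintype.card α := by positivity
                                         linarith only [this]) hr fun p => Real.sqrt_nonneg _).trans_eq ?_
  rw [Fintype.sum_prod_type]
  refine Finset.sum_congr rfl fun x _ => ?_
  simp only [hk, hPd, Finset.mul_sum, ← Finset.sum_add_distrib]
  refine Finset.sum_congr rfl fun g _ => ?_
  simp only [hs]
  field_simp

lemma exists_hadamard [Nonempty α] : ∃ F : Matrix α α ℂ, (∀ k x, ‖F k x‖ = 1) ∧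
    F * Fᴴ = (Fintype.card α : ℂ) • (1 : Matrix α α ℂ) := by
  have : NeZero (Fintype.card α) := ⟨Fintype.card_ne_zero⟩
  set e : α ≃ ZMod (Fintype.card α) := Fintype.equivOfCardEq (ZMod.card _).symm
  refine ⟨of fun k x => ZMod.stdAddChar (e x * e k), fun k x => by simp only [of_apply, AddChar.norm_apply], ?_⟩
  ext k l
  have h := AddChar.sum_mulShift (e k - e l) (ZMod.isPrimitive_stdAddChar (Fintype.card α))
  rw [← Equiv.sum_comp e] at h
  simp only [Matrix.mul_apply, conjTranspose_apply, of_apply, Complex.star_def,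
    ← AddChar.map_neg_eq_conj, ← AddChar.map_add_eq_mul, ← sub_eq_add_neg, ← mul_sub, h,
    sub_eq_zero, e.apply_eq_iff_eq, Matrix.smul_apply, one_apply, ZMod.card]
  split_ifs <;> simp

/-- random phases -/
noncomputable def ph (θ : α → ZMod 3) (k : α) : ℂ := ZMod.stdAddChar (θ k)

omit [Fintype α] [DecidableEq α] in
lemma norm_ph (θ : α → ZMod 3) (k : α) : ‖ph θ k‖ = 1 := by simp [ph]

lemma sum_ph (k l i j : α) : ∑ θ, ph θ k * star (ph θ l) * (star (ph θ i) * ph θ j) =
    if (k = l ∧ i = j) ∨ (k = i ∧ j = l) then (Fintype.card (α → ZMod 3) : ℂ) else 0 := by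
  simp only [ph, Complex.star_def, ← AddChar.map_neg_eq_conj, ← AddChar.map_add_eq_mul]
  split_ifs with h
  · have : ∀ θ : α → ZMod 3, θ k + -θ l + (-θ i + θ j) = 0 := fun θ => by
      rcases h with ⟨rfl, rfl⟩ | ⟨rfl, rfl⟩ <;> ring
    simp only [this, AddChar.map_zero_eq_one, Finset.sum_const, Finset.card_univ, Fintype.card_pi, ZMod.card, Finset.prod_const, nsmul_eq_mul, Nat.cast_pow, Nat.cast_ofNat, mul_one]
  · obtain ⟨η, hη⟩ : ∃ η : α → ZMod 3, η k + -η l + (-η i + η j) ≠ 0 := by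
      push Not at h
      by_cases hkl : k = l
      · exact ⟨Pi.single j 1, by simp only [hkl, add_neg_cancel, Pi.single_eq_of_ne (h.1 hkl), neg_zero, Pi.single_eq_same, zero_add, ne_eq, one_ne_zero, not_false_eq_true]⟩
      by_cases hki : k = i
      · exact ⟨Pi.single j 1, by simp only [hki, Pi.single_eq_of_ne (h.2 hki).symm, neg_zero, add_zero, Pi.single_eq_same, add_neg_cancel_left, ne_eq, one_ne_zero, not_false_eq_true]⟩
      refine ⟨Pi.single k 1, ?_⟩
      simp only [Pi.single_eq_same, Pi.single_eq_of_ne (Ne.symm hkl),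
        Pi.single_eq_of_ne (Ne.symm hki), Pi.single_apply k]
      split_ifs <;> decide
    have h1 := Equiv.sum_comp (Equiv.addRight η)
      fun θ : α → ZMod 3 => ZMod.stdAddChar (θ k + -θ l + (-θ i + θ j))
    have e : ∀ θ : α → ZMod 3, (θ + η) k + -(θ + η) l + (-(θ + η) i + (θ + η) j) =
        θ k + -θ l + (-θ i + θ j) + (η k + -η l + (-η i + η j)) := fun θ => by
      simp only [Pi.add_apply]; ring
    simp only [Equiv.coe_addRight, e, AddChar.map_add_eq_mul _ _ (η k + -η l + (-η i + η j)),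
      ← Finset.sum_mul] at h1
    by_contra hne
    exact hη (ZMod.injective_stdAddChar
      (((mul_eq_left₀ hne).1 h1).trans (AddChar.map_zero_eq_one _).symm))

/-- the depolarizing channel on the first factor -/
noncomputable def dep (q : ℝ) (τ : Matrix (α × H) (α × H) ℂ) : Matrix (α × H) (α × H) ℂ :=
  of fun p p' => q * τ p p' + (((1 - q) / Fintype.card α : ℝ) : ℂ) *
    if p.1 = p'.1 then ∑ c, τ (c, p.2) (c, p'.2) else 0

theorem step_std [Nonempty α] {q r B : ℝ} (h0 : 0 ≤ q) (h1 : q ≤ 1) (hr : 1 ≤ r)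
    {τ : Matrix (α × H) (α × H) ℂ} (hτ : τ.PosSemidef)
    (hB : ∀ z : α → ℂ, (∀ k, ‖z k‖ ^ 2 = 1 / Fintype.card α) →
      trf (ff r) (((1 - q + q * Fintype.card α : ℝ) : ℂ) • cmp z τ) +
      (Fintype.card α - 1) * trf (ff r) (((1 - q : ℝ) : ℂ) • cmp z τ) ≤ B) :
    trf (ff r) (dep q τ) ≤ B := by
  have hd : (0 : ℝ) < Fintype.card α := by exact_mod_cast Fintype.card_pos
  have hd' : (Fintype.card α : ℂ) ≠ 0 := by exact_mod_cast Fintype.card_ne_zero
  have hN : (0 : ℝ) < Fintype.card (α → ZMod 3) := by exact_mod_cast Fintype.card_pos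
  have hN' : (Fintype.card (α → ZMod 3) : ℂ) ≠ 0 := by exact_mod_cast Fintype.card_ne_zero
  have hu : ∀ z : ℂ, ‖z‖ = 1 → z * star z = 1 := fun z hz => by
    rw [Complex.star_def, Complex.mul_conj', hz]; simp
  obtain ⟨F, hF1, hF2⟩ := exists_hadamard (α := α)
  set u : ℝ := √(1 / Fintype.card α) with hudef
  have hu2 : (u : ℂ) * u = 1 / Fintype.card α := by
    rw [← Complex.ofReal_mul, Real.mul_self_sqrt (by positivity)]; simp
  set Z : (α → ZMod 3) → Matrix α α ℂ := fun θ => of fun k x => u * (ph θ k * F k x) with hZ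
  have hZ1 : ∀ θ, Z θ * (Z θ)ᴴ = 1 := fun θ => by
    ext k l
    have h := congrFun (congrFun hF2 k) l
    have e : (Z θ * (Z θ)ᴴ) k l = (u * u) * (ph θ k * star (ph θ l)) * (F * Fᴴ) k l := by
      simp only [hZ, Matrix.mul_apply, conjTranspose_apply, of_apply, star_mul', Finset.mul_sum,
        Complex.star_def, Complex.conj_ofReal]
      exact Finset.sum_congr rfl fun x _ => by ring
    rw [e, h, hu2, Matrix.smul_apply, one_apply]
    split_ifs with hkl
    · rw [hkl, hu _ (norm_ph θ l)]; simp [hd']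
    · simp only [one_div, RCLike.star_def, smul_eq_mul, mul_zero]
  have hc1 : ∑ _θ : α → ZMod 3, (1 / Fintype.card (α → ZMod 3) : ℝ) = 1 := by
    rw [Finset.sum_const, Finset.card_univ, nsmul_eq_mul]; field_simp
  set M := ∑ θ, ((1 / Fintype.card (α → ZMod 3) : ℝ) : ℂ) • pd q (Z θ) τ with hM
  have hMp : M.PosSemidef := posSemidef_sum _ fun θ _ => (pd_psd h0 h1 _ hτ).smul (by
    rw [Complex.zero_le_real]; positivity)
  have hMB : trf (ff r) M ≤ B := by
    refine trf_avg (ff_convex hr) (ff_zero hr) _ (fun _ => by positivity) hc1 _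
      (fun θ => pd_psd h0 h1 _ hτ) fun θ => (block h0 h1 hr (hZ1 θ) hτ).trans ?_
    calc _ ≤ ∑ _x : α, (1 / Fintype.card α : ℝ) * B := Finset.sum_le_sum fun x _ =>
          mul_le_mul_of_nonneg_left (hB _ fun k => by
            simp only [hZ, hudef, one_div, Real.sqrt_inv, Complex.ofReal_inv, of_apply, Complex.norm_mul, norm_inv, Complex.norm_real, Real.norm_eq_abs, norm_ph, hF1, mul_one, inv_pow, sq_abs, Real.sq_sqrt hd.le]) (by positivity)
      _ = B := by rw [Finset.sum_const, Finset.card_univ, nsmul_eq_mul]; field_simp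
  have hMe : ∀ p p', M p p' = q * τ p p' + (((1 - q) / Fintype.card α : ℝ) : ℂ) *
      if p.1 = p'.1 then ∑ c, τ (c, p.2) (c, p'.2) else τ p p' := by
    rintro ⟨k, h⟩ ⟨l, h'⟩
    have e : ∀ i j, ∑ θ, ∑ x, Z θ k x * star (Z θ l x) * (star (Z θ i x) * Z θ j x) =
        if (k = l ∧ i = j) ∨ (k = i ∧ j = l) then
          (Fintype.card (α → ZMod 3) : ℂ) / Fintype.card α else 0 := fun i j => by
      have e1 : ∀ θ x, Z θ k x * star (Z θ l x) * (star (Z θ i x) * Z θ j x) =
          (u * u) * (u * u) * ((ph θ k * star (ph θ l) * (star (ph θ i) * ph θ j)) *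
          (F k x * star (F l x) * (star (F i x) * F j x))) := fun θ x => by
        simp only [hZ, of_apply, star_mul', Complex.star_def, Complex.conj_ofReal]; ring
      simp only [e1, ← Finset.mul_sum, ← Finset.sum_mul, sum_ph, hu2]
      split_ifs with hc
      · have : ∀ x, F k x * star (F l x) * (star (F i x) * F j x) = 1 := fun x => by
          rcases hc with ⟨rfl, rfl⟩ | ⟨rfl, rfl⟩
          · rw [hu _ (hF1 _ _), mul_comm (star _), hu _ (hF1 _ _), one_mul]
          · linear_combination (F j x * star (F j x)) * hu _ (hF1 k x) + hu _ (hF1 j x)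
        simp only [this, Finset.sum_const, Finset.card_univ, nsmul_eq_mul]
        field_simp
      · simp only [one_div, RCLike.star_def, zero_mul, mul_zero]
    have e2 : ∑ θ, ∑ x, Z θ k x * star (Z θ l x) *
        ∑ i, ∑ j, star (Z θ i x) * Z θ j x * τ (i, h) (j, h') =
        (Fintype.card (α → ZMod 3) : ℂ) / Fintype.card α *
          if k = l then ∑ c, τ (c, h) (c, h') else τ (k, h) (l, h') := by
      calc _ = ∑ i, ∑ j, (∑ θ, ∑ x, Z θ k x * star (Z θ l x) * (star (Z θ i x) * Z θ j x)) *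
            τ (i, h) (j, h') := by
            simp only [Finset.mul_sum, Finset.sum_mul, ← Finset.sum_product',
              Finset.univ_product_univ]
            refine Fintype.sum_equiv ((Equiv.prodAssoc ..).symm.trans ((Equiv.prodComm ..).trans
              (Equiv.prodAssoc ..))) _ _ fun x => ?_
            simp only [RCLike.star_def, Equiv.trans_apply, Equiv.prodAssoc_symm_apply, Equiv.prodComm_apply, Prod.swap_prod_mk, Equiv.prodAssoc_apply]
            ring
        _ = _ := by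
            simp only [e]
            split_ifs with hkl
            · have : ∀ i j, (k = l ∧ i = j) ∨ (k = i ∧ j = l) ↔ i = j := fun i j =>
                ⟨fun h => h.elim (·.2) fun h => (h.2.trans (hkl.symm.trans h.1)).symm,
                  fun h => Or.inl ⟨hkl, h⟩⟩
              simp only [this]
              simp only [Fintype.card_pi, ZMod.card, Finset.prod_const, Finset.card_univ, Nat.cast_pow, Nat.cast_ofNat, ite_mul, zero_mul, Finset.sum_ite_eq, Finset.mem_univ, ↓ reduceIte, Finset.mul_sum]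
            · simp only [hkl, false_and, false_or, Fintype.card_pi, ZMod.card, Finset.prod_const, Finset.card_univ, Nat.cast_pow, Nat.cast_ofNat, ite_and, ite_mul, zero_mul, Finset.sum_ite_irrel, Finset.sum_ite_eq', Finset.mem_univ, ↓ reduceIte, Finset.sum_const_zero, Finset.sum_ite_eq]
    simp only [hM, pd, Matrix.sum_apply, Matrix.smul_apply, Matrix.add_apply, ez_mul_apply,
      cmp_apply, smul_eq_mul, mul_add, Finset.sum_add_distrib, ← Finset.mul_sum, e2,
      Finset.sum_const, Finset.card_univ, nsmul_eq_mul]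
    push_cast
    field_simp
  set D : (α → ZMod 3) → Matrix (α × H) (α × H) ℂ := fun θ => diagonal fun p => ph θ p.1 with hD
  set M' := ∑ θ, ((1 / Fintype.card (α → ZMod 3) : ℝ) : ℂ) • (D θ * M * (D θ)ᴴ) with hM'
  have hMB' : trf (ff r) M' ≤ B := by
    refine trf_avg (ff_convex hr) (ff_zero hr) _ (fun _ => by positivity) hc1 _
      (fun θ => hMp.mul_mul_conjTranspose_same _) fun θ => ?_
    rwa [trf_conj]
    simp only [hD, diagonal_conjTranspose, diagonal_mul_diagonal, Pi.star_apply, mul_comm (star _),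
      hu _ (norm_ph θ _), diagonal_one]
  have hMe' : ∀ p p', M' p p' = if p.1 = p'.1 then M p p' else 0 := fun p p' => by
    have e := sum_ph p.1 p'.1 p.1 p.1
    simp only [mul_comm (star (ph _ p.1)), hu _ (norm_ph _ _), mul_one, and_true, true_and,
      or_self] at e
    simp only [hM', hD, Matrix.sum_apply, Matrix.smul_apply, diagonal_conjTranspose, mul_diagonal,
      diagonal_mul, Pi.star_apply, smul_eq_mul, mul_right_comm _ (M p p'), ← Finset.mul_sum,
      ← Finset.sum_mul, e]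
    split_ifs
    · push_cast; field_simp
    · simp
  have ha : 0 < q + (1 - q) / Fintype.card α := by
    rcases h0.eq_or_lt with h | h
    · rw [← h]; simp only [sub_zero, zero_add]; positivity
    · have : 0 ≤ (1 - q) / Fintype.card α := div_nonneg (by linarith only [h1]) hd.le
      linarith only [h, this]
  set η := q / (q + (1 - q) / Fintype.card α) with hη
  have hη1 : η ≤ 1 := (div_le_one ha).2 (by
    have : 0 ≤ (1 - q) / Fintype.card α := div_nonneg (by linarith only [h1]) hd.le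
    linarith only [this])
  have hη0 : 0 ≤ η := div_nonneg h0 ha.le
  have h := trf_avg (ff_convex hr) (ff_zero hr) ![η, 1 - η] (by
    simp only [Nat.succ_eq_add_one, Nat.reduceAdd, Fin.forall_fin_two, Fin.isValue, cons_val_zero, hη0, cons_val_one, cons_val_fin_one, sub_nonneg, hη1, and_self]) (by simp) ![M, M'] (by
    simp only [Fin.forall_fin_two, cons_val_zero, cons_val_one]
    exact ⟨hMp, posSemidef_sum _ fun θ _ => (hMp.mul_mul_conjTranspose_same _).smul (by
      rw [Complex.zero_le_real]; positivity)⟩) (B := B) (by simp [Fin.forall_fin_two, hMB, hMB'])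
  convert h using 2
  ext p p'
  have hη2 : (η : ℂ) * (q + (((1 - q) / Fintype.card α : ℝ) : ℂ)) = q := by
    rw [← Complex.ofReal_add, ← Complex.ofReal_mul, hη, div_mul_cancel₀ _ ha.ne']
  simp only [dep, of_apply, Fin.sum_univ_two, cons_val_zero, cons_val_one, Matrix.add_apply,
    Matrix.smul_apply, smul_eq_mul, hMe', hMe]
  split_ifs
  · push_cast; ring
  · linear_combination -τ p p' * hη2

omit [DecidableEq α] in
lemma kron_ez (U : Matrix α α ℂ) (z : α → ℂ) :
    (U ⊗ₖ (1 : Matrix H H ℂ)) * ez H z = ez H (U *ᵥ z) := by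
  ext p h
  simp only [ez, Matrix.mul_apply, Fintype.sum_prod_type, kroneckerMap_apply, of_apply, mul_ite,
    mul_zero, Finset.sum_ite_eq', Finset.mem_univ, if_true, one_apply, mulVec, dotProduct]
  split_ifs <;> simp only [mul_one, zero_mul, Finset.sum_const_zero]

theorem step [Nonempty α] {q r B : ℝ} (h0 : 0 ≤ q) (h1 : q ≤ 1) (hr : 1 ≤ r)
    {τ : Matrix (α × H) (α × H) ℂ} (hτ : τ.PosSemidef) {U : Matrix α α ℂ} (hU : U * Uᴴ = 1)
    (hB : ∀ z : α → ℂ, (∀ k, ‖z k‖ ^ 2 = 1 / Fintype.card α) →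
      trf (ff r) (((1 - q + q * Fintype.card α : ℝ) : ℂ) • cmp (U *ᵥ z) τ) +
      (Fintype.card α - 1) * trf (ff r) (((1 - q : ℝ) : ℂ) • cmp (U *ᵥ z) τ) ≤ B) :
    trf (ff r) (dep q τ) ≤ B := by
  set K := U ⊗ₖ (1 : Matrix H H ℂ) with hK
  have hK1 : K * Kᴴ = 1 := by
    rw [hK, conjTranspose_kronecker, ← mul_kronecker_mul, hU, conjTranspose_one, Matrix.mul_one,
      one_kronecker_one]
  have hc : ∀ z, cmp z (Kᴴ * τ * K) = cmp (U *ᵥ z) τ := fun z => by
    rw [cmp, cmp, ← kron_ez, conjTranspose_mul]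
    simp only [Matrix.mul_assoc, hK]
  have h := step_std h0 h1 hr (hτ.conjTranspose_mul_mul_same K) (B := B) (by simpa only [hc])
  have e : ∀ σ : Matrix (α × H) (α × H) ℂ, dep q σ = (q : ℂ) • σ +
      (((1 - q) / Fintype.card α : ℝ) : ℂ) • ((1 : Matrix α α ℂ) ⊗ₖ ∑ c, cmp (Pi.single c 1) σ) := by
    intro σ
    ext p p'
    simp only [dep, Complex.ofReal_div, Complex.ofReal_sub, Complex.ofReal_one, Complex.ofReal_natCast, mul_ite, mul_zero, of_apply, Complex.coe_smul, Matrix.add_apply, Matrix.smul_apply, Complex.real_smul, kroneckerMap_apply, one_apply, Matrix.sum_apply, cmp_apply, Pi.single_apply, apply_ite star, star_one, star_zero, mul_one, ite_mul, one_mul, zero_mul, Finset.sum_ite_eq', Finset.mem_univ, ↓ reduceIte, smul_eq_mul]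
  have e2 : ∑ c, cmp (U *ᵥ Pi.single c 1) τ = ∑ c, cmp (Pi.single c 1) τ := by
    ext h h'
    have : ∀ a b, ∑ c, star (U a c) * U b c = if b = a then 1 else 0 := fun a b => by
      rw [← one_apply, ← hU, Matrix.mul_apply]
      simp only [RCLike.star_def, mul_comm, conjTranspose_apply]
    simp only [Matrix.sum_apply, cmp_apply, mulVec_single_one, col_apply]
    rw [Finset.sum_comm]
    simp only [Finset.sum_comm (f := fun c b => star (U _ c) * U b c * _), ← Finset.sum_mul, this]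
    simp only [ite_mul, one_mul, zero_mul, Finset.sum_ite_eq', Finset.mem_univ, ↓ reduceIte, Pi.single_apply, apply_ite star, star_one, star_zero, mul_ite, mul_one, mul_zero]
  have e3 : dep q (Kᴴ * τ * K) = Kᴴ * dep q τ * Kᴴᴴ := by
    rw [e, e, conjTranspose_conjTranspose]
    simp only [hc, e2, Matrix.mul_add, Matrix.add_mul, Matrix.mul_smul, Matrix.smul_mul]
    rw [hK, conjTranspose_kronecker, ← mul_kronecker_mul, ← mul_kronecker_mul, Matrix.mul_one,
      mul_eq_one_comm.1 hU, conjTranspose_one, Matrix.mul_one, Matrix.one_mul]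
  rwa [e3, trf_conj _ (by rwa [conjTranspose_conjTranspose])] at h

end Pool.Agent.MP_b746ed_mp.H14

end

-- part King
section
/-! Induction over the sites. -/

set_option autoImplicit false
open scoped ComplexOrder
open Matrix

namespace Pool.Agent.MP_b746ed_mp.H14

open KF (chan chan_apply chan_psd)

variable {α : Type} [Fintype α] [DecidableEq α]

/-- the kernel of the depolarizing channel -/
noncomputable def kap (q : ℝ) (a b c e : α) : ℂ :=
  (((1 - q) / Fintype.card α : ℝ) : ℂ) * (if a = b ∧ c = e then 1 else 0) +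
    q * if c = a ∧ e = b then 1 else 0

lemma chan_ker [Nonempty α] {ι : Type} [Fintype ι] [DecidableEq ι] (q : ι → ℝ)
    (X : Matrix (ι → α) (ι → α) ℂ) (a b : ι → α) :
    chan q X a b = ∑ c, ∑ e, (∏ i, kap (q i) (a i) (b i) (c i) (e i)) * X c e := by
  have hd : (Fintype.card α : ℂ) ≠ 0 := by exact_mod_cast Fintype.card_ne_zero
  have e1 : ∀ (S : Finset ι) (f g : ι → ℂ), (∏ i ∈ S, f i) * ∏ i ∈ Finset.univ \ S, g i =
      ∏ i, if i ∈ S then f i else g i := fun S f g => by
    rw [mul_comm, ← Finset.univ_inter S, Finset.univ_inter, mul_comm]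
    simpa only [Finset.univ_inter, Finset.piecewise] using (Finset.prod_piecewise Finset.univ S f g).symm
  have h1 : ∀ S : Finset ι, ∑ s : ι → α, X (S.piecewise s a) (S.piecewise s b) =
      ∑ c, ∑ e, (∏ i, ∑ s, if c i = (if i ∈ S then s else a i) ∧ e i = (if i ∈ S then s else b i)
        then (1 : ℂ) else 0) * X c e := fun S => by
    simp only [Finset.prod_univ_sum, Fintype.piFinset_univ, Finset.sum_mul]
    symm
    calc _ = ∑ s : ι → α, ∑ c, ∑ e, (if c = S.piecewise s a then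
          if e = S.piecewise s b then X c e else 0 else 0) := by
          rw [Finset.sum_comm (γ := ι → α) (f := fun s c => ∑ e, if c = S.piecewise s a then _ else _)]
          refine Finset.sum_congr rfl fun c _ => ?_
          rw [Finset.sum_comm]
          simp only [Finset.prod_boole, Finset.mem_univ, true_imp_iff, forall_and, ← ite_and,
            ite_mul, one_mul, zero_mul, funext_iff, Finset.piecewise]
      _ = _ := by simp
  calc _ = ∑ S : Finset ι, ∑ c, ∑ e, ((∏ i ∈ S, (((1 - q i) / Fintype.card α : ℝ) : ℂ) *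
        (if a i = b i ∧ c i = e i then 1 else 0)) * ∏ i ∈ Finset.univ \ S,
        (q i : ℂ) * if c i = a i ∧ e i = b i then 1 else 0) * X c e := by
        rw [chan_apply]
        refine Finset.sum_congr rfl fun S _ => ?_
        simp only [h1, Finset.mul_sum, ← mul_assoc]
        refine Finset.sum_congr rfl fun c _ => Finset.sum_congr rfl fun e _ => ?_
        congr 1
        push_cast
        rw [mul_comm (∏ i ∈ Finset.univ \ S, _), mul_right_comm _ _ (∏ i ∈ S, _),
          ← Finset.prod_mul_distrib, e1, e1, ← Finset.card_univ (α := ι), ← Finset.prod_const,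
          ← Finset.prod_mul_distrib, ← Finset.prod_mul_distrib]
        refine Finset.prod_congr rfl fun i _ => ?_
        by_cases hi : i ∈ S
        · simp only [hi, if_true, ite_and, Finset.sum_ite_eq, Finset.mem_univ, eq_comm (a := e i)]
          split_ifs <;> simp [div_eq_mul_inv]
        · simp only [hi, if_false, Finset.sum_const, Finset.card_univ, nsmul_eq_mul]
          field_simp
    _ = _ := by
        simp only [kap, Finset.prod_add, Finset.powerset_univ, Finset.sum_mul]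
        rw [Finset.sum_comm]
        exact Finset.sum_congr rfl fun c _ => Finset.sum_comm

variable {n : ℕ}

/-- splitting off the first site -/
def spl (X : Matrix (Fin (n + 1) → α) (Fin (n + 1) → α) ℂ) :
    Matrix (α × (Fin n → α)) (α × (Fin n → α)) ℂ :=
  X.submatrix (Fin.consEquiv fun _ => α) (Fin.consEquiv fun _ => α)

lemma spl_chan [Nonempty α] (q : Fin (n + 1) → ℝ) (X : Matrix (Fin (n + 1) → α) (Fin (n + 1) → α) ℂ)
    (p p' : α × (Fin n → α)) : spl (chan q X) p p' = ∑ c, ∑ e, kap (q 0) p.1 p'.1 c e *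
      chan (Fin.tail q) (of fun h k => spl X (c, h) (e, k)) p.2 p'.2 := by
  simp only [spl, submatrix_apply, chan_ker, ← Equiv.sum_comp (Fin.consEquiv fun _ => α),
    Fintype.sum_prod_type, Fin.prod_univ_succ, Finset.mul_sum, of_apply]
  refine Finset.sum_congr rfl fun c _ => ?_
  rw [Finset.sum_comm]
  simp only [Fin.consEquiv, Equiv.coe_fn_mk, Fin.cons_zero, Fin.cons_succ, mul_assoc, Fin.tail]

/-- the output spectrum of one channel at a pure input -/
noncomputable def sig (o : α) (q : ℝ) (a : α) : ℝ :=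
  (1 - q) / Fintype.card α + q * if a = o then 1 else 0

theorem king (o : α) {r : ℝ} (hr : 1 ≤ r) : ∀ (n : ℕ) (q : Fin n → ℝ), (∀ i, 0 ≤ q i ∧ q i ≤ 1) →
    ∀ ρ : Matrix (Fin n → α) (Fin n → α) ℂ, ρ.PosSemidef →
      trf (ff r) (chan q ρ) ≤ ∑ y : Fin n → α, ff r (ρ.trace.re * ∏ i, sig o (q i) (y i)) := by
  have : Nonempty α := ⟨o⟩
  have hd : (Fintype.card α : ℝ) ≠ 0 := by exact_mod_cast Fintype.card_ne_zero
  intro n
  induction n with
  | zero =>
    intro q _ ρ hρ
    have e : chan q ρ = dg fun _ => ρ.trace.re := by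
      ext a b
      have h := (Complex.nonneg_iff.1 hρ.trace_nonneg).2
      rw [chan_ker, Subsingleton.elim a b, dg, diagonal_apply_eq]
      refine Complex.ext ?_ ?_ <;> simp_all [trace]
    simp [e, trf_dg]
  | succ n ih =>
    intro q hq ρ hρ
    set τ := spl (chan (Fin.cons 1 (Fin.tail q)) ρ) with hτ
    have hτp : τ.PosSemidef := (chan_psd (by
      refine Fin.cases (by simp) fun i => hq _) hρ).submatrix _
    have hτe : ∀ p p', τ p p' =
        chan (Fin.tail q) (of fun h k => spl ρ (p.1, h) (p'.1, k)) p.2 p'.2 := fun p p' => by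
      simp [hτ, spl_chan, kap, ite_and]
    have h1 : spl (chan q ρ) = dep (q 0) τ := by
      ext p p'
      simp only [spl_chan, kap, dep, of_apply, hτe, add_mul, Finset.sum_add_distrib, ite_and,
        mul_assoc, ← Finset.mul_sum]
      split_ifs <;> simp [add_comm]
    have h2 : ∀ z, cmp z τ = chan (Fin.tail q) (cmp z (spl ρ)) := fun z => by
      have e : cmp z (spl ρ) = ∑ a, ∑ b, (star (z a) * z b) • of fun h k => spl ρ (a, h) (b, k) := by
        ext h k
        simp only [cmp_apply, RCLike.star_def, smul_of, Matrix.sum_apply, of_apply, Pi.smul_apply, smul_eq_mul]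
      ext h k
      simp only [e, cmp_apply, hτe, map_sum, map_smul, Matrix.sum_apply, Matrix.smul_apply,
        smul_eq_mul]
    have hρ' : (spl ρ).PosSemidef := hρ.submatrix _
    have hm : (∑ h, (spl ρ).submatrix (fun a => (a, h)) fun a => (a, h)).PosSemidef :=
      posSemidef_sum _ fun h _ => hρ'.submatrix _
    obtain ⟨U, l, hU1, hU2, -, hU⟩ := exists_spec hm
    have hl : ρ.trace = ((∑ k, l k : ℝ) : ℂ) := by
      have e := congrArg trace hU
      rw [trace_mul_comm, ← Matrix.mul_assoc, hU1, Matrix.one_mul, dg, trace_diagonal] at e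
      rw [Complex.ofReal_sum, ← e, trace, ← Equiv.sum_comp (Fin.consEquiv fun _ => α),
        Fintype.sum_prod_type, trace]
      simp only [diag_apply, spl, submatrix_submatrix, Matrix.sum_apply, submatrix_apply, Function.comp_apply]
    rw [← trf_reindex _ (Fin.consEquiv fun _ => α), ← spl, h1]
    refine step (hq 0).1 (hq 0).2 hr hτp hU2 fun z hz => ?_
    have h3 : (cmp (U *ᵥ z) (spl ρ)).trace = ((ρ.trace.re / Fintype.card α : ℝ) : ℂ) := by
      have e : (cmp (U *ᵥ z) (spl ρ)).trace = star (U *ᵥ z) ⬝ᵥ (U * dg l * Uᴴ) *ᵥ (U *ᵥ z) := by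
        rw [← hU]
        generalize U *ᵥ z = w
        simp only [trace, diag_apply, cmp_apply, dotProduct, mulVec, Matrix.sum_apply,
          submatrix_apply, Finset.mul_sum, Finset.sum_mul, Pi.star_apply]
        rw [Finset.sum_comm]
        refine Finset.sum_congr rfl fun a _ => ?_
        rw [Finset.sum_comm]
        exact Finset.sum_congr rfl fun b _ => Finset.sum_congr rfl fun h _ => by ring
      rw [e, mulVec_mulVec, Matrix.mul_assoc, hU1, Matrix.mul_one, ← mulVec_mulVec, star_mulVec,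
        dotProduct_mulVec, vecMul_vecMul, hU1, vecMul_one, hl, Complex.ofReal_re, Finset.sum_div]
      simp only [dg, mulVec_diagonal, dotProduct, Pi.star_apply, Complex.ofReal_sum]
      refine Finset.sum_congr rfl fun k _ => ?_
      rw [mul_left_comm, Complex.star_def, Complex.conj_mul', ← Complex.ofReal_pow, hz]
      push_cast
      ring
    have h4 : ∀ k : ℝ, 0 ≤ k → trf (ff r) ((k : ℂ) • cmp (U *ᵥ z) τ) ≤ ∑ y : Fin n → α,
        ff r (ρ.trace.re * (k / Fintype.card α * ∏ i, sig o (q i.succ) (y i))) := fun k hk => by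
      rw [h2, ← map_smul]
      refine (ih _ (fun i => hq _) _ ((hρ'.conjTranspose_mul_mul_same _).smul
        (by simpa only [Complex.zero_le_real] using hk))).trans_eq (Finset.sum_congr rfl fun y _ => ?_)
      rw [trace_smul, ← cmp, h3, smul_eq_mul, ← Complex.ofReal_mul, Complex.ofReal_re]
      exact congrArg _ (by ring)
    have h5 : (1 : ℝ) ≤ Fintype.card α := by exact_mod_cast Fintype.card_pos
    refine (add_le_add (h4 _ (by nlinarith only [hq 0])) (mul_le_mul_of_nonneg_left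
      (h4 _ (by linarith only [hq 0])) (by linarith))).trans_eq ?_
    rw [← Equiv.sum_comp (Fin.consEquiv fun _ => α), Fintype.sum_prod_type,
      ← Finset.add_sum_erase _ _ (Finset.mem_univ o)]
    simp only [Fin.prod_univ_succ, Fin.consEquiv_apply, Fin.cons_zero, Fin.cons_succ]
    congr 1
    · simp only [sig, if_true]
      congr 4
      field_simp
    · have e : ∀ a ∈ Finset.univ.erase o, sig o (q 0) a = (1 - q 0) / Fintype.card α := fun a ha => by
        rw [sig, if_neg (Finset.ne_of_mem_erase ha), mul_zero, add_zero]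
      rw [Finset.sum_congr (s₁ := Finset.univ.erase o) rfl fun a ha => by rw [e a ha], Finset.sum_const,
        Finset.card_erase_of_mem (Finset.mem_univ o), nsmul_eq_mul, Finset.card_univ,
        Nat.cast_pred Fintype.card_pos]

end Pool.Agent.MP_b746ed_mp.H14

end

-- part Refl
section
/-! A reflection argument: approximate log-concavity of the spectrum of a product. -/

set_option autoImplicit false

namespace Pool.Agent.MP_b746ed_mp.H14

open Finset Real

variable {α : Type} {n : ℕ}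

/-- exchange of the first `j` coordinates -/
def swp (j : ℕ) (p : (Fin n → α) × (Fin n → α)) : (Fin n → α) × (Fin n → α) :=
  (fun i => if (i : ℕ) < j then p.2 i else p.1 i, fun i => if (i : ℕ) < j then p.1 i else p.2 i)

lemma swp_swp (j : ℕ) (p : (Fin n → α) × (Fin n → α)) : swp j (swp j p) = p := by
  ext i <;> simp only [swp] <;> split_ifs <;> rfl

lemma refl (u : Fin n → α → ℝ) {U h : ℝ} (hU : 0 < U) (hu : ∀ i a b, u i a - u i b ≤ U)
    (hh : 0 ≤ h) : ∃ Θ : (Fin n → α) × (Fin n → α) → (Fin n → α) × (Fin n → α),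
      Set.InjOn Θ {p | h ≤ ∑ i, u i (p.1 i) - ∑ i, u i (p.2 i)} ∧
      ∀ p, h ≤ ∑ i, u i (p.1 i) - ∑ i, u i (p.2 i) → ∃ e, h ≤ e ∧ e < h + U ∧
        ∑ i, u i ((Θ p).1 i) = ∑ i, u i (p.1 i) - e ∧
        ∑ i, u i ((Θ p).2 i) = ∑ i, u i (p.2 i) + e := by
  set D : (Fin n → α) × (Fin n → α) → ℕ → ℝ := fun p j =>
    ∑ i : Fin n, if (i : ℕ) < j then u i (p.1 i) - u i (p.2 i) else 0 with hD
  have hn : ∀ p : (Fin n → α) × (Fin n → α), h ≤ ∑ i, u i (p.1 i) - ∑ i, u i (p.2 i) →
      {j | h ≤ D p j}.Nonempty := fun p hp => ⟨n, by simpa only [hD, Set.mem_ofPred_eq, Fin.is_lt, ↓ reduceIte, sum_sub_distrib] using hp⟩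
  have hs : ∀ p j k, k ≤ j → D (swp j p) k = -D p k := fun p j k hk => by
    rw [hD, ← sum_neg_distrib]
    refine sum_congr rfl fun i _ => ?_
    by_cases hi : (i : ℕ) < k
    · simp [swp, hi, hi.trans_le hk]
    · simp [hi]
  refine ⟨fun p => swp (sInf {j | h ≤ D p j}) p, ?_, fun p hp => ⟨D p (sInf {j | h ≤ D p j}),
    Nat.sInf_mem (hn p hp), ?_, ?_, ?_⟩⟩
  · have key : ∀ p p', h ≤ ∑ i, u i (p.1 i) - ∑ i, u i (p.2 i) →
        swp (sInf {j | h ≤ D p j}) p = swp (sInf {j | h ≤ D p' j}) p' →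
        sInf {j | h ≤ D p j} ≤ sInf {j | h ≤ D p' j} →
        sInf {j | h ≤ D p' j} ≤ sInf {j | h ≤ D p j} := fun p p' hp e hle => by
      have h1 := hs p _ _ (le_refl (sInf {j | h ≤ D p j}))
      rw [e, hs _ _ _ hle, neg_inj] at h1
      exact Nat.sInf_le (show h ≤ _ from h1 ▸ Nat.sInf_mem (hn p hp))
    intro p hp p' hp' e
    have e' : sInf {j | h ≤ D p j} = sInf {j | h ≤ D p' j} := by
      rcases le_total (sInf {j | h ≤ D p j}) (sInf {j | h ≤ D p' j}) with hle | hle
      · exact le_antisymm hle (key p p' hp e hle)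
      · exact le_antisymm (key p' p hp' e.symm hle) hle
    rw [← swp_swp (sInf {j | h ≤ D p j}) p, ← swp_swp (sInf {j | h ≤ D p' j}) p']
    simp only at e
    rw [e, e']
  · rcases hj : sInf {j | h ≤ D p j} with _ | j
    · simp only [hD, Nat.not_lt_zero, if_false, sum_const_zero]
      linarith only [hU, hh]
    · have h1 : ¬h ≤ D p j := Nat.notMem_of_lt_sInf (s := {j | h ≤ D p j}) (by omega)
      have h2 : D p (j + 1) ≤ D p j + ∑ i : Fin n, if (i : ℕ) = j then U else 0 := by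
        rw [hD, ← sum_add_distrib]
        refine sum_le_sum fun i _ => ?_
        have := hu i (p.1 i) (p.2 i)
        split_ifs <;> first | omega | linarith only [this]
      have h3 : (∑ i : Fin n, if (i : ℕ) = j then U else 0) ≤ U := by
        rw [Finset.sum_fin_eq_sum_range]
        refine (sum_le_sum (g := fun i => if i = j then U else 0) fun i _ => ?_).trans ?_
        · split_ifs <;> first | omega | linarith only [hU]
        · rw [sum_ite_eq']
          split_ifs <;> linarith only [hU]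
      linarith only [h1, h2, h3]
  · rw [hD, ← sum_sub_distrib]
    exact sum_congr rfl fun i _ => by simp only [swp]; split_ifs <;> ring
  · rw [hD, ← sum_add_distrib]
    exact sum_congr rfl fun i _ => by simp only [swp]; split_ifs <;> ring

lemma pair_le {r U a b e : ℝ} {j : ℕ} (hr : 0 ≤ r) (hU : 0 < U) (β : ℝ) (hβ : 0 ≤ β)
    (h1 : j * U ≤ a) (h2 : a < j * U + U) (h3 : a ≤ b) (h4 : j * U ≤ e) (h5 : e < j * U + U)
    (s : ℝ) (hs : s = 1 ∨ s = -1) :
    exp (β * (s * a) - r * a) * exp (β * (s * -b) - r * b) ≤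
      exp ((β + r) * U) * exp (-(2 * r * U)) ^ j * exp (β * (s * (e - b)) - r * |s * (e - b)|) := by
  rw [← exp_nat_mul, ← exp_add, ← exp_add, ← exp_add, exp_le_exp]
  have h6 : |s * (e - b)| ≤ b - j * U + U := by
    rcases hs with rfl | rfl <;> rw [abs_le] <;> constructor <;> linarith
  have h7 := mul_le_mul_of_nonneg_left h6 hr
  have h8 : s * (a - e) ≤ U := by rcases hs with rfl | rfl <;> linarith
  have h9 := mul_le_mul_of_nonneg_left h8 hβ
  have h10 := mul_le_mul_of_nonneg_left h1 hr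
  linarith only [h7, h9, h10]

variable [Fintype α]

theorem dich (u : Fin n → α → ℝ) {U r k x : ℝ} (hu : ∀ i a b, u i a - u i b ≤ U) (hr : 1 ≤ r)
    (hU : log 4 ≤ U) (Z : (Fin n → α) → ℝ) (hZ : ∀ y, Z y = ∑ i, u i (y i) - x)
    (hk : (∑ y, if -U < Z y then (1 : ℝ) else 0) ≤ k) :
    ∑ y with Z y < 0, exp (2 * r * Z y) ≤ 8 * k * exp (2 * r * U) ∨
      ∑ y with 0 ≤ Z y, exp (3 / 2 * r * Z y) ≤ 8 * k * exp (2 * r * U) := by
  classical
  have hU0 : 0 < U := (log_pos (by norm_num)).trans_le hU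
  set F : (Fin n → α) → ℝ := fun y => exp (7 / 4 * r * Z y - r / 4 * |Z y|) with hF
  set I : (Fin n → α) → ℝ := fun y => if -U < Z y then 1 else 0 with hI
  have hI0 : ∀ y, 0 ≤ I y := fun y => by simp only [hI]; split_ifs <;> norm_num
  have hF0 : ∀ y, 0 ≤ F y := fun y => (exp_pos _).le
  have hR : ∑ y with Z y < 0, exp (2 * r * Z y) = ∑ y with Z y < 0, F y :=
    sum_congr rfl fun y hy => by
      simp only [hF, abs_of_neg (mem_filter.1 hy).2]; congr 1; ring
  have hL : ∑ y with 0 ≤ Z y, exp (3 / 2 * r * Z y) = ∑ y with 0 ≤ Z y, F y :=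
    sum_congr rfl fun y hy => by
      simp only [hF, abs_of_nonneg (mem_filter.1 hy).2]; congr 1; ring
  have hLR : ∑ y with 0 ≤ Z y, F y + ∑ y with Z y < 0, F y = ∑ y, F y := by
    simpa only [not_le] using sum_filter_add_sum_filter_not univ (fun y => 0 ≤ Z y) F
  rw [hR, hL]
  set L := ∑ y with 0 ≤ Z y, F y with hLd
  set R := ∑ y with Z y < 0, F y with hRd
  set ρ := exp (-(2 * (r / 4) * U)) with hρ
  have hρ0 : 0 ≤ ρ := (exp_pos _).le
  have hρ1 : ρ ≤ 1 / 2 := by
    have h4 : log 4 = 2 * log 2 := by rw [show (4 : ℝ) = 2 ^ 2 by norm_num, log_pow]; norm_num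
    rw [hρ, ← le_log_iff_exp_le (by norm_num), one_div, log_inv]
    nlinarith only [hr, hU, hU0, h4]
  set P := (univ.filter fun y => 0 ≤ Z y) ×ˢ (univ.filter fun y => Z y < 0) with hP
  set J : (Fin n → α) × (Fin n → α) → ℕ := fun p => ⌊min (Z p.1) (-Z p.2) / U⌋₊ with hJ
  have hj : ∀ j : ℕ, ∑ p ∈ P with J p = j, F p.1 * F p.2 ≤
      ρ ^ j * (2 * k * exp (2 * r * U) * (L + R)) := fun j => by
    obtain ⟨Θ, hΘ1, hΘ2⟩ := refl u hU0 hu (show 0 ≤ j * U by positivity)
    have h0 : ∀ p ∈ P.filter fun p => J p = j, 0 ≤ Z p.1 ∧ Z p.2 < 0 ∧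
        j * U ≤ min (Z p.1) (-Z p.2) ∧ min (Z p.1) (-Z p.2) < j * U + U := fun p hp => by
      simp only [hP, mem_filter, mem_product, mem_univ, true_and] at hp
      have hm : 0 ≤ min (Z p.1) (-Z p.2) / U :=
        div_nonneg (le_min hp.1.1 (by linarith only [hp.1.2])) hU0.le
      have h1 := (Nat.floor_eq_iff hm).1 hp.2
      exact ⟨hp.1.1, hp.1.2, (le_div_iff₀ hU0).1 h1.1, by linarith only [(div_lt_iff₀ hU0).1 h1.2]⟩
    have h1 : ∀ p ∈ P.filter fun p => J p = j,
        j * U ≤ ∑ i, u i (p.1 i) - ∑ i, u i (p.2 i) := fun p hp => by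
      obtain ⟨-, h2, h3, -⟩ := h0 p hp
      linarith only [hZ p.1, hZ p.2, min_le_left (Z p.1) (-Z p.2), h2, h3]
    set G : (Fin n → α) × (Fin n → α) → ℝ := fun p => I p.1 * F p.2 + F p.1 * I p.2 with hG
    have hG0 : ∀ p, 0 ≤ G p := fun p =>
      add_nonneg (mul_nonneg (hI0 _) (hF0 _)) (mul_nonneg (hF0 _) (hI0 _))
    calc _ ≤ ∑ p ∈ P with J p = j, exp (2 * r * U) * ρ ^ j * G (Θ p) := by
          refine sum_le_sum fun p hp => ?_
          obtain ⟨e, e1, e2, e3, e4⟩ := hΘ2 p (h1 p hp)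
          obtain ⟨h2, h3, h4, h5⟩ := h0 p hp
          have z1 : Z (Θ p).1 = Z p.1 - e := by rw [hZ, hZ, e3]; ring
          have z2 : Z (Θ p).2 = Z p.2 + e := by rw [hZ, hZ, e4]; ring
          have hc : 0 ≤ exp (2 * r * U) * ρ ^ j := by positivity
          rcases le_total (Z p.1) (-Z p.2) with hle | hle
          · rw [min_eq_left hle] at h4 h5
            have := pair_le (r := r / 4) (by linarith only [hr]) hU0 (7 / 4 * r) (by linarith only [hr]) h4 h5 hle e1 e2
              1 (Or.inl rfl)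
            refine le_trans ?_ (mul_le_mul_of_nonneg_left
              (le_add_of_nonneg_right (mul_nonneg (hF0 _) (hI0 _))) hc)
            simp only [hF, hI, z1, z2, if_pos (show -U < Z p.1 - e by linarith only [e2, h4]), one_mul,
              abs_of_nonneg h2, abs_of_neg h3, neg_neg, sub_neg_eq_add, add_comm e,
              show (7 / 4 * r + r / 4) * U = 2 * r * U by ring] at this ⊢
            exact this
          · rw [min_eq_right hle] at h4 h5
            have := pair_le (r := r / 4) (by linarith only [hr]) hU0 (7 / 4 * r) (by linarith only [hr]) h4 h5 hle e1 e2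
              (-1) (Or.inr rfl)
            refine le_trans ?_ (mul_le_mul_of_nonneg_left
              (le_add_of_nonneg_left (mul_nonneg (hI0 _) (hF0 _))) hc)
            simp only [hF, hI, z1, z2, if_pos (show -U < Z p.2 + e by linarith only [e1, h5]), mul_one,
              abs_of_nonneg h2, abs_of_neg h3, neg_one_mul, neg_neg, neg_sub,
              show (7 / 4 * r + r / 4) * U = 2 * r * U by ring] at this ⊢
            rwa [mul_comm]
      _ = exp (2 * r * U) * ρ ^ j * ∑ p ∈ (P.filter fun p => J p = j).image Θ, G p := by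
          rw [sum_image fun p hp p' hp' => hΘ1 (h1 p hp) (h1 p' hp'), mul_sum]
      _ ≤ exp (2 * r * U) * ρ ^ j * ∑ p, G p :=
          mul_le_mul_of_nonneg_left (sum_le_univ_sum_of_nonneg hG0) (by positivity)
      _ ≤ _ := by
          have e : ∑ p, G p = 2 * (∑ y, I y) * (L + R) := by
            simp only [hG, sum_add_distrib, Fintype.sum_prod_type, ← mul_sum, ← sum_mul, hLR]
            ring
          have h2 : 0 ≤ L + R := hLR ▸ sum_nonneg fun y _ => hF0 y
          rw [e]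
          have h3 := mul_le_mul_of_nonneg_left hk
            (show 0 ≤ exp (2 * r * U) * ρ ^ j * 2 * (L + R) by positivity)
          linarith only [h3]
  have hk0 : 0 ≤ k := (sum_nonneg fun y _ => hI0 y).trans hk
  have hL0 : 0 ≤ L := sum_nonneg fun y _ => hF0 y
  have hR0 : 0 ≤ R := sum_nonneg fun y _ => hF0 y
  have hsum : L * R ≤ 2 * (2 * k * exp (2 * r * U) * (L + R)) := by
    rw [hLd, hRd, sum_mul_sum, ← sum_product', ← hP,
      ← sum_fiberwise_of_maps_to (t := P.image J) (g := J) fun p hp => mem_image_of_mem _ hp]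
    refine (sum_le_sum fun j _ => hj j).trans ?_
    rw [← sum_mul]
    refine mul_le_mul_of_nonneg_right ?_ (by positivity)
    refine (sum_le_sum fun j _ => pow_le_pow_left₀ hρ0 hρ1 j).trans ?_
    exact (summable_geometric_two.sum_le_tsum _ fun j _ => by positivity).trans_eq
      tsum_geometric_two
  by_contra hc
  push Not at hc
  have : 0 ≤ k * exp (2 * r * U) := by positivity
  nlinarith only [hsum, hc, this]

theorem scale (u : Fin n → α → ℝ) {U k x : ℝ} (hu : ∀ i a b, u i a - u i b ≤ U)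
    (hU : log 4 ≤ U) (Z : (Fin n → α) → ℝ) (hZ : ∀ y, Z y = ∑ i, u i (y i) - x)
    (hk : (∑ y, if -U < Z y then (1 : ℝ) else 0) ≤ k) (hk1 : 1 ≤ k) :
    ∃ r, 1 ≤ r ∧ ∑ y with Z y < 0, exp (2 * r * Z y) ≤ 8 * k * exp (2 * r * U) ∧
      (r = 1 ∨ 3 / 2 ≤ r ∧ ∑ y with 0 ≤ Z y, exp (r * Z y) ≤ 8 * k * exp (2 * r * U)) := by
  classical
  have hU0 : 0 < U := (log_pos (by norm_num)).trans_le hU
  have h1 : ∀ j : ℕ, (1 : ℝ) ≤ (3 / 2) ^ j := fun j => one_le_pow₀ (by norm_num)
  have hex : ∃ j : ℕ, ∑ y with Z y < 0, exp (2 * (3 / 2) ^ j * Z y) ≤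
      8 * k * exp (2 * (3 / 2) ^ j * U) := by
    obtain ⟨j, hj⟩ := pow_unbounded_of_one_lt
      ((univ.filter fun y => Z y < 0).card / U : ℝ) (show (1 : ℝ) < 3 / 2 by norm_num)
    refine ⟨j, (sum_le_card_nsmul _ _ 1 fun y hy => exp_le_one_iff.2 ?_).trans ?_⟩
    · nlinarith only [h1 j, (mem_filter.1 hy).2]
    · rw [div_lt_iff₀ hU0] at hj
      have h2 := add_one_le_exp (2 * (3 / 2) ^ j * U)
      have h3 : 0 < (3 / 2) ^ j * U := by positivity
      rw [nsmul_eq_mul]
      nlinarith only [hk1, hj, h2]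
  refine ⟨_, h1 _, Nat.find_spec hex, ?_⟩
  rcases hj : Nat.find hex with _ | j
  · exact Or.inl rfl
  · refine Or.inr ⟨by rw [pow_succ]; linarith only [h1 j], ?_⟩
    have h2 := (dich u hu (h1 j) hU Z hZ hk).resolve_left (Nat.find_min hex (by omega))
    rw [pow_succ']
    refine h2.trans (mul_le_mul_of_nonneg_left (exp_le_exp.2 ?_) (by positivity))
    nlinarith only [h1 j, hU0]

end Pool.Agent.MP_b746ed_mp.H14

end

-- part Fan
section
/-! From the trace inequalities to Ky Fan sums. -/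

set_option autoImplicit false

namespace Pool.Agent.MP_b746ed_mp.H14

open Finset Real

lemma gg_le {z : ℝ} (hz : 0 ≤ z) : gg z ≤ z := by
  have := log_nonneg (show 1 ≤ 1 + z by linarith)
  simp only [gg]
  linarith

lemma gg_le_sq {z : ℝ} (hz : 0 ≤ z) : gg z ≤ z ^ 2 := by
  have h := gg_tan hz le_rfl
  have h1 : z / (1 + z) ≤ z := div_le_self hz (by linarith)
  rw [gg_zero] at h
  nlinarith only [hz, h, h1]

lemma le_gg {z : ℝ} (hz : 0 ≤ z) : z ≤ 2 * gg z + 1 := by
  have h := gg_tan zero_le_one hz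
  have := gg_nonneg zero_le_one
  linarith

lemma exists_top {Y : Type} [Fintype Y] [DecidableEq Y] (S : Y → ℝ) {s : ℕ} (h1 : 1 ≤ s)
    (h2 : s ≤ Fintype.card Y) : ∃ B : Finset Y, B.card = s ∧
      ∃ y₀, (∀ y ∈ B, S y₀ ≤ S y) ∧ ∀ y, y ∉ B → S y ≤ S y₀ := by
  obtain ⟨e, he⟩ := KF.exists_sort S
  refine ⟨(univ.filter fun i : Fin _ => (i : ℕ) < s).map e.toEmbedding, ?_, e ⟨s - 1, by omega⟩,
    fun y hy => ?_, fun y hy => ?_⟩
  · rw [card_map, Fin.card_filter_val_lt, min_eq_right h2]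
  all_goals
    obtain ⟨i, rfl⟩ := e.surjective y
    simp only [mem_map_equiv, Equiv.symm_apply_apply, mem_filter, mem_univ, true_and] at hy
    exact he (by simp only [Fin.le_def]; omega)

variable {α : Type} [Fintype α] [DecidableEq α] {n : ℕ} {u : Fin n → α → ℝ} {T : ℝ}
  {l S : (Fin n → α) → ℝ}

omit [DecidableEq α] in
lemma jen {w : (Fin n → α) → ℝ} (hl : ∀ y, 0 ≤ l y) (hw : ∀ y, 0 ≤ w y ∧ w y ≤ 1)
    (hκ : 0 < ∑ y, w y) {c r : ℝ} (hc : 0 ≤ c) (hr : 1 ≤ r) :
    (∑ y, w y) * gg ((c * (∑ y, w y * l y) / ∑ y, w y) ^ r) ≤ ∑ y, ff r (c * l y) := by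
  have h := (ff_convex hr).map_centerMass_le (t := univ) (w := w) (p := fun y => c * l y)
    (fun y _ => (hw y).1) hκ fun y _ => mul_nonneg hc (hl y)
  simp only [centerMass, smul_eq_mul, Function.comp_apply, mul_left_comm _ c, ← mul_sum] at h
  rw [le_inv_mul_iff₀ hκ, mul_comm _⁻¹, ← mul_assoc, ← div_eq_mul_inv] at h
  exact h.trans (sum_le_sum fun y _ => mul_le_of_le_one_left
    (gg_nonneg (rpow_nonneg (mul_nonneg hc (hl y)) r)) (hw y).2)

omit [DecidableEq α] in
lemma split_le (Z : (Fin n → α) → ℝ) (r : ℝ) : ∑ y, ff r (exp (Z y)) ≤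
    ∑ y with 0 ≤ Z y, exp (r * Z y) + ∑ y with Z y < 0, exp (2 * r * Z y) := by
  rw [← sum_filter_add_sum_filter_not univ fun y => 0 ≤ Z y]
  simp only [not_le, ff, ← exp_mul, mul_comm _ r]
  refine add_le_add (sum_le_sum fun y _ => gg_le (exp_pos _).le) (sum_le_sum fun y _ =>
    (gg_le_sq (exp_pos _).le).trans_eq ?_)
  rw [← exp_nat_mul]
  congr 1
  push_cast
  ring

omit [DecidableEq α] in
theorem fan (hT : 4 ≤ T) (hu : ∀ i a b, u i a - u i b ≤ log T) (hS : ∀ y, S y = ∑ i, u i (y i))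
    (hl : ∀ y, 0 ≤ l y)
    (H : ∀ c r, 0 ≤ c → 1 ≤ r → ∑ y, ff r (c * l y) ≤ ∑ y, ff r (c * exp (S y)))
    {w : (Fin n → α) → ℝ} (hw : ∀ y, 0 ≤ w y ∧ w y ≤ 1) (hκ : 0 < ∑ y, w y)
    {B : Finset (Fin n → α)} {y₀ : Fin n → α} (h2 : ∀ y, y ∉ B → S y ≤ S y₀) {m M : ℝ}
    (hm : 1 ≤ m) (hB : (B.card : ℝ) = m * ∑ y, w y) (hB1 : 1 ≤ B.card) (hM1 : 1 ≤ M)
    (hM : (33 * m) ^ 2 ≤ M ^ 3) :
    ∑ y with S y - (S y₀ + log T) < 0, exp (2 * (S y - (S y₀ + log T))) ≤ 8 * B.card * T ^ 2 ∨
      ∑ y, w y * l y ≤ M * T ^ 3 * (∑ y, w y) * exp (S y₀) := by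
  have hT0 : 0 < T := by linarith only [hT]
  obtain ⟨r, hr, hR, hL⟩ := scale u hu (log_le_log (by norm_num) hT) (k := B.card)
    (fun y => S y - (S y₀ + log T)) (fun y => by rw [hS y]) (by
      rw [sum_boole, Nat.cast_le]
      refine card_le_card fun y hy => by_contra fun h => ?_
      linarith only [h2 y h, (mem_filter.1 hy).2]) (by exact_mod_cast hB1)
  have e : exp (2 * r * log T) = (T ^ 2) ^ r := by
    rw [rpow_def_of_pos (by positivity), log_pow]; congr 1; push_cast; ring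
  rw [e] at hR hL
  rcases hL with rfl | ⟨hr', hL⟩
  · left
    simpa only [sub_neg, mul_one, rpow_one] using hR
  right
  have h3 := (jen hl hw hκ (exp_pos (-(S y₀ + log T))).le hr).trans (H _ r (exp_pos _).le hr)
  simp only [← exp_add, neg_add_eq_sub] at h3
  replace h3 := h3.trans (split_le _ r)
  set κ := ∑ y, w y
  set K := ∑ y, w y * l y
  have hK : 0 ≤ K := sum_nonneg fun y _ => mul_nonneg (hw y).1 (hl y)
  set y := exp (-(S y₀ + log T)) * K / κ with hy
  have hy0 : 0 ≤ y := by positivity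
  have h4 : 1 ≤ (T ^ 2) ^ r := one_le_rpow (by nlinarith only [hT]) (by linarith only [hr'])
  have h5 : gg (y ^ r) ≤ 16 * m * (T ^ 2) ^ r := by
    refine le_of_mul_le_mul_left (h3.trans ?_) hκ
    rw [hB] at hR hL
    linarith only [hL, hR]
  have h6 : y ^ r ≤ 33 * m * (T ^ 2) ^ r := by
    nlinarith only [le_gg (rpow_nonneg hy0 r), hm, h4, h5]
  have h7 : 33 * m ≤ M ^ r := by
    refine (sq_le_sq₀ (by positivity) (by positivity)).1 (hM.trans ?_)
    rw [← rpow_natCast, ← rpow_natCast, ← rpow_mul (by linarith only [hM1])]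
    exact rpow_le_rpow_of_exponent_le hM1 (by push_cast; linarith only [hr'])
  have h8 : y ≤ M * T ^ 2 := by
    rw [← rpow_le_rpow_iff hy0 (by positivity) (show 0 < r by linarith only [hr']),
      mul_rpow (by linarith only [hM1]) (by positivity)]
    exact h6.trans (mul_le_mul_of_nonneg_right h7 (by linarith only [h4]))
  rw [hy, div_le_iff₀ hκ, exp_neg, inv_mul_le_iff₀ (exp_pos _), exp_add, exp_log hT0] at h8
  linarith only [h8]

theorem fan4 (hT : 4 ≤ T) (hu : ∀ i a b, u i a - u i b ≤ log T) (hS : ∀ y, S y = ∑ i, u i (y i))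
    (hl : ∀ y, 0 ≤ l y)
    (H : ∀ c r, 0 ≤ c → 1 ≤ r → ∑ y, ff r (c * l y) ≤ ∑ y, ff r (c * exp (S y)))
    (A : Finset (Fin n → α)) :
    ∃ B : Finset (Fin n → α), B.card ≤ A.card ∧ ∑ y ∈ A, l y ≤ ∑ y ∈ B, 18 * T ^ 3 * exp (S y) := by
  rcases A.eq_empty_or_nonempty with rfl | hA
  · exact ⟨∅, le_rfl, by simp⟩
  have hT0 : 0 < T := by linarith
  have hT1 : 0 < log T := log_pos (by linarith)
  obtain ⟨B, hB, y₀, h1, h2⟩ := exists_top S hA.card_pos (card_le_univ A)
  refine ⟨B, hB.le, ?_⟩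
  set w : (Fin n → α) → ℝ := fun y => if y ∈ A then 1 else 0 with hwd
  have hw : ∀ y, 0 ≤ w y ∧ w y ≤ 1 := fun y => by simp only [hwd]; split_ifs <;> norm_num
  have e1 : ∑ y, w y = B.card := by simp only [hwd, sum_ite_mem, univ_inter, sum_const, nsmul_eq_mul, mul_one, hB]
  have e2 : ∑ y, w y * l y = ∑ y ∈ A, l y := by simp only [hwd, ite_mul, one_mul, zero_mul, sum_ite_mem, univ_inter]
  have hk : (0 : ℝ) < B.card := by exact_mod_cast hB ▸ hA.card_pos
  have h3 : B.card * exp (S y₀) ≤ ∑ y ∈ B, exp (S y) := by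
    simpa only [nsmul_eq_mul] using card_nsmul_le_sum B _ _ fun y hy => exp_le_exp.2 (h1 y hy)
  have h4 : 0 < B.card * exp (S y₀) := by positivity
  have h5 : 64 ≤ T ^ 3 := by linarith only [pow_le_pow_left₀ (by norm_num) hT 3]
  rw [← mul_sum]
  rcases fan hT hu hS hl H hw (e1 ▸ hk) h2 le_rfl (by rw [e1, one_mul]) (hB ▸ hA.card_pos)
    (M := 11) (by norm_num) (by norm_num) with h | h
  · have h6 := (jen hl hw (e1 ▸ hk) (exp_pos (-(S y₀ + log T))).le le_rfl).trans
      (H _ 1 (exp_pos _).le le_rfl)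
    simp only [← exp_add, neg_add_eq_sub] at h6
    replace h6 := h6.trans (split_le _ 1)
    simp only [e1, e2, rpow_one, one_mul, mul_one] at h6
    have h7 : ∑ y with 0 ≤ S y - (S y₀ + log T), exp (S y - (S y₀ + log T)) ≤
        exp (-(S y₀ + log T)) * ∑ y ∈ B, exp (S y) := by
      simp only [mul_sum, ← exp_add, neg_add_eq_sub]
      refine sum_le_sum_of_subset_of_nonneg (fun y hy => by_contra fun h => ?_)
        fun _ _ _ => (exp_pos _).le
      linarith only [h2 y h, (mem_filter.1 hy).2, hT1]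
    have hK : 0 ≤ ∑ y ∈ A, l y := sum_nonneg fun y _ => hl y
    have h8 := mul_le_mul_of_nonneg_left
      (le_gg (show 0 ≤ exp (-(S y₀ + log T)) * (∑ y ∈ A, l y) / B.card by positivity)) hk.le
    rw [mul_div_cancel₀ _ hk.ne'] at h8
    have h9 : exp (-(S y₀ + log T)) * (∑ y ∈ A, l y - 2 * ∑ y ∈ B, exp (S y)) ≤
        17 * T ^ 2 * B.card := by
      have : 1 * (B.card : ℝ) ≤ T ^ 2 * B.card := mul_le_mul_of_nonneg_right (by nlinarith only [hT]) hk.le
      linarith
    rw [exp_neg, inv_mul_le_iff₀ (exp_pos _), exp_add, exp_log hT0] at h9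
    nlinarith only [h3, h4, h5, h9]
  · rw [e1, e2] at h
    nlinarith only [mul_le_mul_of_nonneg_left h3 (show 0 ≤ T ^ 3 by positivity), h4, h5, h]

theorem fan5 (hT : 4 ≤ T) (hu : ∀ i a b, u i a - u i b ≤ log T) (hS : ∀ y, S y = ∑ i, u i (y i))
    (hl : ∀ y, 0 ≤ l y) (hl1 : ∑ y, l y = 1) (hS1 : ∑ y, exp (S y) = 1)
    (H : ∀ c r, 0 ≤ c → 1 ≤ r → ∑ y, ff r (c * l y) ≤ ∑ y, ff r (c * exp (S y)))
    {w : (Fin n → α) → ℝ} (hw : ∀ y, 0 ≤ w y ∧ w y ≤ 1) {s : ℕ} {m : ℝ}
    (hs : (s : ℝ) = m * ∑ y, w y) (hm : 1089 * T ^ 9 ≤ m)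
    (hm' : ∀ y, 128 * T ^ 4 * (1 - S y) ≤ m) :
    ∃ B : Finset (Fin n → α), B.card ≤ s ∧ ∑ y, w y * l y ≤ ∑ y ∈ B, exp (S y) := by
  have hT0 : 0 < T := by linarith
  have hT1 : 0 < log T := log_pos (by linarith only [hT])
  have h9 : 1 ≤ T ^ 9 := one_le_pow₀ (by linarith)
  have hm0 : 0 < m := by linarith
  have hl2 : ∀ y, l y ≤ 1 := fun y => hl1 ▸ single_le_sum (fun y _ => hl y) (mem_univ y)
  rcases le_total (Fintype.card (Fin n → α)) s with h | h
  · exact ⟨univ, h, hS1 ▸ hl1 ▸ sum_le_sum fun y _ => mul_le_of_le_one_left (hl y) (hw y).2⟩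
  rcases Nat.eq_zero_or_pos s with rfl | hs0
  · refine ⟨∅, le_rfl, ?_⟩
    have e : ∑ y, w y = 0 := by simpa only [CharP.cast_eq_zero, mul_eq_zero, hm0.ne', false_or] using hs.symm
    rw [sum_empty, ← e]
    exact sum_le_sum fun y _ => mul_le_of_le_one_right (hw y).1 (hl2 y)
  obtain ⟨B, hB, y₀, h1, h2⟩ := exists_top S hs0 h
  refine ⟨B, hB.le, ?_⟩
  have hk : (0 : ℝ) < s := by exact_mod_cast hs0
  have hκ : 0 < ∑ y, w y := (mul_pos_iff_of_pos_left hm0).1 (hs ▸ hk)
  have h3 : s * exp (S y₀) ≤ ∑ y ∈ B, exp (S y) := by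
    simpa only [hB, nsmul_eq_mul] using card_nsmul_le_sum B _ _ fun y hy => exp_le_exp.2 (h1 y hy)
  rcases fan hT hu hS hl H hw hκ h2 (by linarith only [hm, h9]) (hB ▸ hs) (hB ▸ hs0) (M := m / T ^ 3) (by
    rw [one_le_div (by positivity)]
    linarith only [pow_le_pow_right₀ (show 1 ≤ T by linarith only [hT]) (show 3 ≤ 9 by norm_num), hm, h9]) (by
    rw [div_pow, le_div_iff₀ (by positivity)]
    linarith only [mul_le_mul_of_nonneg_left hm (sq_nonneg m)]) with h | h
  · set c := exp (-S y₀) / (32 * T ^ 4) with hc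
    have h4 : 1 ≤ T ^ 4 := one_le_pow₀ (by linarith only [hT])
    have hc0 : 0 < c := by positivity
    have h5 := H c 1 hc0.le le_rfl
    simp only [ff, rpow_one] at h5
    have h6 : c * ∑ y, w y * l y - (∑ y, w y) * (1 - S y₀) ≤ ∑ y, gg (c * l y) := by
      rw [mul_sum, sum_mul, ← sum_sub_distrib]
      refine sum_le_sum fun y _ => le_trans ?_
        (mul_le_of_le_one_left (gg_nonneg (mul_nonneg hc0.le (hl y))) (hw y).2)
      have e1 : exp (S y₀) ≤ 1 := hS1 ▸ single_le_sum (fun y _ => (exp_pos (S y)).le) (mem_univ y₀)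
      have e2 : 1 ≤ exp (-S y₀) := one_le_exp (by linarith only [exp_le_one_iff.1 e1])
      have e3 : c ≤ exp (-S y₀) := div_le_self (by linarith only [e2]) (by linarith only [h4])
      have e4 : log (1 + c * l y) ≤ 1 - S y₀ := by
        rw [log_le_iff_le_exp (by have := hl y; positivity), sub_eq_add_neg, exp_add]
        nlinarith only [add_one_le_exp (1 : ℝ), hl2 y, hc0, e2, e3]
      have := mul_le_mul_of_nonneg_left e4 (hw y).1
      simp only [gg]
      linarith only [this]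
    have h7 : ∑ y ∈ B, gg (c * exp (S y)) ≤ c * ∑ y ∈ B, exp (S y) - s * (1 / (64 * T ^ 4)) := by
      rw [mul_sum, ← hB, ← nsmul_eq_mul, ← sum_const, ← sum_sub_distrib]
      refine sum_le_sum fun y hy => sub_le_sub_left ?_ _
      have e1 : 1 / (32 * T ^ 4) ≤ c * exp (S y) := by
        rw [hc, div_mul_eq_mul_div, ← exp_add]
        exact div_le_div_of_nonneg_right (one_le_exp (by linarith only [h1 y hy])) (by positivity)
      refine le_trans ?_ (log_le_log (by positivity) (add_le_add_right e1 1))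
      have e2 := gg_le_sq (show 0 ≤ 1 / (32 * T ^ 4) by positivity)
      have e3 : 1 / (32 * T ^ 4) ≤ 1 / 2 := one_div_le_one_div_of_le (by norm_num) (by linarith only [h4])
      have e4 : 1 / (64 * T ^ 4) = 1 / (32 * T ^ 4) / 2 := by field_simp; norm_num
      have e5 : 0 ≤ 1 / (32 * T ^ 4) := by positivity
      rw [gg] at e2
      nlinarith only [e2, e3, e4, e5]
    have h8 : ∑ y ∈ Bᶜ, gg (c * exp (S y)) ≤ s * (1 / (128 * T ^ 4)) := by
      calc _ ≤ ∑ y ∈ Bᶜ, (1 / (32 * T ^ 3)) ^ 2 * exp (2 * (S y - (S y₀ + log T))) := by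
            refine sum_le_sum fun y _ => (gg_le_sq (by positivity)).trans_eq ?_
            rw [two_mul, exp_add, exp_sub, exp_add, exp_log hT0, hc, exp_neg]
            field_simp
        _ ≤ (1 / (32 * T ^ 3)) ^ 2 * (8 * B.card * T ^ 2) := by
            rw [← mul_sum]
            refine mul_le_mul_of_nonneg_left (le_trans (sum_le_sum_of_subset_of_nonneg
              (fun y hy => ?_) fun _ _ _ => (exp_pos _).le) h) (by positivity)
            exact mem_filter.2 ⟨mem_univ _, by linarith only [h2 y (mem_compl.1 hy), hT1]⟩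
        _ = _ := by rw [hB]; field_simp; norm_num
    rw [← sum_add_sum_compl B fun y => gg (c * exp (S y))] at h5
    have h10 : (∑ y, w y) * (1 - S y₀) ≤ s * (1 / (128 * T ^ 4)) := by
      rw [hs, mul_one_div, le_div_iff₀ (by positivity)]
      linarith only [mul_le_mul_of_nonneg_left (hm' y₀) hκ.le]
    have e : 1 / (64 * T ^ 4) = 2 * (1 / (128 * T ^ 4)) := by field_simp; norm_num
    rw [e] at h7
    exact le_of_mul_le_mul_left (by linarith only [h5, h6, h7, h8, h10]) hc0
  · rw [div_mul_cancel₀ _ (by positivity), ← hs] at h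
    exact h.trans h3

end Pool.Agent.MP_b746ed_mp.H14

end

-- part Norm
section
/-! Unitarily invariant norms. -/

set_option autoImplicit false
open scoped ComplexOrder Kronecker
open Matrix

namespace Pool.Agent.MP_b746ed_mp.H14

open KF (chan chan_psd chan_basis op)

lemma abel_pos {n : ℕ} (y δ : Fin n → ℝ) (hy : Antitone y) (h0 : ∀ i, 0 ≤ y i)
    (hD : ∀ k, 0 ≤ ∑ i : Fin n with i.val < k, δ i) : 0 ≤ ∑ i, y i * δ i := by
  have h := KF.abel_fin (Fin.snoc y 0 : Fin (n + 1) → ℝ) (Fin.snoc δ (-∑ i, δ i)) ?_ ?_ ?_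
  · simpa only [ge_iff_le, Fin.sum_univ_castSucc, Fin.snoc_castSucc, Fin.snoc_last, mul_neg, zero_mul, neg_zero, add_zero] using h
  · intro i j hij
    induction j using Fin.lastCases <;> induction i using Fin.lastCases
    · exact le_rfl
    · simpa only [Fin.snoc_last, Fin.snoc_castSucc] using h0 _
    · exact absurd hij (by simp)
    · simpa using hy (by simpa using hij)
  · intro k _
    have := hD k
    rw [Finset.sum_filter] at this
    rw [Finset.sum_filter, Fin.sum_univ_castSucc]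
    by_cases hk : n < k
    · simp only [Fin.val_castSucc, fun i : Fin n => i.2.trans hk, ↓ reduceIte, Fin.snoc_castSucc, Fin.val_last, hk, Fin.snoc_last, add_neg_cancel, Std.le_refl]
    · simpa only [Fin.val_castSucc, Fin.snoc_castSucc, Fin.val_last, hk, ↓ reduceIte, add_zero, ge_iff_le] using this
  · simp only [Fin.sum_univ_castSucc, Fin.snoc_castSucc, Fin.snoc_last, add_neg_cancel]

section
variable {β : Type} [Fintype β] [DecidableEq β] {N : Matrix β β ℂ → ℝ}
  (hadd : ∀ X Y, N (X + Y) ≤ N X + N Y) (hsmul : ∀ (c : ℂ) X, N (c • X) = ‖c‖ * N X)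
  (hU : ∀ X U V, U ∈ unitaryGroup β ℂ → V ∈ unitaryGroup β ℂ → N (U * X * V) = N X)
include hadd hsmul hU

/-- Ky Fan dominance -/
lemma norm_weak {l σ : β → ℝ} (hl : ∀ i, 0 ≤ l i) (hσ : ∀ i, 0 ≤ σ i)
    (H : ∀ A : Finset β, ∃ B : Finset β, B.card ≤ A.card ∧ ∑ i ∈ A, l i ≤ ∑ i ∈ B, σ i) :
    N (dg l) ≤ N (dg σ) := by
  have hr : ∀ (a : ℝ) (x : β → ℝ), N (dg (a • x)) = |a| * N (dg x) := fun a x => by
    rw [← Real.norm_eq_abs, ← Complex.norm_real, ← hsmul]
    simp [dg, ← diagonal_smul, Pi.smul_def]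
  have h0 : N (dg 0) = 0 := by simpa using hr 0 0
  have ha : ∀ x y : β → ℝ, N (dg (x + y)) ≤ N (dg x) + N (dg y) := fun x y =>
    le_of_eq_of_le (by simp [dg]) (hadd _ _)
  have hn : ∀ x : β → ℝ, 0 ≤ N (dg x) := fun x => by
    have h1 := ha x ((-1 : ℝ) • x)
    rw [hr, neg_one_smul, add_neg_cancel, h0] at h1
    norm_num only [one_mul, nonneg_add_self_iff] at h1
    linarith
  rcases eq_or_ne l 0 with rfl | hl0
  · exact h0.trans_le (hn σ)
  obtain ⟨f, hf1, hf2⟩ := exists_extension_of_le_sublinear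
    (LinearPMap.mkSpanSingleton l (N (dg l)) hl0) (fun x => N (dg x))
    (fun c hc x => by rw [hr, abs_of_pos hc]) ha (by
      rintro ⟨x, hx⟩
      obtain ⟨c, rfl⟩ := Submodule.mem_span_singleton.1 hx
      rw [LinearPMap.mkSpanSingleton'_apply, hr]
      exact mul_le_mul_of_nonneg_right (le_abs_self c) (hn l))
  have hfl : f l = N (dg l) :=
    (hf1 ⟨l, Submodule.mem_span_singleton_self l⟩).trans (LinearPMap.mkSpanSingleton_apply ..)
  set y : β → ℝ := fun i => f (Pi.single i 1) with hy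
  have hf : ∀ x : β → ℝ, f x = ∑ i, y i * x i := fun x => by
    conv_lhs => rw [← Finset.univ_sum_single x, map_sum]
    refine Finset.sum_congr rfl fun i _ => ?_
    rw [hy, mul_comm, ← smul_eq_mul, ← map_smul, ← Pi.single_smul, smul_eq_mul, mul_one]
  obtain ⟨e, he⟩ := KF.exists_sort fun i => |y i|
  obtain ⟨e', he'⟩ := KF.exists_sort σ
  have h4 := abel_pos _ (fun i => σ (e' i) - l (e i)) he (fun i => abs_nonneg _) fun k => by
    obtain ⟨B, hB, hle⟩ := H ((Finset.univ.filter fun i : Fin _ => (i : ℕ) < k).map e.toEmbedding)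
    obtain ⟨B', hB', hc⟩ := Finset.exists_superset_card_eq hB (Finset.card_le_univ _)
    rw [Finset.card_map] at hc
    have := KF.frac_le_top (σ ∘ e') (fun i => if e' i ∈ B' then 1 else 0) he'
      (fun i => by split_ifs <;> norm_num) k (by
        rw [← hc, Equiv.sum_comp e' fun b => if b ∈ B' then (1 : ℝ) else 0]; simp only [Finset.sum_ite_mem, Finset.univ_inter, Finset.sum_const, nsmul_eq_mul, mul_one])
    simp only [Function.comp_apply, Equiv.sum_comp e' fun b => if b ∈ B' then σ b else 0,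
      ite_mul, one_mul, zero_mul, Finset.sum_ite_mem, Finset.univ_inter] at this
    rw [Finset.sum_map] at hle
    rw [Finset.sum_sub_distrib, sub_nonneg]
    exact hle.trans ((Finset.sum_le_sum_of_subset_of_nonneg hB' fun i _ _ => hσ i).trans this)
  set ε : β → ℝ := fun i => if 0 ≤ y i then 1 else -1 with hε
  have h5 := hf2 fun i => ε i * σ (e.symm.trans e' i)
  have h6 : N (dg fun i => ε i * σ (e.symm.trans e' i)) = N (dg σ) := by
    have hu : dg ε ∈ unitaryGroup β ℂ := by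
      rw [mem_unitaryGroup_iff, star_eq_conjTranspose, dg_conj, dg_mul, dg, ← diagonal_one]
      congr 1
      ext i
      simp only [hε]
      split_ifs <;> simp
    rw [← dg_mul, ← Matrix.mul_one (dg ε * _), hU _ _ _ hu (one_mem _)]
    have key : ∀ (x : β → ℝ) (p : Equiv.Perm β), N (dg (x ∘ p)) ≤ N (dg x) := fun x p =>
      KF.norm_diag_le N hadd hsmul hU _ _ (Equiv.sum_comp p x) fun A =>
        ⟨fun i => if p.symm i ∈ A then 1 else 0, fun i => by dsimp only; split_ifs <;> norm_num,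
          by rw [Equiv.sum_comp p.symm fun b => if b ∈ A then (1 : ℝ) else 0]; simp only [Finset.sum_ite_mem, Finset.univ_inter, Finset.sum_const, nsmul_eq_mul, mul_one],
          by rw [← Equiv.sum_comp p]; simp⟩
    refine le_antisymm (key σ _) ?_
    simpa only [Equiv.trans_apply, Equiv.coe_trans, Function.comp_def, Equiv.symm_trans, Equiv.symm_symm, Equiv.symm_apply_apply, Equiv.apply_symm_apply] using key (σ ∘ e.symm.trans e') (e.symm.trans e').symm
  rw [h6, hf, ← Equiv.sum_comp e] at h5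
  rw [← hfl, hf, ← Equiv.sum_comp e]
  refine le_trans ?_ h5
  simp only [Function.comp_apply, mul_sub, Finset.sum_sub_distrib, sub_nonneg] at h4
  refine (Finset.sum_le_sum fun i _ => mul_le_mul_of_nonneg_right (le_abs_self _) (hl _)).trans
    (h4.trans_eq (Finset.sum_congr rfl fun i _ => ?_))
  simp only [hε, Equiv.trans_apply, Equiv.symm_apply_apply]
  split_ifs with h
  · rw [abs_of_nonneg h, one_mul]
  · rw [abs_of_neg (not_le.1 h)]; ring

end

variable {α : Type} [Fintype α] [DecidableEq α] {n : ℕ}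

lemma chan_trace [Nonempty α] (q : Fin n → ℝ) (X : Matrix (Fin n → α) (Fin n → α) ℂ) :
    (chan q X).trace = X.trace := by
  have hd : (Fintype.card α : ℂ) ≠ 0 := by exact_mod_cast Fintype.card_ne_zero
  have h : ∀ c e : Fin n → α, ∑ a : Fin n → α, ∏ i, kap (q i) (a i) (a i) (c i) (e i) =
      if c = e then 1 else 0 := fun c e => by
    have := Finset.prod_univ_sum (fun _ : Fin n => (Finset.univ : Finset α))
      fun i s => kap (q i) s s (c i) (e i)
    rw [Fintype.piFinset_univ] at this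
    rw [← this, Finset.prod_congr rfl (g := fun i => if c i = e i then 1 else 0) fun i _ => ?_]
    · simp only [Finset.prod_boole, Finset.mem_univ, forall_const, funext_iff]
    · simp only [kap, Finset.sum_add_distrib, ← Finset.mul_sum, true_and, ite_and,
        Finset.sum_ite_eq, Finset.mem_univ, if_true, eq_comm (a := e i), Finset.sum_const,
        Finset.card_univ, nsmul_eq_mul]
      split_ifs
      · push_cast; field_simp; ring
      · simp
  simp only [trace, diag_apply, chan_ker]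
  rw [Finset.sum_comm]
  refine Finset.sum_congr rfl fun c _ => ?_
  rw [Finset.sum_comm]
  simp only [← Finset.sum_mul, h, ite_mul, one_mul, zero_mul, Finset.sum_ite_eq, Finset.mem_univ, ↓ reduceIte]

lemma setup (o : α) {T : ℝ} {q : Fin n → ℝ}
    (hq : ∀ i, 0 ≤ q i ∧ q i < 1 ∧ 1 + Fintype.card α * q i / (1 - q i) ≤ T)
    {ρ : Matrix (Fin n → α) (Fin n → α) ℂ} (hρ : ρ.PosSemidef) (htr : ρ.trace = 1) :
    ∃ (u : Fin n → α → ℝ) (l S : (Fin n → α) → ℝ) (U : Matrix (Fin n → α) (Fin n → α) ℂ),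
      (∀ i a b, u i a - u i b ≤ Real.log T) ∧ (∀ y, S y = ∑ i, u i (y i)) ∧ (∀ y, 0 ≤ l y) ∧
      ∑ y, l y = 1 ∧ ∑ y, Real.exp (S y) = 1 ∧
      (∀ c r, 0 ≤ c → 1 ≤ r → ∑ y, ff r (c * l y) ≤ ∑ y, ff r (c * Real.exp (S y))) ∧
      (∀ y, -S y ≤ n * (Real.log (Fintype.card α) + Real.log T)) ∧ U ∈ unitaryGroup _ ℂ ∧
      chan q ρ = U * dg l * star U ∧ chan q (op (Pi.single (fun _ => o) 1)
        (Pi.single (fun _ => o) 1)) = dg fun y => Real.exp (S y) := by
  have : Nonempty α := ⟨o⟩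
  have hd : (0 : ℝ) < Fintype.card α := by exact_mod_cast Fintype.card_pos
  have hd1 : (1 : ℝ) ≤ Fintype.card α := by exact_mod_cast Fintype.card_pos
  have hq' : ∀ i, 0 ≤ q i ∧ q i ≤ 1 := fun i => ⟨(hq i).1, (hq i).2.1.le⟩
  obtain ⟨U, l, h1, h2, hl, hU⟩ := exists_spec (chan_psd hq' hρ)
  have hb : ∀ i, 0 < (1 - q i) / Fintype.card α := fun i => div_pos (by linarith [hq i]) hd
  have s1 : ∀ i a, (1 - q i) / Fintype.card α ≤ sig o (q i) a := fun i a =>
    le_add_of_nonneg_right (mul_nonneg (hq i).1 (by split_ifs <;> norm_num))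
  have s0 : ∀ i a, 0 < sig o (q i) a := fun i a => (hb i).trans_le (s1 i a)
  have s2 : ∀ i, (1 - q i) / Fintype.card α + q i ≤ T * ((1 - q i) / Fintype.card α) := fun i => by
    have h := mul_le_mul_of_nonneg_right (hq i).2.2 (hb i).le
    have : 1 - q i ≠ 0 := by linarith only [hq i]
    refine le_of_eq_of_le ?_ h
    field_simp
  have hT : ∀ i : Fin n, 0 < T := fun i => by nlinarith only [s2 i, hb i, hq i]
  have he : ∀ y : Fin n → α, Real.exp (∑ i, Real.log (sig o (q i) (y i))) =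
      ∏ i, sig o (q i) (y i) := fun y => by simp only [Real.exp_sum, Real.exp_log (s0 _ _)]
  have ht : ∀ (l : (Fin n → α) → ℝ) (X : Matrix (Fin n → α) (Fin n → α) ℂ), X.trace = 1 → (chan q X).trace = (dg l).trace →
      ∑ y, l y = 1 := fun l X h h' => by
    rw [chan_trace, h, dg, trace_diagonal, ← Complex.ofReal_sum] at h'
    exact_mod_cast h'.symm
  have hσ : chan q (op (Pi.single (fun _ => o) 1) (Pi.single (fun _ => o) 1)) =
      dg fun y => Real.exp (∑ i, Real.log (sig o (q i) (y i))) := by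
    simp only [chan_basis, he]
    rfl
  refine ⟨fun i a => Real.log (sig o (q i) a), l, _, U, fun i a b => ?_, fun _ => rfl, hl,
    ht l ρ htr ?_, ht _ _ ?_ (congrArg trace hσ), fun c r hc hr => ?_, fun y => ?_,
    mem_unitaryGroup_iff.2 h2, hU, hσ⟩
  · rw [sub_le_iff_le_add, ← Real.log_mul (hT i).ne' (s0 i b).ne']
    refine Real.log_le_log (s0 i a) (le_trans ?_ ((s2 i).trans
      (mul_le_mul_of_nonneg_left (s1 i b) (hT i).le)))
    exact add_le_add_right (mul_le_of_le_one_right (hq i).1 (by split_ifs <;> norm_num)) _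
  · rw [hU, trace_mul_comm, ← Matrix.mul_assoc, h1, Matrix.one_mul]
  · rw [KF.trace_op]
    simp [KF.ip_eq, Pi.single_apply]
  · have h := king o hr n q hq' ((c : ℂ) • ρ) (hρ.smul (by simpa only [Complex.zero_le_real] using hc))
    have e : (c : ℂ) • dg l = dg fun y => c * l y := by simp [dg, ← diagonal_smul, Pi.smul_def]
    rw [map_smul, hU, ← Matrix.smul_mul, ← Matrix.mul_smul, trf_conj _ h1, e, trf_dg, trace_smul,
      htr] at h
    simpa only [he, ge_iff_le, smul_eq_mul, mul_one, Complex.ofReal_re] using h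
  · rw [← Finset.sum_neg_distrib]
    refine (Finset.sum_le_card_nsmul _ _ (Real.log (Fintype.card α) + Real.log T)
      fun i _ => ?_).trans_eq (by simp only [Finset.card_univ, Fintype.card_fin, smul_add, nsmul_eq_mul, mul_add])
    rw [← Real.log_mul hd.ne' (hT i).ne', ← Real.log_inv]
    refine Real.log_le_log (inv_pos.2 (s0 _ _)) ?_
    rw [inv_le_iff_one_le_mul₀ (s0 _ _)]
    have h3 := mul_le_mul_of_nonneg_left ((s2 i).trans
      (mul_le_mul_of_nonneg_left (s1 i (y i)) (hT i).le)) hd.le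
    rw [mul_add, mul_div_cancel₀ _ hd.ne'] at h3
    nlinarith only [hq i, hd1, h3]

theorem norm4 (o : α) {T : ℝ} (hT : 4 ≤ T) {q : Fin n → ℝ}
    (hq : ∀ i, 0 ≤ q i ∧ q i < 1 ∧ 1 + Fintype.card α * q i / (1 - q i) ≤ T)
    {N : Matrix (Fin n → α) (Fin n → α) ℂ → ℝ}
    (hadd : ∀ X Y, N (X + Y) ≤ N X + N Y) (hsmul : ∀ (c : ℂ) X, N (c • X) = ‖c‖ * N X)
    (hN : ∀ X U V, U ∈ unitaryGroup _ ℂ → V ∈ unitaryGroup _ ℂ → N (U * X * V) = N X)
    {ρ : Matrix (Fin n → α) (Fin n → α) ℂ} (hρ : ρ.PosSemidef) (htr : ρ.trace = 1) :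
    N (chan q ρ) ≤ 18 * T ^ 3 *
      N (chan q (op (Pi.single (fun _ => o) 1) (Pi.single (fun _ => o) 1))) := by
  obtain ⟨u, l, S, U, hu, hS, hl, -, -, H, -, hU, h1, h2⟩ := setup o hq hρ htr
  have hc : 0 ≤ 18 * T ^ 3 := by positivity
  rw [h1, h2, hN _ _ _ hU (Unitary.star_mem hU)]
  refine (norm_weak hadd hsmul hN hl (fun _ => by positivity) (fan4 hT hu hS hl H)).trans_eq ?_
  have h := hsmul ((18 * T ^ 3 : ℝ) : ℂ) (dg fun y => Real.exp (S y))
  rw [Complex.norm_real, Real.norm_of_nonneg hc] at h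
  rw [← h]
  simp [dg, ← diagonal_smul, Pi.smul_def]

theorem norm5 (o : α) (hd : 2 ≤ Fintype.card α) (hn : 1 ≤ n) {T : ℝ} (hT : 4 ≤ T) {q : Fin n → ℝ}
    (hq : ∀ i, 0 ≤ q i ∧ q i < 1 ∧ 1 + Fintype.card α * q i / (1 - q i) ≤ T)
    {m : ℕ} (hm : 1600 * T ^ 9 * (n * Real.log (Fintype.card α)) ≤ m) (j₀ : Fin m)
    {N : Matrix ((Fin n → α) × Fin m) ((Fin n → α) × Fin m) ℂ → ℝ}
    (hadd : ∀ X Y, N (X + Y) ≤ N X + N Y) (hsmul : ∀ (c : ℂ) X, N (c • X) = ‖c‖ * N X)
    (hN : ∀ X U V, U ∈ unitaryGroup _ ℂ → V ∈ unitaryGroup _ ℂ → N (U * X * V) = N X)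
    {ρ : Matrix (Fin n → α) (Fin n → α) ℂ} (hρ : ρ.PosSemidef) (htr : ρ.trace = 1) :
    N (chan q ρ ⊗ₖ ((1 / m : ℂ) • (1 : Matrix (Fin m) (Fin m) ℂ))) ≤
      N (chan q (op (Pi.single (fun _ => o) 1) (Pi.single (fun _ => o) 1)) ⊗ₖ single j₀ j₀ 1) := by
  obtain ⟨u, l, S, U, hu, hS, hl, hl1, hS1, H, hS2, hU, h1, h2⟩ := setup o hq hρ htr
  have hm0 : (0 : ℝ) < m := by exact_mod_cast j₀.pos
  have hK : U ⊗ₖ (1 : Matrix (Fin m) (Fin m) ℂ) ∈ unitaryGroup _ ℂ := by
    rw [mem_unitaryGroup_iff, star_eq_conjTranspose, conjTranspose_kronecker, ← mul_kronecker_mul,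
      ← star_eq_conjTranspose, mem_unitaryGroup_iff.1 hU]
    simp
  have e1 : chan q ρ ⊗ₖ ((1 / m : ℂ) • (1 : Matrix (Fin m) (Fin m) ℂ)) =
      U ⊗ₖ 1 * dg (fun p => l p.1 / m) * star (U ⊗ₖ (1 : Matrix (Fin m) (Fin m) ℂ)) := by
    have e : dg (fun p : (Fin n → α) × Fin m => l p.1 / m) =
        dg l ⊗ₖ ((1 / m : ℂ) • (1 : Matrix (Fin m) (Fin m) ℂ)) := by
      rw [← diagonal_one, ← diagonal_smul, dg, dg, diagonal_kronecker_diagonal]
      simp [div_eq_mul_inv]
    rw [h1, e, star_eq_conjTranspose (U ⊗ₖ 1), conjTranspose_kronecker, ← mul_kronecker_mul,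
      ← mul_kronecker_mul]
    simp [star_eq_conjTranspose]
  have e2 : dg (fun y => Real.exp (S y)) ⊗ₖ single j₀ j₀ (1 : ℂ) =
      dg fun p : (Fin n → α) × Fin m => if p.2 = j₀ then Real.exp (S p.1) else 0 := by
    rw [← diagonal_single, dg, dg, diagonal_kronecker_diagonal]
    congr 1
    ext p
    simp only [Pi.single_apply]
    split_ifs <;> simp
  rw [e1, h2, e2, hN _ _ _ hK (Unitary.star_mem hK)]
  refine norm_weak hadd hsmul hN (fun p => div_nonneg (hl _) hm0.le)
    (fun p => by split_ifs <;> positivity) fun A => ?_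
  have hn' : (1 : ℝ) ≤ n := by exact_mod_cast hn
  have h3 : 0.69 ≤ Real.log (Fintype.card α) := le_trans (by linarith only [Real.log_two_gt_d9])
    (Real.log_le_log two_pos (by exact_mod_cast hd))
  have h4 : 0.69 * n ≤ n * Real.log (Fintype.card α) := by nlinarith only [h3]
  have h5 : 0 < T ^ 4 := by positivity
  obtain ⟨B, hB, hle⟩ := fan5 hT hu hS hl hl1 hS1 H (s := A.card) (m := m)
    (w := fun y => (∑ j, if (y, j) ∈ A then 1 else 0) / m) (fun y => ⟨by positivity, by
      rw [div_le_one hm0, Finset.sum_boole]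
      exact_mod_cast (Finset.card_le_univ _).trans_eq (Fintype.card_fin m)⟩) (by
      rw [← Finset.sum_div, mul_div_cancel₀ _ hm0.ne', ← Fintype.sum_prod_type']
      simp only [Prod.mk.eta, Finset.sum_ite_mem, Finset.univ_inter, Finset.sum_const, nsmul_eq_mul, mul_one]) (by nlinarith only [hm, hn', h4]) fun y => by
      have h6 := hS2 y
      have h7 := Real.log_le_sub_one_of_pos (show 0 < T by linarith only [hT])
      have h8 : T * 256 ≤ T ^ 5 := by
        nlinarith only [pow_le_pow_left₀ (by norm_num) hT 4, hT]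
      have h9 : 128 * (1 - S y) ≤ 1600 * T ^ 5 * (n * Real.log (Fintype.card α)) := by
        nlinarith only [hT, hn', h4, h6, h7, h8]
      linarith only [mul_le_mul_of_nonneg_left h9 h5.le, hm]
  refine ⟨B.map ⟨fun y => (y, j₀), fun _ _ h => (Prod.mk.inj h).1⟩, by rwa [Finset.card_map], ?_⟩
  rw [Finset.sum_map]
  simp only [Function.Embedding.coeFn_mk, if_true]
  refine le_of_eq_of_le ?_ hle
  rw [← Finset.univ_inter A, ← Finset.sum_ite_mem, Fintype.sum_prod_type, Finset.univ_inter]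
  refine Finset.sum_congr rfl fun y _ => ?_
  rw [div_mul_eq_mul_div, Finset.sum_mul, Finset.sum_div]
  exact Finset.sum_congr rfl fun j _ => by split_ifs <;> simp

end Pool.Agent.MP_b746ed_mp.H14

end
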