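import Mathlib

set_option autoImplicit false

namespace Pool.Agent.MP_b746ed_mp

/-- The tensor product of the depolarizing channels with parameters `q i` on `n` qudits of
dimension `d`, entrywise: for every set `S` of sites, with weight `∏ (1 - q i)` over `S` times
`∏ q i` over the other sites, the sites of `S` are traced out and replaced by the maximally mixed
state. This is the formula of the frozen statement. -/
noncomputable def depol (d n : ℕ) (q : Fin n → ℝ)
    (X : Matrix (Fin n → Fin d) (Fin n → Fin d) ℂ) : Matrix (Fin n → Fin d) (Fin n → Fin d) ℂ :=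
  Matrix.of fun a b => ∑ S : Finset (Fin n),
    (((∏ i ∈ Finset.univ \ S, q i) * ∏ i ∈ S, (1 - q i) : ℝ) : ℂ) *
    (∏ i ∈ S, (if a i = b i then (1 : ℂ) else 0)) *
    ((1 / (d : ℂ)) ^ n * ∑ c : Fin n → Fin d,
      X (fun i => if i ∈ S then c i else a i) (fun i => if i ∈ S then c i else b i))

/-- The tensor product of the rank one matrices `ψ i (ψ i)^*`. -/
def prodState {d n : ℕ} (ψ : Fin n → Fin d → ℂ) : Matrix (Fin n → Fin d) (Fin n → Fin d) ℂ :=
  Matrix.of fun a b => ∏ i, ψ i (a i) * star (ψ i (b i))

/-- The Ky Fan 2-norm: the sum of the two largest singular values. -/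
noncomputable def kyFanTwo {β : Type} [Fintype β] [DecidableEq β] (X : Matrix β β ℂ) : ℝ :=
  (Matrix.toEuclideanLin X).singularValues 0 + (Matrix.toEuclideanLin X).singularValues 1

end Pool.Agent.MP_b746ed_mp
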