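import Pool.Agent.MP_b746ed_mp.Mg.ThreeAll
import Mathlib

section PartA

/-! Contractions, the overlap lemma and the block lemma. -/

set_option autoImplicit false
set_option linter.unusedSectionVars false
open scoped ComplexOrder
open Matrix

namespace Pool.Agent.MP_b746ed_mp.KF

section Con
variable {Ω : Type} [Fintype Ω] [DecidableEq Ω]

/-- positive contractions -/
def Con (C : Matrix Ω Ω ℂ) : Prop := C.PosSemidef ∧ (1 - C).PosSemidef

omit [DecidableEq Ω] in
lemma psd_op (x : Ω → ℂ) : (op x x).PosSemidef := posSemidef_vecMulVec_self_star x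

omit [DecidableEq Ω] in
lemma tp_nonneg {C Z : Matrix Ω Ω ℂ} (hC : C.PosSemidef) (hZ : Z.PosSemidef) : 0 ≤ tp C Z := by
  obtain ⟨m, g, hg⟩ := Matrix.posSemidef_iff_eq_sum_vecMulVec.1 hZ
  have hg' : Z = ∑ r, op (g r) (g r) := hg
  rw [hg', tp_sum]
  exact Finset.sum_nonneg fun r _ => by rw [tp_op]; exact psd_re_nonneg hC _

omit [DecidableEq Ω] in
lemma tp_comm (C Z : Matrix Ω Ω ℂ) : tp C Z = tp Z C := by rw [tp, tp, trace_mul_comm]

lemma Con.tp_le {C Z : Matrix Ω Ω ℂ} (hC : Con C) (hZ : Z.PosSemidef) : tp C Z ≤ Z.trace.re := by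
  have h := tp_nonneg hC.2 hZ
  simp only [tp, sub_mul, one_mul, trace_sub, Complex.sub_re] at h ⊢
  linarith

lemma tp_le_trace {C Y : Matrix Ω Ω ℂ} (hC : C.PosSemidef) (h : (1 - Y).PosSemidef) :
    tp C Y ≤ C.trace.re := by
  have h1 := tp_nonneg hC h
  rw [tp_sub, tp_one] at h1
  linarith

lemma IsProj.con {P : Matrix Ω Ω ℂ} (hP : IsProj P) : Con P := by
  have key : ∀ Q : Matrix Ω Ω ℂ, IsProj Q → Q.PosSemidef := fun Q hQ => by
    have := posSemidef_conjTranspose_mul_self Q
    rwa [hQ.1, hQ.2] at this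
  exact ⟨key P hP, key _ hP.compl⟩

lemma Con.submatrix {Ω' : Type} [Fintype Ω'] [DecidableEq Ω'] {C : Matrix Ω Ω ℂ} (hC : Con C)
    {e : Ω' → Ω} (he : Function.Injective e) : Con (C.submatrix e e) := by
  refine ⟨hC.1.submatrix e, ?_⟩
  have := hC.2.submatrix e
  rwa [submatrix_sub, Pi.sub_apply, Pi.sub_apply, submatrix_one e he] at this

lemma gram_con {ρ η : Type} [Fintype ρ] [Fintype η] {P : Matrix Ω Ω ℂ} (hP : Con P)
    (w : ρ → Ω → ℂ) (ζ : η → ρ → ℂ) (κ : ℝ) (hκ : 0 ≤ κ)
    (H : ∀ c : ρ → ℂ, (ip (∑ r, c r • w r) (∑ r, c r • w r)).re ≤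
      (ip c c).re + κ * ∑ e, Complex.normSq (ip c (ζ e))) :
    tp P (∑ r, op (w r) (w r)) ≤ P.trace.re + κ * ∑ e, (ip (ζ e) (ζ e)).re := by
  have hW : (∑ r, op (w r) (w r)).IsHermitian := by
    simp only [IsHermitian, conjTranspose_sum, op_conjTranspose]
  obtain ⟨b, l, hb, hb1, hWb, hl⟩ := spectral_op hW
  set Q : Matrix Ω Ω ℂ := ∑ k with 1 < l k, op (b k) (b k) with hQ
  have hQp : IsProj Q := by
    refine ⟨by simp only [hQ, conjTranspose_sum, op_conjTranspose], ?_⟩
    rw [hQ, Finset.sum_mul_sum]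
    refine Finset.sum_congr rfl fun k hk => ?_
    simp only [op_mul_op, hb, ite_smul, one_smul, zero_smul, Finset.sum_ite_eq, if_pos hk]
  have h := gram_transfer hQp w ζ κ hκ H
  have h5 : ∀ R : Matrix Ω Ω ℂ, tp R (∑ r, op (w r) (w r)) - R.trace.re =
      ∑ k, (l k - 1) * tp R (op (b k) (b k)) := by
    intro R
    rw [← tp_one, ← hb1, hWb, tp_sum, tp_sum, ← Finset.sum_sub_distrib]
    refine Finset.sum_congr rfl fun k _ => ?_
    rw [tp_smul]; ring
  have h6 : ∑ k, (l k - 1) * tp P (op (b k) (b k)) ≤ ∑ k, (l k - 1) * tp Q (op (b k) (b k)) := by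
    refine Finset.sum_le_sum fun k _ => ?_
    have a0 := tp_nonneg hP.1 (psd_op (b k))
    have a1 := hP.tp_le (psd_op (b k))
    rw [trace_op, hb, if_pos rfl, Complex.one_re] at a1
    have a2 : tp Q (op (b k) (b k)) = if 1 < l k then 1 else 0 := by
      rw [tp_comm, hQ, tp_sum]
      simp only [tp_op, op_mulVec, ip_smul_right, hb]
      rw [Finset.sum_filter, Finset.sum_eq_single k]
      · simp
      · intro j _ hj
        simp [hj, hj.symm]
      · simp
    rw [a2]
    split_ifs with h <;> nlinarith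
  linarith [h5 P, h5 Q]

end Con

section Block
variable {R α β : Type} [Fintype R] [DecidableEq R] [Fintype α] [DecidableEq α] [Fintype β]
  [DecidableEq β]

/-- `X` tensor the identity on the middle factor -/
def exm (α : Type) [DecidableEq α] (X : Matrix (R × β) (R × β) ℂ) :
    Matrix ((R × α) × β) ((R × α) × β) ℂ :=
  Matrix.of fun x y => if x.1.2 = y.1.2 then X (x.1.1, x.2) (y.1.1, y.2) else 0

/-- partial trace over the middle factor -/
def trm (P : Matrix ((R × α) × β) ((R × α) × β) ℂ) : Matrix (R × β) (R × β) ℂ :=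
  Matrix.of fun x y => ∑ a, P ((x.1, a), x.2) ((y.1, a), y.2)

/-- `σ` tensor the identity on the right factor -/
def exr (β : Type) [DecidableEq β] (σ : Matrix R R ℂ) : Matrix (R × β) (R × β) ℂ :=
  Matrix.of fun x y => if x.2 = y.2 then σ x.1 y.1 else 0

omit [DecidableEq R] [DecidableEq β] in
lemma tp_exm (P : Matrix ((R × α) × β) ((R × α) × β) ℂ) (X : Matrix (R × β) (R × β) ℂ) :
    tp P (exm α X) = tp (trm P) X := by
  unfold tp
  congr 1
  simp only [trace, diag_apply, Matrix.mul_apply, exm, trm, of_apply, Fintype.sum_prod_type,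
    mul_ite, mul_zero, Finset.sum_mul]
  refine Finset.sum_congr rfl fun r _ => ?_
  rw [Finset.sum_comm]
  refine Finset.sum_congr rfl fun b _ => ?_
  rw [Finset.sum_comm]
  refine Finset.sum_congr rfl fun r' _ => ?_
  simp only [Finset.sum_ite_irrel, Finset.sum_const_zero, Finset.sum_ite_eq', Finset.mem_univ,
    if_true]
  rw [Finset.sum_comm]

omit [DecidableEq R] [DecidableEq β] [DecidableEq α] in
lemma trace_trm (P : Matrix ((R × α) × β) ((R × α) × β) ℂ) : (trm P).trace = P.trace := by
  simp only [trace, diag_apply, trm, of_apply, Fintype.sum_prod_type]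
  refine Finset.sum_congr rfl fun r _ => ?_
  rw [Finset.sum_comm]

omit [DecidableEq R] [DecidableEq β] [DecidableEq α] [Fintype R] [Fintype β] in
lemma trm_eq (P : Matrix ((R × α) × β) ((R × α) × β) ℂ) :
    trm P = ∑ a, P.submatrix (fun x : R × β => ((x.1, a), x.2)) (fun x => ((x.1, a), x.2)) := by
  ext x y
  simp [trm, Matrix.sum_apply]

omit [DecidableEq R] [DecidableEq β] [DecidableEq α] in
lemma trm_psd {P : Matrix ((R × α) × β) ((R × α) × β) ℂ} (hP : P.PosSemidef) :
    (trm P).PosSemidef := by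
  rw [trm_eq]
  exact posSemidef_sum _ fun a _ => hP.submatrix _

lemma trm_le {P : Matrix ((R × α) × β) ((R × α) × β) ℂ} (hP : Con P) :
    (((Fintype.card α : ℝ) : ℂ) • (1 : Matrix (R × β) (R × β) ℂ) - trm P).PosSemidef := by
  have : ((Fintype.card α : ℝ) : ℂ) • (1 : Matrix (R × β) (R × β) ℂ) - trm P =
      ∑ a : α, (1 - P.submatrix (fun x : R × β => ((x.1, a), x.2)) (fun x => ((x.1, a), x.2))) := by
    rw [Finset.sum_sub_distrib, ← trm_eq, Finset.sum_const, Finset.card_univ,
      Complex.ofReal_natCast, Nat.cast_smul_eq_nsmul]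
  rw [this]
  refine posSemidef_sum _ fun a _ => (hP.submatrix fun x y h => ?_).2
  simp only [Prod.mk.injEq, and_true] at h
  exact Prod.ext h.1 h.2

omit [DecidableEq R] in
lemma exr_op (φ : R → ℂ) : exr β (op φ φ) = ∑ b : β,
    op (fun x : R × β => if x.2 = b then φ x.1 else 0) (fun x => if x.2 = b then φ x.1 else 0) := by
  ext x y
  simp only [exr, of_apply, op_apply, Matrix.sum_apply, ite_mul, zero_mul, Finset.sum_ite_eq,
    Finset.mem_univ, if_true]
  by_cases h : x.2 = y.2
  · simp [h]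
  · simp [h, Ne.symm h]

omit [DecidableEq R] [DecidableEq β] in
lemma exm_op (χ : R × β → ℂ) : exm α (op χ χ) = ∑ a : α,
    op (fun x : (R × α) × β => if x.1.2 = a then χ (x.1.1, x.2) else 0)
      (fun x => if x.1.2 = a then χ (x.1.1, x.2) else 0) := by
  ext x y
  simp only [exm, of_apply, op_apply, Matrix.sum_apply, ite_mul, zero_mul, Finset.sum_ite_eq,
    Finset.mem_univ, if_true]
  by_cases h : x.1.2 = y.1.2
  · simp [h]
  · simp [h, Ne.symm h]

omit [DecidableEq R] [DecidableEq β] [Fintype R] [Fintype α] [Fintype β] in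
lemma exm_sum {J : Type} (s : Finset J) (X : J → Matrix (R × β) (R × β) ℂ) :
    exm α (∑ j ∈ s, X j) = ∑ j ∈ s, exm α (X j) := by
  ext x y
  simp only [exm, of_apply, Matrix.sum_apply]
  split_ifs <;> simp

omit [DecidableEq R] [Fintype R] [Fintype β] in
lemma exr_sum {J : Type} (s : Finset J) (X : J → Matrix R R ℂ) :
    exr β (∑ j ∈ s, X j) = ∑ j ∈ s, exr β (X j) := by
  ext x y
  simp only [exr, of_apply, Matrix.sum_apply]
  split_ifs <;> simp

/-- the overlap lemma for a pure state -/
lemma overlap_pure {J : Type} [Fintype J] [DecidableEq J] {P : Matrix ((R × α) × β) ((R × α) × β) ℂ}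
    (hP : Con P) (φ : R × α → ℂ) (hφ : ip φ φ = 1) (χ : J → R × β → ℂ)
    (hχ : ∀ j j', ip (χ j) (χ j') = if j = j' then 1 else 0) :
    tp P (exr β (op φ φ)) + tp P (exm α (∑ j, op (χ j) (χ j))) ≤ P.trace.re + Fintype.card J := by
  have h := gram_con hP (ρ := β ⊕ (J × α)) (η := J × R)
    (Sum.elim (fun b x => if x.2 = b then φ x.1 else 0)
      (fun ja x => if x.1.2 = ja.2 then χ ja.1 (x.1.1, x.2) else 0))
    (fun e => Sum.elim (fun b => χ e.1 (e.2, b)) (fun ja => if ja.1 = e.1 then φ (e.2, ja.2) else 0))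
    (1 / 2) (by norm_num) fun c => ?_
  · rw [Fintype.sum_sum_type, tp_add] at h
    simp only [Sum.elim_inl, Sum.elim_inr] at h
    rw [← exr_op, Fintype.sum_prod_type] at h
    simp only [← exm_op] at h
    rw [← exm_sum] at h
    have h1 : ∀ j, ∑ r, ∑ b, ‖χ j (r, b)‖ ^ 2 = 1 := fun j => by
      have := congrArg Complex.re (hχ j j)
      rwa [ip_self_re, Fintype.sum_prod_type, if_pos rfl, Complex.one_re] at this
    have h2 : ∑ r, ∑ a, ‖φ (r, a)‖ ^ 2 = 1 := by
      have := congrArg Complex.re hφ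
      rwa [ip_self_re, Fintype.sum_prod_type, Complex.one_re] at this
    have h3 : ∑ e : J × R, (ip (Sum.elim (fun b => χ e.1 (e.2, b))
        (fun ja : J × α => if ja.1 = e.1 then φ (e.2, ja.2) else 0))
        (Sum.elim (fun b => χ e.1 (e.2, b))
        (fun ja : J × α => if ja.1 = e.1 then φ (e.2, ja.2) else 0))).re = 2 * Fintype.card J := by
      simp only [ip_self_re, Fintype.sum_sum_type, Sum.elim_inl, Sum.elim_inr,
        Fintype.sum_prod_type, Finset.sum_add_distrib, apply_ite norm, norm_zero, ite_pow]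
      simp [h1, h2]
      ring
    rw [h3] at h
    linarith
  set y : β → ℂ := fun b => c (Sum.inl b) with hy
  set x : J × α → ℂ := fun ja => c (Sum.inr ja) with hx
  set u : (R × α) × β → ℂ := fun z => φ z.1 * y z.2 with hu
  set v : (R × α) × β → ℂ := fun z => ∑ j, x (j, z.1.2) * χ j (z.1.1, z.2) with hv
  set F : J × R → ℂ := fun e => ∑ a, star (x (e.1, a)) * φ (e.2, a) with hF
  set G : J × R → ℂ := fun e => ∑ b, star (y b) * χ e.1 (e.2, b) with hG
  have e0 : ∑ r, c r • Sum.elim (fun b (x : (R × α) × β) => if x.2 = b then φ x.1 else 0)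
      (fun (ja : J × α) x => if x.1.2 = ja.2 then χ ja.1 (x.1.1, x.2) else 0) r = u + v := by
    funext z
    simp [Fintype.sum_sum_type, Fintype.sum_prod_type, hu, hv, hx, hy, Finset.sum_apply, mul_comm]
  have e1 : ip u v = ip F G := by
    simp only [ip_eq, hu, hv, hF, hG, Fintype.sum_prod_type, star_sum, star_mul', star_star,
      Finset.mul_sum, Finset.sum_mul]
    rw [Finset.sum_comm (s := (Finset.univ : Finset J))]
    refine Finset.sum_congr rfl fun r _ => ?_
    rw [Finset.sum_comm (s := (Finset.univ : Finset J))]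
    rw [Finset.sum_comm (s := (Finset.univ : Finset α))]
    refine Finset.sum_congr rfl fun b _ => ?_
    rw [Finset.sum_comm (s := (Finset.univ : Finset J))]
    refine Finset.sum_congr rfl fun a _ => Finset.sum_congr rfl fun j _ => ?_
    ring
  have e2 : ∑ e : J × R, Complex.normSq (ip c (Sum.elim (fun b => χ e.1 (e.2, b))
      (fun ja : J × α => if ja.1 = e.1 then φ (e.2, ja.2) else 0))) = (ip (F + G) (F + G)).re := by
    rw [ip_self_re]
    refine Finset.sum_congr rfl fun e _ => ?_
    rw [Complex.normSq_eq_norm_sq]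
    congr 2
    simp [hF, hG, hx, hy, ip_eq, Fintype.sum_sum_type, Fintype.sum_prod_type, add_comm]
  have e3 : (ip c c).re = (ip y y).re + (ip x x).re := by
    simp only [ip_self_re, Fintype.sum_sum_type, hx, hy]
  have e4 : ip u u = ip y y := by
    have : ip u u = ip φ φ * ip y y := by
      simp only [ip_eq, hu, Finset.sum_mul_sum, star_mul']
      rw [Fintype.sum_prod_type]
      refine Finset.sum_congr rfl fun z _ => Finset.sum_congr rfl fun b _ => ?_
      ring
    rw [this, hφ, one_mul]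
  have e5 : ip v v = ip x x := by
    have : ip v v = ∑ a, ∑ j, ∑ j', star (x (j, a)) * x (j', a) * ip (χ j) (χ j') := by
      simp only [ip_eq, hv, Fintype.sum_prod_type, star_sum, star_mul', Finset.mul_sum,
        Finset.sum_mul]
      rw [Finset.sum_comm]
      refine Finset.sum_congr rfl fun a _ => ?_
      have : ∀ f : R → β → J → J → ℂ, ∑ r, ∑ b, ∑ j', ∑ j, f r b j j' =
          ∑ j, ∑ j', ∑ r, ∑ b, f r b j j' := by
        intro f
        calc _ = ∑ p : R × β, ∑ j', ∑ j, f p.1 p.2 j j' := by rw [Fintype.sum_prod_type]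
          _ = ∑ j', ∑ p : R × β, ∑ j, f p.1 p.2 j j' := Finset.sum_comm
          _ = ∑ j', ∑ j, ∑ p : R × β, f p.1 p.2 j j' :=
            Finset.sum_congr rfl fun _ _ => Finset.sum_comm
          _ = ∑ j, ∑ j', ∑ p : R × β, f p.1 p.2 j j' := Finset.sum_comm
          _ = _ := by simp only [Fintype.sum_prod_type]
      rw [this]
      refine Finset.sum_congr rfl fun j _ => Finset.sum_congr rfl fun j' _ =>
        Finset.sum_congr rfl fun r _ => Finset.sum_congr rfl fun b _ => ?_
      ring
    rw [this, ip_eq, Fintype.sum_prod_type, Finset.sum_comm]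
    simp [hχ]
  have h3 := ip_self_re_nonneg (F - G)
  have h4 : (ip G F).re = (ip F G).re := by rw [← star_ip, Complex.star_def, Complex.conj_re]
  have h5 : (ip v u).re = (ip F G).re := by rw [← star_ip, e1, Complex.star_def, Complex.conj_re]
  rw [e0, e2, e3]
  simp only [ip_add_left, ip_add_right, ip_sub_left, ip_sub_right, Complex.add_re,
    Complex.sub_re, e1, e4, e5] at h3 ⊢
  linarith

omit [Fintype R] [DecidableEq R] [Fintype β] in
lemma exr_smul (c : ℂ) (X : Matrix R R ℂ) : exr β (c • X) = c • exr β X := by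
  ext x y
  simp [exr]

/-- states -/
def St {Ω : Type} [Fintype Ω] (ρ : Matrix Ω Ω ℂ) : Prop := ρ.PosSemidef ∧ ρ.trace = 1

omit [DecidableEq R] in
lemma St.le_of_pure {σ : Matrix R R ℂ} (hσ : St σ) {Ω : Type} [Fintype Ω] (P : Matrix Ω Ω ℂ)
    (E : Matrix R R ℂ →ₗ[ℂ] Matrix Ω Ω ℂ) (C : ℝ)
    (h : ∀ φ, ip φ φ = 1 → tp P (E (op φ φ)) ≤ C) : tp P (E σ) ≤ C := by
  obtain ⟨m, g, hg⟩ := Matrix.posSemidef_iff_eq_sum_vecMulVec.1 hσ.1
  have hg' : σ = ∑ r, op (g r) (g r) := hg
  have h1 : ∑ r, (ip (g r) (g r)).re = 1 := by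
    have htr := hσ.2
    rw [hg', trace_sum] at htr
    rw [← Complex.re_sum, ← Complex.one_re, ← htr]
    simp only [trace_op]
  rw [hg', map_sum, tp_sum]
  refine avg_le (fun φ => tp P (E (op φ φ))) (fun s φ => ?_) C h g h1
  simp only [op_smul_left, op_smul_right, smul_smul, map_smul, Complex.star_def,
    Complex.conj_ofReal, ← Complex.ofReal_mul, tp_smul, sq]

/-- `exr` as a linear map -/
def exrL (R β : Type) [DecidableEq β] : Matrix R R ℂ →ₗ[ℂ] Matrix (R × β) (R × β) ℂ where
  toFun := exr β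
  map_add' X Y := by
    ext x y
    simp only [exr, of_apply, Matrix.add_apply]
    split_ifs <;> simp
  map_smul' c X := exr_smul c X

lemma overlap {J : Type} [Fintype J] [DecidableEq J] {P : Matrix ((R × α) × β) ((R × α) × β) ℂ}
    (hP : Con P) {σ : Matrix (R × α) (R × α) ℂ} (hσ : St σ) (χ : J → R × β → ℂ)
    (hχ : ∀ j j', ip (χ j) (χ j') = if j = j' then 1 else 0) :
    tp P (exr β σ) + tp P (exm α (∑ j, op (χ j) (χ j))) ≤ P.trace.re + Fintype.card J := by
  have := hσ.le_of_pure P (exrL (R × α) β)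
    (P.trace.re + Fintype.card J - tp P (exm α (∑ j, op (χ j) (χ j)))) fun φ hφ => by
      have := overlap_pure hP φ hφ χ hχ
      change tp P (exr β (op φ φ)) ≤ _
      linarith
  change tp P (exr β σ) ≤ _ at this
  linarith

omit [DecidableEq R] in
lemma exr_psd {σ : Matrix R R ℂ} (hσ : σ.PosSemidef) : (exr β σ).PosSemidef := by
  obtain ⟨m, g, hg⟩ := Matrix.posSemidef_iff_eq_sum_vecMulVec.1 hσ
  have hg' : σ = ∑ r, op (g r) (g r) := hg
  rw [hg', exr_sum]
  refine posSemidef_sum _ fun r _ => ?_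
  rw [exr_op]
  exact posSemidef_sum _ fun b _ => psd_op _

omit [DecidableEq R] in
lemma trace_exr (σ : Matrix R R ℂ) : (exr β σ).trace = Fintype.card β * σ.trace := by
  simp [trace, exr, Fintype.sum_prod_type, Finset.mul_sum]

lemma St.con {σ : Matrix R R ℂ} (hσ : St σ) : Con σ := by
  refine ⟨hσ.1, ?_⟩
  obtain ⟨b, l, hb, hb1, hW, hl⟩ := spectral_op hσ.1.isHermitian
  have h0 : ∀ k, 0 ≤ l k := fun k => by
    have := psd_re_nonneg hσ.1 (b k)
    rwa [hl, ip_smul_right, hb, if_pos rfl, mul_one, Complex.ofReal_re] at this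
  have h1 : ∑ k, l k = 1 := by
    have := congrArg Complex.re hσ.2
    rw [hW, trace_sum, Complex.re_sum] at this
    simpa [trace_op, hb, -Complex.coe_smul] using this
  have : 1 - σ = ∑ k, ((1 - l k : ℝ) : ℂ) • op (b k) (b k) := by
    conv_lhs => rw [← hb1, hW, ← Finset.sum_sub_distrib]
    refine Finset.sum_congr rfl fun k _ => ?_
    push_cast
    rw [sub_smul, one_smul]
  rw [this]
  refine posSemidef_sum _ fun k _ => (psd_op _).smul ?_
  have : l k ≤ 1 := h1 ▸ Finset.single_le_sum (fun j _ => h0 j) (Finset.mem_univ k)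
  exact_mod_cast sub_nonneg.2 this

lemma tp_exr_le {σ : Matrix R R ℂ} (hσ : St σ) {P : Matrix (R × β) (R × β) ℂ} (hP : Con P) :
    tp P (exr β σ) ≤ min P.trace.re (Fintype.card β) := by
  refine le_min (tp_le_trace hP.1 ?_) ?_
  · have : 1 - exr β σ = exr β (1 - σ) := by
      ext x y
      simp only [exr, Matrix.sub_apply, of_apply, one_apply, Prod.ext_iff]
      by_cases h : x.2 = y.2 <;> simp [h]
    rw [this]
    exact exr_psd hσ.con.2
  · have := hP.tp_le (exr_psd (β := β) hσ.1)
    rwa [trace_exr, hσ.2, mul_one, Complex.natCast_re] at this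

lemma con_spec {Ω : Type} [Fintype Ω] [DecidableEq Ω] (b : Ω → Ω → ℂ)
    (hb1 : ∑ k, op (b k) (b k) = 1) (f : Ω → ℝ) (h0 : ∀ k, 0 ≤ f k) (h1 : ∀ k, f k ≤ 1) :
    Con (∑ k, (f k : ℂ) • op (b k) (b k)) := by
  refine ⟨posSemidef_sum _ fun k _ => (psd_op _).smul (by exact_mod_cast h0 k), ?_⟩
  have : 1 - ∑ k, (f k : ℂ) • op (b k) (b k) = ∑ k, ((1 - f k : ℝ) : ℂ) • op (b k) (b k) := by
    conv_lhs => rw [← hb1, ← Finset.sum_sub_distrib]
    refine Finset.sum_congr rfl fun k _ => ?_
    push_cast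
    rw [sub_smul, one_smul]
  rw [this]
  exact posSemidef_sum _ fun k _ => (psd_op _).smul (by exact_mod_cast sub_nonneg.2 (h1 k))

/-- the block lemma -/
theorem block (hd : 2 ≤ Fintype.card α) {X : Matrix (R × β) (R × β) ℂ} {g : ℝ → ℝ}
    (hX : ∀ C, Con C → ∀ t, 0 ≤ t → tp C X ≤ t * C.trace.re + g t)
    {P : Matrix ((R × α) × β) ((R × α) × β) ℂ} (hP : Con P) {σ : Matrix (R × α) (R × α) ℂ}
    (hσ : St σ) {γ c : ℝ} (hγ : 0 ≤ γ) (hc : γ ≤ c) :
    tp P (exm α X) + γ * tp P (exr β σ) ≤
      c * P.trace.re + g (c - γ) + (Fintype.card α - 1) * g c := by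
  have hd' : (1 : ℝ) ≤ (Fintype.card α : ℝ) - 1 := by
    have : (2 : ℝ) ≤ Fintype.card α := by exact_mod_cast hd
    linarith
  set D : ℝ := (Fintype.card α : ℝ) - 1 with hD
  obtain ⟨b, l, hb, hb1, hW, hl⟩ := spectral_op (trm_psd hP.1).isHermitian
  have h0 : ∀ k, 0 ≤ l k := fun k => by
    have := psd_re_nonneg (trm_psd hP.1) (b k)
    rwa [hl, ip_smul_right, hb, if_pos rfl, mul_one, Complex.ofReal_re] at this
  have h1 : ∀ k, l k ≤ D + 1 := fun k => by
    have := psd_re_nonneg (trm_le hP) (b k)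
    rw [sub_mulVec, hl, smul_mulVec, one_mulVec, ip_sub_right, ip_smul_right, ip_smul_right, hb,
      if_pos rfl, mul_one, mul_one, Complex.sub_re, Complex.ofReal_re, Complex.ofReal_re] at this
    linarith
  have tr : ∀ f : R × β → ℝ, (∑ k, (f k : ℂ) • op (b k) (b k)).trace.re = ∑ k, f k := fun f => by
    simp [trace_sum, trace_op, hb, -Complex.coe_smul]
  have tx : ∀ f : R × β → ℝ, tp (∑ k, (f k : ℂ) • op (b k) (b k)) X =
      ∑ k, f k * tp X (op (b k) (b k)) := fun f => by
    rw [tp_comm, tp_sum]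
    simp only [tp_smul]
  have a1 := hX _ (con_spec b hb1 (fun k => min (l k) 1) (fun k => le_min (h0 k) zero_le_one)
    fun k => min_le_right _ _) (c - γ) (by linarith)
  have a2 := hX _ (con_spec b hb1 (fun k => max (l k - 1) 0 / D)
    (fun k => div_nonneg (le_max_right _ _) (by linarith))
    fun k => (div_le_one (by linarith)).2 (max_le (by linarith [h1 k]) (by linarith))) c
    (by linarith)
  rw [tr, tx] at a1 a2
  have a3 := overlap hP hσ (J := {k // 1 < l k}) (fun k => b k.1) fun j j' => by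
    rw [hb]; simp [Subtype.ext_iff]
  have a4 : tp P (exm α (∑ j : {k // 1 < l k}, op (b j.1) (b j.1))) - Fintype.card {k // 1 < l k} =
      ∑ k, max (l k - 1) 0 := by
    rw [tp_exm, tp_sum, Fintype.card_eq_sum_ones, Nat.cast_sum, ← Finset.sum_sub_distrib]
    simp only [tp_op, hl, ip_smul_right, hb, if_true, mul_one, Complex.ofReal_re, Nat.cast_one]
    rw [← Finset.sum_subtype (Finset.univ.filter fun k => 1 < l k) (by simp)
      (fun k => l k - 1), Finset.sum_filter]
    refine Finset.sum_congr rfl fun k _ => ?_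
    split_ifs with h
    · rw [max_eq_left (by linarith)]
    · rw [max_eq_right (by linarith)]
  have a5 : P.trace.re = ∑ k, l k := by rw [← trace_trm, hW, tr]
  have a6 : tp P (exm α X) = ∑ k, l k * tp X (op (b k) (b k)) := by rw [tp_exm, hW, tx]
  have a7 : ∀ k, l k = min (l k) 1 + max (l k - 1) 0 := fun k => by
    rcases le_total (l k) 1 with h | h
    · rw [min_eq_left h, max_eq_right (by linarith), add_zero]
    · rw [min_eq_right h, max_eq_left (by linarith)]; ring
  have a8 : ∑ k, l k = ∑ k, min (l k) 1 + ∑ k, max (l k - 1) 0 := by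
    rw [← Finset.sum_add_distrib]; exact Finset.sum_congr rfl fun k _ => a7 k
  have a9 : ∑ k, l k * tp X (op (b k) (b k)) = ∑ k, min (l k) 1 * tp X (op (b k) (b k)) +
      D * ∑ k, max (l k - 1) 0 / D * tp X (op (b k) (b k)) := by
    rw [Finset.mul_sum, ← Finset.sum_add_distrib]
    refine Finset.sum_congr rfl fun k _ => ?_
    conv_lhs => rw [a7 k]
    field_simp
  have a10 : D * ∑ k, max (l k - 1) 0 / D = ∑ k, max (l k - 1) 0 := by
    rw [Finset.mul_sum]
    refine Finset.sum_congr rfl fun k _ => ?_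
    field_simp
  have a11 := mul_le_mul_of_nonneg_left a2 (show 0 ≤ D by linarith)
  have a12 : tp P (exr β σ) ≤ ∑ k, min (l k) 1 := by linarith
  have a13 := mul_le_mul_of_nonneg_left a12 hγ
  rw [mul_add, ← mul_assoc, mul_comm D c, mul_assoc, a10] at a11
  rw [a6, a9, a5, a8]
  nlinarith

end Block

end Pool.Agent.MP_b746ed_mp.KF

end PartA

section PartB

/-! Kernels, amplification by a reference system, and the dominant site step. -/

set_option autoImplicit false
set_option linter.unusedSectionVars false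
open scoped ComplexOrder
open Matrix

namespace Pool.Agent.MP_b746ed_mp.KF

/-- Kronecker delta -/
def dl {β : Type} [DecidableEq β] (a b : β) : ℂ := if a = b then 1 else 0

section Step
variable {R α β β' : Type} [Fintype R] [DecidableEq R] [Fintype α] [DecidableEq α] [Fintype β]
  [DecidableEq β] [Fintype β'] [DecidableEq β']

/-- the map with kernel `κ` applied to the right factor -/
def amp (κ : β → β → β → β → ℂ) (ρ : Matrix (R × β) (R × β) ℂ) : Matrix (R × β) (R × β) ℂ :=
  Matrix.of fun z w => ∑ x, ∑ y, ρ (z.1, x) (w.1, y) * κ z.2 w.2 x y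

/-- partial trace over the right factor -/
def trr (ρ : Matrix (R × β) (R × β) ℂ) : Matrix R R ℂ := Matrix.of fun x y => ∑ b, ρ (x, b) (y, b)

/-- the threshold form of weak majorization by `u`, with any reference system -/
def Good (κ : β → β → β → β → ℂ) (u : β → ℝ) : Prop :=
  ∀ (R : Type) [Fintype R] [DecidableEq R] (ρ : Matrix (R × β) (R × β) ℂ), St ρ →
    ∀ C, Con C → ∀ t, 0 ≤ t → tp C (amp κ ρ) ≤ t * C.trace.re + ∑ b, max (u b - t) 0

lemma trace_sub_equiv (e : β' ≃ β) (X : Matrix β β ℂ) : (X.submatrix e e).trace = X.trace :=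
  Equiv.sum_comp e fun i => X i i

lemma tp_sub_equiv (e : β' ≃ β) (C X : Matrix β β ℂ) :
    tp (C.submatrix e e) (X.submatrix e e) = tp C X := by
  rw [tp, tp, submatrix_mul_equiv, trace_sub_equiv]

lemma St.sub_equiv (e : β' ≃ β) {X : Matrix β β ℂ} (h : St X) : St (X.submatrix e e) :=
  ⟨h.1.submatrix e, by rw [trace_sub_equiv, h.2]⟩

lemma St.trm {ρ : Matrix ((R × α) × β) ((R × α) × β) ℂ} (h : St ρ) : St (trm ρ) :=
  ⟨trm_psd h.1, by rw [trace_trm, h.2]⟩

lemma St.trr {ρ : Matrix (R × β) (R × β) ℂ} (h : St ρ) : St (trr ρ) := by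
  constructor
  · have : KF.trr ρ = ∑ b, ρ.submatrix (fun x : R => (x, b)) (fun x => (x, b)) := by
      ext x y
      simp [KF.trr, Matrix.sum_apply]
    rw [this]
    exact posSemidef_sum _ fun b _ => h.1.submatrix _
  · rw [← h.2]
    simp [trace, KF.trr, Fintype.sum_prod_type]

lemma amp_dl (ρ : Matrix (R × β) (R × β) ℂ) :
    amp (fun a b x y => dl a b * dl x y) ρ = exr β (trr ρ) := by
  ext z w
  simp only [amp, exr, trr, of_apply, dl]
  split_ifs <;> simp

lemma amp_add (κ κ' : β → β → β → β → ℂ) (ρ : Matrix (R × β) (R × β) ℂ) :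
    amp (fun a b x y => κ a b x y + κ' a b x y) ρ = amp κ ρ + amp κ' ρ := by
  ext z w
  simp [amp, mul_add, Finset.sum_add_distrib]

lemma amp_step (f : β' ≃ α × β) (κ : β → β → β → β → ℂ) (κ' : β' → β' → β' → β' → ℂ) (r : ℝ)
    (hκ : ∀ z w x y, κ' z w x y =
      dl (f z).1 (f w).1 * dl (f x).1 (f y).1 * κ (f z).2 (f w).2 (f x).2 (f y).2 +
      r * (dl (f z).1 (f x).1 * dl (f w).1 (f y).1) *
        (dl (f z).2 (f w).2 * dl (f x).2 (f y).2 + κ (f z).2 (f w).2 (f x).2 (f y).2))
    (ρ : Matrix (R × β') (R × β') ℂ) (e : (R × α) × β ≃ R × β')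
    (he : ∀ z, e z = (z.1.1, f.symm (z.1.2, z.2))) :
    (amp κ' ρ).submatrix e e = exm α (amp κ (trm (ρ.submatrix e e))) +
      (r : ℂ) • (exr β (trr (ρ.submatrix e e)) + amp κ (ρ.submatrix e e)) := by
  rw [← amp_dl, ← amp_add]
  ext z w
  simp only [submatrix_apply, amp, of_apply, he, Matrix.add_apply, Matrix.smul_apply, exm, trm,
    smul_eq_mul]
  rw [← Equiv.sum_comp f.symm]
  simp only [← Equiv.sum_comp f.symm (fun y => ρ _ (_, y) * _), hκ, Equiv.apply_symm_apply,
    Fintype.sum_prod_type, mul_add (ρ _ _), Finset.sum_add_distrib]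
  congr 1
  · split_ifs with h
    · simp only [dl, if_pos h, one_mul, ite_mul, zero_mul, mul_ite, mul_zero, Finset.sum_mul]
      simp only [Finset.sum_ite_irrel, Finset.sum_const_zero, Finset.sum_ite_eq, Finset.mem_univ,
        if_true]
      rw [Finset.sum_comm]
      refine Finset.sum_congr rfl fun x _ => ?_
      rw [Finset.sum_comm]
    · simp [dl, h]
  · simp only [dl.eq_1 z.1.2, dl.eq_1 w.1.2, mul_ite, mul_one, mul_zero, ite_mul, zero_mul,
      Finset.sum_ite_irrel, Finset.sum_const_zero, Finset.sum_ite_eq, Finset.mem_univ, if_true]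
    rw [← Finset.sum_add_distrib, Finset.mul_sum]
    refine Finset.sum_congr rfl fun x _ => ?_
    rw [← Finset.sum_add_distrib, Finset.mul_sum]
    refine Finset.sum_congr rfl fun y _ => ?_
    ring

/-- the dominant site step -/
theorem good_step (hd : 2 ≤ Fintype.card α) (o : α) (f : β' ≃ α × β) {κ : β → β → β → β → ℂ}
    {κ' : β' → β' → β' → β' → ℂ} {r : ℝ} (hr : 0 ≤ r)
    (hκ : ∀ z w x y, κ' z w x y =
      dl (f z).1 (f w).1 * dl (f x).1 (f y).1 * κ (f z).2 (f w).2 (f x).2 (f y).2 +
      r * (dl (f z).1 (f x).1 * dl (f w).1 (f y).1) *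
        (dl (f z).2 (f w).2 * dl (f x).2 (f y).2 + κ (f z).2 (f w).2 (f x).2 (f y).2))
    {u : β → ℝ} {u' : β' → ℝ} (hu0 : ∀ b, 0 ≤ u b) (hu1 : ∀ b, u b ≤ r)
    (hu : ∀ z, u' z = u (f z).2 + if (f z).1 = o then r * (1 + u (f z).2) else 0)
    (h : Good κ u) : Good κ' u' := by
  intro R _ _ ρ hρ C hC t ht
  set e : (R × α) × β ≃ R × β' :=
    (Equiv.prodAssoc R α β).trans (Equiv.prodCongr (Equiv.refl R) f.symm) with he
  have hρ' := hρ.sub_equiv e
  have hC' := hC.submatrix e.injective
  rw [← tp_sub_equiv e, ← trace_sub_equiv e, amp_step f κ κ' r hκ ρ e (fun z => rfl), tp_add,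
    tp_smul, tp_add]
  set P := C.submatrix e e
  set σ := ρ.submatrix e e
  have hs : ∑ b, max (u' b - t) 0 = ∑ b, max (u b + r * (1 + u b) - t) 0 +
      (Fintype.card α - 1) * ∑ b, max (u b - t) 0 := by
    rw [← Equiv.sum_comp f.symm, Fintype.sum_prod_type, Fintype.sum_eq_add_sum_compl o]
    simp only [hu, Equiv.apply_symm_apply, if_true]
    congr 1
    rw [Finset.sum_congr rfl (g := fun _ => ∑ b, max (u b - t) 0) fun a ha => by
      simp only [if_neg (show ¬a = o by simpa using ha), add_zero]]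
    rw [Finset.sum_const, Finset.card_compl, Finset.card_singleton, nsmul_eq_mul,
      Nat.cast_sub (by omega), Nat.cast_one]
  have hd' : (0 : ℝ) ≤ (Fintype.card α : ℝ) - 1 := by
    have : (2 : ℝ) ≤ Fintype.card α := by exact_mod_cast hd
    linarith
  have hb := fun γ c (h1 : 0 ≤ γ) (h2 : γ ≤ c) =>
    block hd (h R _ hρ'.trm) hC' hρ'.trr h1 h2
  have hz := h (R × α) σ hρ' P hC'
  rw [hs]
  rcases le_total r t with h1 | h1
  · set τ := (t - r) / (1 + r) with hτ
    have hτ0 : 0 ≤ τ := div_nonneg (by linarith) (by linarith)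
    have hτ1 : t = r + (1 + r) * τ := by rw [hτ]; field_simp; ring
    have a1 := hb r (τ + r) hr (by linarith)
    have a2 := mul_le_mul_of_nonneg_left (hz τ hτ0) hr
    have a3 : ∑ b, max (u b - (τ + r)) 0 = 0 :=
      Finset.sum_eq_zero fun b _ => max_eq_right (by linarith [hu1 b])
    have a4 : ∑ b, max (u b + r * (1 + u b) - t) 0 = (1 + r) * ∑ b, max (u b - τ) 0 := by
      rw [Finset.mul_sum]
      refine Finset.sum_congr rfl fun b _ => ?_
      rw [mul_max_of_nonneg _ _ (by linarith), mul_zero, hτ1]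
      congr 1
      ring
    have a5 : 0 ≤ ((Fintype.card α : ℝ) - 1) * ∑ b, max (u b - t) 0 :=
      mul_nonneg hd' (Finset.sum_nonneg fun b _ => le_max_right _ _)
    simp only [add_sub_cancel_right, a3, mul_zero, add_zero] at a1
    rw [a4]
    have a6 : t * P.trace.re = (τ + r) * P.trace.re + r * (τ * P.trace.re) := by
      rw [hτ1]; ring
    linarith
  · have a1 := hb t t ht le_rfl
    have a2 := mul_le_mul_of_nonneg_left (hz 0 le_rfl) hr
    have a3 := mul_le_mul_of_nonneg_left
      ((tp_exr_le (β := β) hρ'.trr hC').trans (min_le_right _ _)) (sub_nonneg.2 h1)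
    have a4 : ∑ b, max (u b + r * (1 + u b) - t) 0 =
        (1 + r) * ∑ b, max (u b - 0) 0 + (r - t) * Fintype.card β := by
      rw [Finset.mul_sum, Fintype.card_eq_sum_ones, Nat.cast_sum, Finset.mul_sum,
        ← Finset.sum_add_distrib]
      refine Finset.sum_congr rfl fun b _ => ?_
      have := mul_nonneg hr (hu0 b)
      rw [max_eq_left (by linarith [hu0 b]), max_eq_left (by linarith [hu0 b])]
      push_cast
      ring
    simp only [sub_self] at a1
    rw [a4]
    linarith

end Step

section Tower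
variable {α : Type} [Fintype α] [DecidableEq α]

/-- the kernel of the unnormalised product channel -/
noncomputable def kr {ι : Type} [Fintype ι] (r : ι → ℝ) (a b x y : ι → α) : ℂ :=
  ∏ i, ((r i : ℂ) * (dl (a i) (x i) * dl (b i) (y i)) + dl (a i) (b i) * dl (x i) (y i))

/-- the spectrum of the output at a product input -/
noncomputable def sp {ι : Type} [Fintype ι] (o : α) (r : ι → ℝ) (a : ι → α) : ℝ :=
  ∏ i, (1 + if a i = o then r i else 0)

lemma dl_fun {ι : Type} [Fintype ι] [DecidableEq ι] (a b : ι → α) :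
    dl a b = ∏ i, dl (a i) (b i) := by
  simp only [dl, Finset.prod_boole, Finset.mem_univ, true_imp_iff, funext_iff]

lemma prod_at {ι M : Type} [Fintype ι] [DecidableEq ι] [CommMonoid M] (i : ι) (F : ι → M) :
    ∏ j, F j = F i * ∏ j : {j // j ≠ i}, F j := by
  rw [Fintype.prod_eq_mul_prod_compl i, Finset.prod_subtype (p := fun j => j ≠ i) {i}ᶜ (by simp)]

lemma one_le_sp {ι : Type} [Fintype ι] (o : α) {r : ι → ℝ} (hr : ∀ i, 0 ≤ r i) (a : ι → α) :
    1 ≤ sp o r a :=
  Finset.one_le_prod fun i _ => by split_ifs <;> linarith [hr i]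

lemma sp_le {ι : Type} [Fintype ι] (o : α) {r : ι → ℝ} (hr : ∀ i, 0 ≤ r i) (a : ι → α) :
    sp o r a ≤ ∏ i, (1 + r i) :=
  Finset.prod_le_prod (fun i _ => by split_ifs <;> linarith [hr i])
    fun i _ => by split_ifs <;> linarith [hr i]

theorem good_tower (hd : 2 ≤ Fintype.card α) (o : α) : ∀ (n : ℕ) (ι : Type) [Fintype ι]
    [DecidableEq ι], Fintype.card ι = n → ∀ (rk : ι → ℕ), Function.Injective rk →
    ∀ r : ι → ℝ, (∀ i, 0 ≤ r i) → (∀ i, ∏ j with rk i < rk j, (1 + r j) ≤ 1 + r i) →
    Good (fun a b x y : ι → α => kr r a b x y - dl a b * dl x y) (fun a => sp o r a - 1) := by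
  intro n
  induction n with
  | zero =>
    intro ι _ _ hn rk _ r _ _ R _ _ ρ _ C hC t ht
    have : IsEmpty ι := Fintype.card_eq_zero_iff.1 hn
    have h0 : amp (fun a b x y : ι → α => kr r a b x y - dl a b * dl x y) ρ = 0 := by
      ext z w
      simp [amp, kr, dl_fun]
    rw [h0]
    have h1 : 0 ≤ C.trace.re := (Complex.nonneg_iff.1 hC.1.trace_nonneg).1
    have h2 : tp C 0 = 0 := by simp [tp]
    rw [h2]
    exact add_nonneg (mul_nonneg ht h1) (Finset.sum_nonneg fun b _ => le_max_right _ _)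
  | succ n ih =>
    intro ι _ _ hn rk hrk r hr hc
    have : Nonempty ι := Fintype.card_pos_iff.1 (by omega)
    obtain ⟨i, -, hi⟩ := Finset.exists_min_image Finset.univ rk Finset.univ_nonempty
    have hlt : ∀ j, j ≠ i → rk i < rk j := fun j hj =>
      lt_of_le_of_ne (hi j (Finset.mem_univ j)) fun h => hj (hrk h).symm
    have hsub : ∀ (m : ℕ), rk i ≤ m → 
        ∏ j ∈ (Finset.univ : Finset {j // j ≠ i}).filter (fun j => m < rk j.1), (1 + r j.1) =
        ∏ j with m < rk j, (1 + r j) := by
      intro m hm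
      rw [Finset.prod_filter, Finset.prod_filter, prod_at i, if_neg (by omega), one_mul]
    have h := ih {j // j ≠ i} (by
      rw [Fintype.card_subtype_compl, Fintype.card_subtype_eq, hn]; rfl)
      (fun j => rk j) (fun j j' h => Subtype.ext (hrk h)) (fun j => r j) (fun j => hr j)
      (fun j => by rw [hsub _ (hi j (Finset.mem_univ _))]; exact hc j)
    refine good_step hd o (Equiv.funSplitAt i α) (hr i) (fun z w x y => ?_)
      (fun b => sub_nonneg.2 (one_le_sp o (fun j : {j // j ≠ i} => hr j) b)) (fun b => ?_)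
      (fun z => ?_) h
    · simp only [kr, dl_fun, prod_at i, Equiv.funSplitAt_apply]
      ring
    · have h1 := sp_le o (fun j : {j // j ≠ i} => hr j) b
      have h2 := hc i
      rw [← hsub _ le_rfl, 
        Finset.filter_true_of_mem fun (j : {j // j ≠ i}) _ => hlt j.1 j.2] at h2
      linarith
    · simp only [sp, prod_at i, Equiv.funSplitAt_apply]
      split_ifs <;> ring

end Tower

end Pool.Agent.MP_b746ed_mp.KF

end PartB

section PartC

/-! Moving mass towards the distinguished symbol. -/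

set_option autoImplicit false
set_option linter.unusedSectionVars false

namespace Pool.Agent.MP_b746ed_mp.KF

section Kf
variable {β : Type} [Fintype β]

/-- the concave function of the mass given by the threshold bounds -/
noncomputable def Kf (u : β → ℝ) (x : ℝ) : ℝ :=
  sInf ((fun t => t * max x 0 + ∑ b, max (u b - t) 0) '' Set.Ici 0)

lemma Kf_bdd (u : β → ℝ) (x : ℝ) :
    BddBelow ((fun t => t * max x 0 + ∑ b, max (u b - t) 0) '' Set.Ici 0) := by
  refine ⟨0, ?_⟩
  rintro _ ⟨t, ht, rfl⟩
  exact add_nonneg (mul_nonneg ht (le_max_right _ _)) (Finset.sum_nonneg fun b _ => le_max_right _ _)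

lemma Kf_le (u : β → ℝ) (x : ℝ) {t : ℝ} (ht : 0 ≤ t) :
    Kf u x ≤ t * max x 0 + ∑ b, max (u b - t) 0 := csInf_le (Kf_bdd u x) ⟨t, ht, rfl⟩

lemma le_Kf (u : β → ℝ) (x : ℝ) {y : ℝ}
    (h : ∀ t, 0 ≤ t → y ≤ t * max x 0 + ∑ b, max (u b - t) 0) : y ≤ Kf u x := by
  refine le_csInf ⟨_, 0, le_refl (0 : ℝ), rfl⟩ ?_
  rintro _ ⟨t, ht, rfl⟩
  exact h t ht

lemma Kf_lip {u : β → ℝ} {L : ℝ} (hL : 0 ≤ L) (hu : ∀ b, u b ≤ L) (x y : ℝ) :
    Kf u x ≤ Kf u y + L * max (x - y) 0 := by
  have : Kf u x - L * max (x - y) 0 ≤ Kf u y := le_Kf u y fun t ht => by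
    have h1 : max x 0 ≤ max y 0 + max (x - y) 0 :=
      max_le (by linarith [le_max_left y 0, le_max_left (x - y) 0])
        (add_nonneg (le_max_right _ _) (le_max_right _ _))
    have hy : 0 ≤ max y 0 := le_max_right _ _
    have hxy : 0 ≤ max (x - y) 0 := le_max_right _ _
    rcases le_total t L with h | h
    · have := Kf_le u x ht
      nlinarith
    · have := Kf_le u x hL
      have h2 : ∑ b, max (u b - L) 0 = 0 :=
        Finset.sum_eq_zero fun b _ => max_eq_right (by linarith [hu b])
      have h3 : 0 ≤ ∑ b, max (u b - t) 0 := Finset.sum_nonneg fun b _ => le_max_right _ _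
      nlinarith
  linarith

lemma Kf_le_top (u : β → ℝ) (x : ℝ) : Kf u x ≤ Kf u (Fintype.card β) := by
  refine le_Kf u _ fun t ht => (Kf_le u x le_rfl).trans ?_
  rw [zero_mul, zero_add, max_eq_left (Nat.cast_nonneg _), Fintype.card_eq_sum_ones, Nat.cast_sum,
    Finset.mul_sum, ← Finset.sum_add_distrib]
  refine Finset.sum_le_sum fun b _ => ?_
  push_cast
  exact max_le (by linarith [le_max_left (u b - t) 0]) (by linarith [le_max_right (u b - t) 0])

lemma Kf_le_all {u : β → ℝ} (hu : ∀ b, 0 ≤ u b) {x : ℝ} (h0 : 0 ≤ x) (h1 : x ≤ Fintype.card β)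
    (t : ℝ) : Kf u x ≤ t * x + ∑ b, max (u b - t) 0 := by
  rcases le_total 0 t with h | h
  · have := Kf_le u x h
    rwa [max_eq_left h0] at this
  · refine (Kf_le u x le_rfl).trans ?_
    have : ∑ b, max (u b - t) 0 = ∑ b, max (u b - 0) 0 - t * Fintype.card β := by
      rw [Fintype.card_eq_sum_ones, Nat.cast_sum, Finset.mul_sum, ← Finset.sum_sub_distrib]
      refine Finset.sum_congr rfl fun b _ => ?_
      rw [max_eq_left (by linarith [hu b]), max_eq_left (by linarith [hu b])]
      push_cast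
      ring
    rw [this]
    nlinarith

lemma cont_of_lip {F : ℝ → ℝ} {L : ℝ} (hL : 0 ≤ L) (h : ∀ x y, F x ≤ F y + L * max (x - y) 0) :
    Continuous F := by
  refine (LipschitzWith.of_le_add_mul' L fun x y => (h x y).trans ?_).continuous
  have : max (x - y) 0 ≤ dist x y := max_le (le_abs_self _) dist_nonneg
  nlinarith

end Kf

section Move
variable {ι α : Type} [Fintype ι] [DecidableEq ι] [Fintype α] [DecidableEq α]

/-- the mass of the fibre through `z` in the directions `T` -/
def fm (T : Finset ι) (m : (ι → α) → ℝ) (z : ι → α) : ℝ :=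
  ∑ a, if ∀ j, j ∉ T → a j = z j then m a else 0

/-- the relaxed objective -/
def obj (o : α) (r : ι → ℝ) (F : Finset ι → ℝ → ℝ) (m : (ι → α) → ℝ) : ℝ :=
  ∑ i, r i * ∑ a, (if a i = o then m a else 0) +
    ∑ T : Finset ι, ∑ z, if ∀ j ∈ T, z j = o then F T (fm T m z) else 0

lemma fm_of_cp {o : α} {D : ℝ} (hD : 0 < D) {m : (ι → α) → ℝ}
    (cp : ∀ a i, a i ≠ o → m a = 0 ∨ m (Function.update a i o) = D) (T : Finset ι) (z : ι → α)
    (hz : ∀ j ∈ T, z j = o) : fm T m z = m z ∨ m z = D := by
  have key : ∀ (n : ℕ) (a : ι → α), (Finset.univ.filter fun j => a j ≠ z j).card = n →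
      (∀ j, j ∉ T → a j = z j) → a ≠ z → m a ≠ 0 → m z = D := by
    intro n
    induction n using Nat.strong_induction_on with
    | _ n ih =>
      intro a hn ha hne hm
      obtain ⟨i, hi⟩ := Function.ne_iff.1 hne
      have hiT : i ∈ T := by
        by_contra h
        exact hi (ha i h)
      have h1 := (cp a i (by rwa [← hz i hiT])).resolve_left hm
      by_cases h2 : Function.update a i o = z
      · rwa [h2] at h1
      refine ih _ ?_ (Function.update a i o) rfl (fun j hj => ?_) h2 (by rw [h1]; exact hD.ne')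
      · rw [← hn]
        refine Finset.card_lt_card ⟨fun j hj => ?_, fun h => ?_⟩
        · rcases eq_or_ne j i with rfl | hji
          · simpa using hi
          · simpa [hji] using hj
        · have := h (Finset.mem_filter.2 ⟨Finset.mem_univ i, hi⟩)
          simp [hz i hiT] at this
      · rw [Function.update_of_ne (fun h : j = i => hj (h ▸ hiT)), ha j hj]
  by_cases h : ∀ a, (∀ j, j ∉ T → a j = z j) → a ≠ z → m a = 0
  · left
    rw [fm, Finset.sum_eq_single z, if_pos fun _ _ => rfl]
    · intro a _ ha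
      split_ifs with h1
      exacts [h a h1 ha, rfl]
    · simp
  · push Not at h
    obtain ⟨a, h1, h2, h3⟩ := h
    exact Or.inr (key _ a rfl h1 h2 h3)

lemma sum_rep (o : α) (T : Finset ι) (a : ι → α) (δ : ℝ) :
    (∑ z : ι → α, if ∀ j ∈ T, z j = o then (if ∀ j, j ∉ T → a j = z j then δ else 0) else 0) = δ := by
  rw [Finset.sum_eq_single (T.piecewise (fun _ => o) a)]
  · rw [if_pos fun j hj => by simp [Finset.piecewise, hj],
      if_pos fun j hj => by simp [Finset.piecewise, hj]]
  · intro z _ hz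
    split_ifs with h1 h2
    · refine absurd (funext fun j => ?_) hz
      by_cases hj : j ∈ T
      · simp [Finset.piecewise, hj, h1 j hj]
      · simp [Finset.piecewise, hj, h2 j hj]
    · rfl
    · rfl
  · simp

lemma obj_move {o : α} {r : ι → ℝ} {F : Finset ι → ℝ → ℝ} {L : Finset ι → ℝ} (hL : ∀ T, 0 ≤ L T)
    (hF : ∀ T x y, F T x ≤ F T y + L T * max (x - y) 0)
    (hc : ∀ i, ∑ T with i ∉ T, L T ≤ r i) (m : (ι → α) → ℝ) (a : ι → α) (i : ι) (hi : a i ≠ o)
    {δ : ℝ} (hδ : 0 ≤ δ) : obj o r F m ≤ obj o r F fun x =>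
      m x + (if x = Function.update a i o then δ else 0) - if x = a then δ else 0 := by
  set a' := Function.update a i o with ha'
  set m' : (ι → α) → ℝ := fun x => m x + (if x = a' then δ else 0) - if x = a then δ else 0
    with hm'
  have e0 : ∀ (p : (ι → α) → Prop) [DecidablePred p], (∑ x, if p x then m' x else 0) =
      (∑ x, if p x then m x else 0) + (if p a' then δ else 0) - if p a then δ else 0 := by
    intro p _
    have : ∀ x, (if p x then m' x else 0) = (if p x then m x else 0) +
        (if x = a' then (if p x then δ else 0) else 0) -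
        if x = a then (if p x then δ else 0) else 0 := fun x => by
      simp only [hm']
      split_ifs <;> simp
    simp only [this, Finset.sum_sub_distrib, Finset.sum_add_distrib, Finset.sum_ite_eq',
      Finset.mem_univ, if_true]
  have e1 : ∑ j, r j * ∑ x, (if x j = o then m' x else 0) =
      ∑ j, r j * ∑ x, (if x j = o then m x else 0) + r i * δ := by
    have : ∀ j, r j * ∑ x, (if x j = o then m' x else 0) =
        r j * ∑ x, (if x j = o then m x else 0) + if j = i then r i * δ else 0 := fun j => by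
      rw [e0 fun x => x j = o]
      rcases eq_or_ne j i with rfl | hj
      · simp [ha', hi, mul_add]
      · simp [ha', hj]
    simp only [this, Finset.sum_add_distrib, Finset.sum_ite_eq', Finset.mem_univ, if_true]
  have e2 : ∀ T : Finset ι, (∑ z, if ∀ j ∈ T, z j = o then F T (fm T m z) else 0) ≤
      (∑ z, if ∀ j ∈ T, z j = o then F T (fm T m' z) else 0) + if i ∉ T then L T * δ else 0 := by
    intro T
    have e3 : ∀ z, fm T m' z = fm T m z + (if ∀ j, j ∉ T → a' j = z j then δ else 0) -
        if ∀ j, j ∉ T → a j = z j then δ else 0 := fun z => e0 fun x => ∀ j, j ∉ T → x j = z j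
    split_ifs with h
    · have : ∀ z, fm T m' z = fm T m z := fun z => by
        have : (∀ j, j ∉ T → a' j = z j) ↔ ∀ j, j ∉ T → a j = z j :=
          forall_congr' fun j => forall_congr' fun hj => by
            rw [ha', Function.update_of_ne fun h' : j = i => hj (h' ▸ h)]
        rw [e3, if_congr this rfl rfl, add_sub_cancel_right]
      simp only [this, add_zero, le_refl]
    · rw [← sum_rep o T a δ, Finset.mul_sum, ← Finset.sum_add_distrib]
      refine Finset.sum_le_sum fun z _ => ?_
      by_cases hz : ∀ j ∈ T, z j = o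
      · simp only [if_pos hz]
        refine (hF T _ (fm T m' z)).trans (add_le_add le_rfl (mul_le_mul_of_nonneg_left ?_ (hL T)))
        rw [e3]
        split_ifs <;> exact max_le (by linarith) (by linarith)
      · simp [if_neg hz]
  have e4 := Finset.sum_le_sum fun T (_ : T ∈ Finset.univ) => e2 T
  rw [Finset.sum_add_distrib, ← Finset.sum_filter, ← Finset.sum_mul] at e4
  have e5 := mul_le_mul_of_nonneg_right (hc i) hδ
  rw [obj, obj, e1]
  linarith

theorem exists_compressed (o : α) {r : ι → ℝ} {F : Finset ι → ℝ → ℝ} {L : Finset ι → ℝ}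
    (hL : ∀ T, 0 ≤ L T) (hF : ∀ T x y, F T x ≤ F T y + L T * max (x - y) 0)
    (hc : ∀ i, ∑ T with i ∉ T, L T ≤ r i) {D : ℝ} (hD : 0 < D) (hF' : ∀ T x, F T x ≤ F T D)
    (m : (ι → α) → ℝ) (hm : ∀ a, 0 ≤ m a ∧ m a ≤ D) :
    ∃ m' : (ι → α) → ℝ, (∀ a, 0 ≤ m' a ∧ m' a ≤ D) ∧ ∑ a, m' a = ∑ a, m a ∧
      obj o r F m ≤ ∑ i, r i * ∑ a, (if a i = o then m' a else 0) +
        ∑ T : Finset ι, ∑ z, if ∀ j ∈ T, z j = o then F T (m' z) else 0 := by
  have hite : ∀ (p : Prop) [Decidable p] (f : ((ι → α) → ℝ) → ℝ), Continuous f →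
      Continuous fun x => if p then f x else 0 := by
    intro p _ f hf
    split_ifs
    exacts [hf, continuous_const]
  have hobj : Continuous (obj o r F : ((ι → α) → ℝ) → ℝ) := by
    unfold obj fm
    refine Continuous.add (continuous_finsetSum _ fun i _ => continuous_const.mul
      (continuous_finsetSum _ fun a _ => hite _ _ (continuous_apply a)))
      (continuous_finsetSum _ fun T _ => continuous_finsetSum _ fun z _ => hite _ _ ?_)
    exact (cont_of_lip (hL T) (hF T)).comp
      (continuous_finsetSum _ fun a _ => hite _ _ (continuous_apply a))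
  set X : Set ((ι → α) → ℝ) := Set.Icc (fun _ => 0) (fun _ => D) ∩
    ({x | ∑ a, x a = ∑ a, m a} ∩ {x | obj o r F m ≤ obj o r F x}) with hX
  have hK : IsCompact X := isCompact_Icc.inter_right
    ((isClosed_eq (continuous_finsetSum _ fun a _ => continuous_apply a) continuous_const).inter
      (isClosed_le continuous_const hobj))
  set Z : ((ι → α) → ℝ) → ℝ := fun x => ∑ i, ∑ a, if a i = o then x a else 0 with hZ
  have hZc : Continuous Z := continuous_finsetSum _ fun i _ =>
    continuous_finsetSum _ fun a _ => hite _ _ (continuous_apply a)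
  obtain ⟨x, ⟨⟨hx0, hx1⟩, hx2, hx3⟩, hmax⟩ := hK.exists_isMaxOn
    ⟨m, ⟨fun a => (hm a).1, fun a => (hm a).2⟩, rfl, le_refl (obj o r F m)⟩ hZc.continuousOn
  have cp : ∀ a i, a i ≠ o → x a = 0 ∨ x (Function.update a i o) = D := by
    intro a i hi
    by_contra h
    push Not at h
    have hne : Function.update a i o ≠ a := fun h' => hi (by rw [← h', Function.update_self])
    have h1 : 0 < x a := lt_of_le_of_ne (hx0 a) h.1.symm
    have h2 : x (Function.update a i o) < D := lt_of_le_of_ne (hx1 _) h.2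
    set δ := min (x a) (D - x (Function.update a i o)) with hδ
    have hδ0 : 0 < δ := lt_min h1 (by linarith)
    have hδ1 : δ ≤ x a := min_le_left _ _
    have hδ2 : δ ≤ D - x (Function.update a i o) := min_le_right _ _
    have h3 := obj_move hL hF hc x a i hi hδ0.le
    set y : (ι → α) → ℝ := fun w =>
      x w + (if w = Function.update a i o then δ else 0) - if w = a then δ else 0 with hy
    have hyX : y ∈ X := by
      refine ⟨⟨fun w => ?_, fun w => ?_⟩, ?_, hx3.trans h3⟩
      · have := hx0 w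
        simp only [hy] at this ⊢
        split_ifs with g1 g2 g2
        · exact absurd (g1.symm.trans g2) hne
        · linarith
        · rw [g2]; linarith
        · linarith
      · have := hx1 w
        simp only [hy] at this ⊢
        split_ifs with g1 g2 g2
        · exact absurd (g1.symm.trans g2) hne
        · rw [g1]; linarith
        · linarith
        · linarith
      · have : ∑ w, x w = ∑ w, m w := hx2
        simp only [Set.mem_ofPred_eq, hy, Finset.sum_sub_distrib, Finset.sum_add_distrib,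
          Finset.sum_ite_eq', Finset.mem_univ, if_true]
        linarith
    have h5 : Z y ≤ Z x := hmax hyX
    have h6 : ∀ j, (∑ w, if w j = o then y w else 0) =
        (∑ w, if w j = o then x w else 0) + if j = i then δ else 0 := by
      intro j
      have : ∀ w : ι → α, (if w j = o then y w else 0) = (if w j = o then x w else 0) +
          (if w = Function.update a i o then (if w j = o then δ else 0) else 0) -
          if w = a then (if w j = o then δ else 0) else 0 := fun w => by
        simp only [hy]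
        split_ifs <;> simp
      simp only [this, Finset.sum_sub_distrib, Finset.sum_add_distrib, Finset.sum_ite_eq',
        Finset.mem_univ, if_true]
      rcases eq_or_ne j i with rfl | hj
      · simp [hi]
      · simp [hj]
    simp only [hZ, h6, Finset.sum_add_distrib, Finset.sum_ite_eq', Finset.mem_univ, if_true] at h5
    linarith
  refine ⟨x, fun a => ⟨hx0 a, hx1 a⟩, hx2, (show obj o r F m ≤ obj o r F x from hx3).trans ?_⟩
  refine add_le_add le_rfl (Finset.sum_le_sum fun T _ => Finset.sum_le_sum fun z _ => ?_)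
  split_ifs with hz
  · rcases fm_of_cp hD cp T z hz with h | h
    · rw [h]
    · rw [h]; exact hF' T _
  · exact le_rfl

end Move

end Pool.Agent.MP_b746ed_mp.KF

end PartC
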