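import Pool.Agent.MP_b746ed_mp.LexOne
import Mathlib

section PartD

/-! Local frames and the step over several sites. -/

set_option autoImplicit false
set_option linter.unusedSectionVars false
open scoped ComplexOrder
open Matrix

namespace Pool.Agent.MP_b746ed_mp.KF

variable {ι α β : Type} [Fintype ι] [DecidableEq ι] [Fintype α] [DecidableEq α] [Fintype β]
  [DecidableEq β]

/-- tensor product of one matrix per site -/
def pu (V : ι → Matrix α α ℂ) : Matrix (ι → α) (ι → α) ℂ :=
  Matrix.of fun a x => ∏ i, V i (a i) (x i)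

lemma sum_prod_fun (f : ι → α → ℂ) : ∑ c : ι → α, ∏ i, f i (c i) = ∏ i, ∑ s, f i s := by
  rw [Finset.prod_univ_sum, Fintype.piFinset_univ]

lemma pu_mul (V W : ι → Matrix α α ℂ) : pu V * pu W = pu fun i => V i * W i := by
  ext a b
  simp only [pu, Matrix.mul_apply, of_apply, ← Finset.prod_mul_distrib]
  exact sum_prod_fun fun i s => V i (a i) s * W i s (b i)

lemma pu_conj (V : ι → Matrix α α ℂ) : (pu V)ᴴ = pu fun i => (V i)ᴴ := by
  ext a b
  simp [pu]

lemma pu_one : pu (fun _ : ι => (1 : Matrix α α ℂ)) = 1 := by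
  ext a b
  simp only [pu, of_apply, one_apply, Finset.prod_boole, Finset.mem_univ, true_imp_iff, funext_iff]

lemma exr_mul {R : Type} [Fintype R] (X Y : Matrix R R ℂ) : exr β X * exr β Y = exr β (X * Y) := by
  ext x y
  simp only [exr, Matrix.mul_apply, of_apply, Fintype.sum_prod_type, ite_mul, zero_mul,
    mul_ite, mul_zero]
  split_ifs <;> simp_all

lemma exr_conj {R : Type} (X : Matrix R R ℂ) : (exr β X)ᴴ = exr β Xᴴ := by
  ext x y
  simp only [exr, conjTranspose_apply, of_apply]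
  by_cases h : x.2 = y.2
  · simp [h]
  · simp [h, Ne.symm h]

lemma exr_one {R : Type} [DecidableEq R] : exr β (1 : Matrix R R ℂ) = 1 := by
  ext x y
  simp only [exr, of_apply, one_apply, Prod.ext_iff]
  by_cases h : x.2 = y.2 <;> simp [h]

/-- the unnormalised product channel -/
noncomputable def kmap (r : ι → ℝ) (X : Matrix (ι → α) (ι → α) ℂ) : Matrix (ι → α) (ι → α) ℂ :=
  Matrix.of fun a b => ∑ x, ∑ y, X x y * kr r a b x y

lemma sum4 {γ δ : Type} [Fintype γ] [Fintype δ] (f : γ → γ → δ → δ → ℂ) :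
    ∑ x, ∑ y, ∑ q, ∑ p, f x y p q = ∑ p, ∑ q, ∑ x, ∑ y, f x y p q := by
  calc _ = ∑ z : γ × γ, ∑ w : δ × δ, f z.1 z.2 w.2 w.1 := by simp only [Fintype.sum_prod_type]
    _ = ∑ w : δ × δ, ∑ z : γ × γ, f z.1 z.2 w.2 w.1 := Finset.sum_comm
    _ = ∑ q, ∑ p, ∑ x, ∑ y, f x y p q := by simp only [Fintype.sum_prod_type]
    _ = _ := Finset.sum_comm

lemma sum2_prod (f : ι → α → α → ℂ) :
    ∑ x : ι → α, ∑ y : ι → α, ∏ i, f i (x i) (y i) = ∏ i, ∑ s, ∑ t, f i s t := by
  rw [← sum_prod_fun fun i s => ∑ t, f i s t]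
  exact Finset.sum_congr rfl fun x _ => sum_prod_fun fun i t => f i (x i) t

lemma kmap_cov (r : ι → ℝ) {V : ι → Matrix α α ℂ} (h1 : ∀ i, (V i)ᴴ * V i = 1)
    (h2 : ∀ i, V i * (V i)ᴴ = 1) (X : Matrix (ι → α) (ι → α) ℂ) :
    kmap r (pu V * X * (pu V)ᴴ) = pu V * kmap r X * (pu V)ᴴ := by
  ext a b
  have e1 : ∀ p q : ι → α, ∑ x, ∑ y, pu V x p * star (pu V y q) * kr r a b x y =
      ∏ i, (r i * (V i (a i) (p i) * star (V i (b i) (q i))) + dl (a i) (b i) * dl (p i) (q i)) := by
    intro p q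
    simp only [pu, kr, of_apply, star_prod, ← Finset.prod_mul_distrib]
    rw [sum2_prod fun i s t => V i s (p i) * star (V i t (q i)) *
      (r i * (dl (a i) s * dl (b i) t) + dl (a i) (b i) * dl s t)]
    refine Finset.prod_congr rfl fun i _ => ?_
    have := congrFun (congrFun (h1 i) (q i)) (p i)
    simp only [Matrix.mul_apply, conjTranspose_apply, one_apply] at this
    simp only [mul_add, Finset.sum_add_distrib, dl, mul_ite, mul_one, mul_zero,
      Finset.sum_ite_eq, Finset.mem_univ, if_true]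
    congr 1
    · ring
    · by_cases h : a i = b i
      · simp only [if_pos h, mul_comm (V i _ _), this, eq_comm]
      · simp [h]
  have e2 : ∀ p q : ι → α, ∑ x, ∑ y, pu V a x * star (pu V b y) * kr r x y p q =
      ∏ i, (r i * (V i (a i) (p i) * star (V i (b i) (q i))) + dl (a i) (b i) * dl (p i) (q i)) := by
    intro p q
    simp only [pu, kr, of_apply, star_prod, ← Finset.prod_mul_distrib]
    rw [sum2_prod fun i s t => V i (a i) s * star (V i (b i) t) *
      (r i * (dl s (p i) * dl t (q i)) + dl s t * dl (p i) (q i))]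
    refine Finset.prod_congr rfl fun i _ => ?_
    have := congrFun (congrFun (h2 i) (a i)) (b i)
    simp only [Matrix.mul_apply, conjTranspose_apply, one_apply] at this
    simp only [mul_add, Finset.sum_add_distrib, dl, mul_ite, mul_one, mul_zero,
      Finset.sum_ite_eq', Finset.mem_univ, if_true]
    congr 1
    · ring
    · by_cases h : p i = q i
      · simp only [if_pos h, Finset.sum_ite_eq, Finset.mem_univ, if_true, this]
      · simp [h]
  have e3 : kmap r (pu V * X * (pu V)ᴴ) a b =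
      ∑ p, ∑ q, X p q * ∑ x, ∑ y, pu V x p * star (pu V y q) * kr r a b x y := by
    simp only [kmap, of_apply, Matrix.mul_apply, conjTranspose_apply, Finset.sum_mul,
      Finset.mul_sum]
    rw [sum4]
    exact Finset.sum_congr rfl fun p _ => Finset.sum_congr rfl fun q _ =>
      Finset.sum_congr rfl fun x _ => Finset.sum_congr rfl fun y _ => by ring
  have e4 : (pu V * kmap r X * (pu V)ᴴ) a b =
      ∑ p, ∑ q, X p q * ∑ x, ∑ y, pu V a x * star (pu V b y) * kr r x y p q := by
    simp only [kmap, of_apply, Matrix.mul_apply, conjTranspose_apply, Finset.sum_mul,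
      Finset.mul_sum]
    refine Eq.trans ?_ (sum4 fun x y p q => X p q * (pu V a x * star (pu V b y) * kr r x y p q))
    rw [Finset.sum_comm]
    refine Finset.sum_congr rfl fun y _ => Finset.sum_congr rfl fun x _ => ?_
    rw [Finset.sum_comm]
    exact Finset.sum_congr rfl fun p _ => Finset.sum_congr rfl fun q _ => by ring
  simp only [e3, e4, e1, e2]

/-- a block of a matrix on a product -/
def blk {R : Type} (M : Matrix (R × β) (R × β) ℂ) (y y' : β) : Matrix R R ℂ :=
  Matrix.of fun a b => M (a, y) (b, y')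

lemma blk_conj {R : Type} [Fintype R] (W : Matrix R R ℂ) (M : Matrix (R × β) (R × β) ℂ)
    (y y' : β) : blk (exr β W * M * (exr β W)ᴴ) y y' = W * blk M y y' * Wᴴ := by
  ext a b
  simp [blk, exr, Matrix.mul_apply, Fintype.sum_prod_type, apply_ite (starRingEnd ℂ)]

/-- the product channel on the left factor tensor the map with kernel `κ` on the right one -/
noncomputable def big (r : ι → ℝ) (κ : β → β → β → β → ℂ)
    (ρ : Matrix ((ι → α) × β) ((ι → α) × β) ℂ) : Matrix ((ι → α) × β) ((ι → α) × β) ℂ :=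
  Matrix.of fun z w => ∑ v, ∑ v', κ z.2 w.2 v v' * kmap r (blk ρ v v') z.1 w.1

lemma big_cov (r : ι → ℝ) (κ : β → β → β → β → ℂ) {V : ι → Matrix α α ℂ}
    (h1 : ∀ i, (V i)ᴴ * V i = 1) (h2 : ∀ i, V i * (V i)ᴴ = 1)
    (ρ : Matrix ((ι → α) × β) ((ι → α) × β) ℂ) :
    big r κ (exr β (pu V) * ρ * (exr β (pu V))ᴴ) = exr β (pu V) * big r κ ρ * (exr β (pu V))ᴴ := by
  ext z w
  have e : blk (big r κ ρ) z.2 w.2 = ∑ v, ∑ v', κ z.2 w.2 v v' • kmap r (blk ρ v v') := by
    ext a b
    simp [blk, big, Matrix.sum_apply]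
  change _ = blk (exr β (pu V) * big r κ ρ * (exr β (pu V))ᴴ) z.2 w.2 z.1 w.1
  rw [blk_conj, e]
  simp only [big, of_apply, blk_conj, kmap_cov r h1 h2, Finset.mul_sum, Finset.sum_mul,
    mul_smul_comm, smul_mul_assoc, Matrix.sum_apply, Matrix.smul_apply, smul_eq_mul]

/-- an operator acting at one site -/
def sg (β : Type) [DecidableEq β] (i : ι) (σ : Matrix α α ℂ) :
    Matrix ((ι → α) × β) ((ι → α) × β) ℂ :=
  exr β (pu (Function.update (fun _ => 1) i σ))

lemma sg_apply (i : ι) (σ : Matrix α α ℂ) (z w : (ι → α) × β) : sg β i σ z w =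
    σ (z.1 i) (w.1 i) * (dl z.2 w.2 * ∏ j ∈ ({i}ᶜ : Finset ι), dl (z.1 j) (w.1 j)) := by
  simp only [sg, exr, pu, of_apply, Fintype.prod_eq_mul_prod_compl i, Function.update_self]
  rw [Finset.prod_congr rfl (g := fun j => dl (z.1 j) (w.1 j)) fun j hj => by
    rw [Function.update_of_ne (by simpa using hj), one_apply, dl]]
  rw [dl]
  split_ifs <;> simp

lemma sg_conj (i : ι) (σ : Matrix α α ℂ) : (sg β i σ)ᴴ = sg β i σᴴ := by
  rw [sg, sg, exr_conj, pu_conj]
  congr 2
  funext j
  rcases eq_or_ne j i with rfl | h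
  · simp
  · simp [h]

lemma sg_mul (i : ι) (σ τ : Matrix α α ℂ) : sg β i σ * sg β i τ = sg β i (σ * τ) := by
  rw [sg, sg, sg, exr_mul, pu_mul]
  congr 2
  funext j
  rcases eq_or_ne j i with rfl | h
  · simp
  · simp [h]

lemma sg_one (i : ι) : sg β i (1 : Matrix α α ℂ) = 1 := by
  rw [sg, Function.update_eq_self_iff.2 rfl, pu_one, exr_one]

lemma sg_cov (i : ι) (σ : Matrix α α ℂ) {V : ι → Matrix α α ℂ} (h1 : ∀ i, (V i)ᴴ * V i = 1) :
    (exr β (pu V))ᴴ * sg β i σ * exr β (pu V) = sg β i ((V i)ᴴ * σ * V i) := by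
  rw [sg, sg, exr_conj, pu_conj, exr_mul, exr_mul, pu_mul, pu_mul]
  congr 2
  funext j
  rcases eq_or_ne j i with rfl | h
  · simp
  · simp [h, h1]

/-- the marginal at one site -/
noncomputable def mg (i : ι) (P : Matrix ((ι → α) × β) ((ι → α) × β) ℂ) : Matrix α α ℂ :=
  Matrix.of fun s t => (P * sg β i (eu t s)).trace

lemma trace_mg (i : ι) (P : Matrix ((ι → α) × β) ((ι → α) × β) ℂ) (σ : Matrix α α ℂ) :
    (P * sg β i σ).trace = (mg i P * σ).trace := by
  have : sg β i σ = ∑ s, ∑ t, σ t s • sg β i (eu t s) := by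
    ext z w
    simp [Matrix.sum_apply, sg_apply, eu, op_apply, Pi.single_apply]
  rw [this]
  simp only [Finset.mul_sum, trace_sum, mul_smul_comm, trace_smul, smul_eq_mul]
  refine Finset.sum_congr rfl fun s _ => ?_
  rw [diag_apply, Matrix.mul_apply]
  exact Finset.sum_congr rfl fun t _ => mul_comm _ _

lemma mg_herm (i : ι) {P : Matrix ((ι → α) × β) ((ι → α) × β) ℂ} (hP : P.IsHermitian) :
    (mg i P).IsHermitian := by
  ext s t
  simp only [conjTranspose_apply, mg, of_apply]
  rw [← trace_conjTranspose, conjTranspose_mul, sg_conj, eu_conj, hP.eq, trace_mul_comm]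

lemma St.mg (o : α) (i : ι) {ρ : Matrix ((ι → α) × β) ((ι → α) × β) ℂ} (h : St ρ) :
    St (mg i ρ) := by
  refine ⟨PosSemidef.of_dotProduct_mulVec_nonneg (mg_herm i h.1.isHermitian) fun z => ?_, ?_⟩
  · have h1 : op z z = (op (Pi.single o 1) z)ᴴ * op (Pi.single o 1) z := by
      rw [op_conjTranspose, op_mul_op, ip_single_self, one_smul]
    have h2 := (h.1.mul_mul_conjTranspose_same (sg β i (op (Pi.single o 1) z))).trace_nonneg
    rw [trace_mul_cycle, sg_conj, sg_mul, ← h1, trace_mul_comm, trace_mg, op, mul_vecMulVec,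
      trace_vecMulVec, dotProduct_comm] at h2
    exact h2
  · rw [← mul_one (KF.mg i ρ), ← trace_mg, sg_one, mul_one, h.2]

lemma exists_frame (o : α) {H : Matrix α α ℂ} (hH : H.IsHermitian) :
    ∃ V : Matrix α α ℂ, Vᴴ * V = 1 ∧ V * Vᴴ = 1 ∧
      ∀ σ, St σ → tp H σ ≤ tp H (Vᴴ * eu o o * V) := by
  obtain ⟨b, l, hb, hb1, hW, hl⟩ := spectral_op hH
  have : Nonempty α := ⟨o⟩
  obtain ⟨k, -, hk⟩ := Finset.exists_max_image Finset.univ l Finset.univ_nonempty
  refine ⟨Matrix.of fun s x => star (b (Equiv.swap o k s) x), ?_, ?_, fun σ hσ => ?_⟩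
  · rw [← hb1, ← Equiv.sum_comp (Equiv.swap o k)]
    ext x y
    simp [Matrix.mul_apply, Matrix.sum_apply, op_apply]
  · ext s t
    have := hb (Equiv.swap o k s) (Equiv.swap o k t)
    simp only [ip_eq, EmbeddingLike.apply_eq_iff_eq] at this
    simp only [Matrix.mul_apply, of_apply, conjTranspose_apply, star_star, this, one_apply]
  · have e : (Matrix.of fun s x => star (b (Equiv.swap o k s) x))ᴴ * eu o o *
        (Matrix.of fun s x => star (b (Equiv.swap o k s) x)) = op (b k) (b k) := by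
      ext x y
      simp [Matrix.mul_apply, eu, op_apply, Pi.single_apply]
    rw [e, tp_op, hl, ip_smul_right, hb, if_pos rfl, mul_one, Complex.ofReal_re, tp_comm, hW,
      tp_sum]
    have h1 : ∑ j, tp σ (op (b j) (b j)) = 1 := by
      rw [← tp_sum, hb1, tp_one, hσ.2, Complex.one_re]
    rw [← mul_one (l k), ← h1, Finset.mul_sum]
    refine Finset.sum_le_sum fun j _ => ?_
    rw [tp_smul]
    exact mul_le_mul_of_nonneg_right (hk j (Finset.mem_univ j)) (tp_nonneg hσ.1 (psd_op _))

/-- the term of the product channel that keeps the sites of `T` -/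
noncomputable def term (T : Finset ι) (κ : β → β → β → β → ℂ)
    (ρ : Matrix ((ι → α) × β) ((ι → α) × β) ℂ) : Matrix ((ι → α) × β) ((ι → α) × β) ℂ :=
  Matrix.of fun z w => ∑ x, ∑ y, ρ x y *
    ((∏ j ∈ T, dl (z.1 j) (x.1 j) * dl (w.1 j) (y.1 j)) *
      (∏ j ∈ Tᶜ, dl (z.1 j) (w.1 j) * dl (x.1 j) (y.1 j)) * κ z.2 w.2 x.2 y.2)

lemma big_eq (r : ι → ℝ) (κ : β → β → β → β → ℂ) (ρ : Matrix ((ι → α) × β) ((ι → α) × β) ℂ) :
    big r κ ρ = ∑ T : Finset ι, ((∏ j ∈ T, r j : ℝ) : ℂ) • term T κ ρ := by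
  ext z w
  simp only [big, kmap, blk, kr, term, of_apply, Matrix.sum_apply, Matrix.smul_apply, smul_eq_mul,
    Finset.prod_add, Finset.powerset_univ, Finset.mul_sum, Fintype.sum_prod_type,
    ← Finset.compl_eq_univ_sdiff, Complex.ofReal_prod]
  rw [Finset.sum_comm (s := (Finset.univ : Finset (Finset ι)))]
  simp only [Finset.sum_comm (s := (Finset.univ : Finset (Finset ι)))]
  rw [Finset.sum_comm (s := (Finset.univ : Finset (ι → α)))]
  refine Finset.sum_congr rfl fun v _ => ?_
  rw [Finset.sum_comm]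
  refine Finset.sum_congr rfl fun x _ => ?_
  rw [Finset.sum_comm]
  refine Finset.sum_congr rfl fun y _ => Finset.sum_congr rfl fun v' _ =>
    Finset.sum_congr rfl fun T _ => ?_
  rw [Finset.prod_mul_distrib (f := fun j => (r j : ℂ))]
  ring

lemma term_add (T : Finset ι) (κ κ' : β → β → β → β → ℂ)
    (ρ : Matrix ((ι → α) × β) ((ι → α) × β) ℂ) :
    term T (fun a b x y => κ a b x y + κ' a b x y) ρ = term T κ ρ + term T κ' ρ := by
  ext z w
  simp [term, mul_add, Finset.sum_add_distrib]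

lemma dl_comm {γ : Type} [DecidableEq γ] (a b : γ) : dl a b = dl b a := by
  simp only [dl, eq_comm]

lemma term_single (i : ι) (ρ : Matrix ((ι → α) × β) ((ι → α) × β) ℂ) :
    term {i} (fun a b x y => dl a b * dl x y) ρ = sg β i (mg i ρ) := by
  ext z w
  simp only [term, sg_apply, mg, of_apply, trace, diag_apply, Matrix.mul_apply, Finset.sum_mul,
    Finset.prod_singleton, Finset.prod_mul_distrib]
  refine Finset.sum_congr rfl fun x _ => Finset.sum_congr rfl fun y _ => ?_
  have : eu (w.1 i) (z.1 i) (y.1 i) (x.1 i) = dl (z.1 i) (x.1 i) * dl (w.1 i) (y.1 i) := by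
    simp only [eu, op_apply, Pi.single_apply, dl, eq_comm (a := x.1 i), eq_comm (a := y.1 i)]
    split_ifs <;> simp
  rw [this, dl_comm y.2, Finset.prod_congr rfl fun j _ => dl_comm (y.1 j) (x.1 j)]
  ring

lemma term_fibre (o : α) (T : Finset ι) (κ : β → β → β → β → ℂ)
    {ρ P : Matrix ((ι → α) × β) ((ι → α) × β) ℂ} (hρ : St ρ) (hP : Con P) (F : ℝ → ℝ)
    (hF : ∀ σ C : Matrix (({j // j ∈ T} → α) × β) (({j // j ∈ T} → α) × β) ℂ, St σ → Con C →
      tp C (amp κ σ) ≤ F C.trace.re) :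
    tp P (term T κ ρ) ≤ ∑ z, if ∀ j ∈ T, z j = o then
      F (fm T (fun a => ∑ y, (P (a, y) (a, y)).re) z) else 0 := by
  set e := Equiv.piEquivPiSubtypeProd (fun j => j ∈ T) fun _ => α with he
  set f := Equiv.prodCongr e.symm (Equiv.refl β) with hf
  have p1 : ∀ g : α → α → ℂ, ∀ a b : ({j // j ∈ T} → α) × ({j // j ∉ T} → α),
      ∏ j ∈ T, g (e.symm a j) (e.symm b j) = ∏ j, g (a.1 j) (b.1 j) := by
    intro g a b
    rw [Finset.prod_subtype (p := fun j => j ∈ T) T (fun _ => Iff.rfl)]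
    refine Finset.prod_congr rfl fun j _ => ?_
    simp [he, j.2]
  have p2 : ∀ g : α → α → ℂ, ∀ a b : ({j // j ∈ T} → α) × ({j // j ∉ T} → α),
      ∏ j ∈ Tᶜ, g (e.symm a j) (e.symm b j) = ∏ j, g (a.2 j) (b.2 j) := by
    intro g a b
    rw [Finset.prod_subtype (p := fun j => j ∉ T) Tᶜ (fun _ => Finset.mem_compl)]
    refine Finset.prod_congr rfl fun j _ => ?_
    simp [he, j.2]
  have e1 : (term T κ ρ).submatrix f f =
      exm ({j // j ∉ T} → α) (amp κ (trm (ρ.submatrix f f))) := by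
    ext z w
    simp only [submatrix_apply, term, of_apply, exm, amp, trm]
    rw [← Equiv.sum_comp f]
    simp only [← Equiv.sum_comp f (fun y => ρ _ y * _)]
    simp only [hf, Equiv.prodCongr_apply, Prod.map_fst, Prod.map_snd, Equiv.refl_apply,
      Finset.prod_mul_distrib, p1, p2, ← dl_fun, Fintype.sum_prod_type]
    split_ifs with h
    · simp only [dl, if_pos h, one_mul, ite_mul, zero_mul, mul_ite, mul_zero, mul_one,
        Finset.sum_mul]
      simp only [Finset.sum_ite_irrel, Finset.sum_const_zero, Finset.sum_ite_eq, Finset.mem_univ,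
        if_true]
      rw [Finset.sum_comm]
      refine Finset.sum_congr rfl fun x _ => ?_
      rw [Finset.sum_comm]
    · simp [dl, h]
  rw [← tp_sub_equiv f, e1, tp_exm, trm_eq, tp_comm, tp_sum, ← Equiv.sum_comp e.symm,
    Fintype.sum_prod_type, Finset.sum_comm]
  refine Finset.sum_le_sum fun θ _ => ?_
  rw [tp_comm]
  refine (hF _ _ (hρ.sub_equiv f).trm ((hP.submatrix f.injective).submatrix fun x y h => by
    simp only [Prod.mk.injEq, and_true] at h
    exact Prod.ext h.1 h.2)).trans (le_of_eq ?_)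
  rw [Finset.sum_eq_single (fun _ => o), if_pos fun j hj => by simp [he, hj]]
  · congr 1
    rw [fm, ← Equiv.sum_comp e.symm, Fintype.sum_prod_type]
    simp only [trace, diag_apply, submatrix_apply, Fintype.sum_prod_type, Complex.re_sum, hf,
      Equiv.prodCongr_apply, Prod.map_apply, Equiv.refl_apply]
    refine Finset.sum_congr rfl fun c _ => ?_
    rw [Finset.sum_eq_single θ, if_pos fun j hj => by simp [he, hj]]
    · intro θ' _ h
      rw [if_neg fun h' => h (funext fun j => by simpa [he, j.2] using h' j j.2)]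
    · simp
  · intro c _ h
    rw [if_neg fun h' => h (funext fun j => by simpa [he, j.2] using h' j j.2)]
  · simp

lemma sum_small (g : Finset ι → ℝ) :
    (∑ T, if 2 ≤ T.card then 0 else g T) = g ∅ + ∑ i, g {i} := by
  have : (Finset.univ.filter fun T : Finset ι => ¬2 ≤ T.card) =
      insert ∅ (Finset.univ.map ⟨singleton, Finset.singleton_injective⟩) := by
    ext T
    simp only [Finset.mem_filter, Finset.mem_univ, true_and, Finset.mem_insert, Finset.mem_map,
      Function.Embedding.coeFn_mk, ← Finset.card_eq_zero, eq_comm (b := T), ← Finset.card_eq_one]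
    omega
  rw [← Finset.sum_congr rfl fun T _ => ite_not (2 ≤ T.card) (g T) 0, ← Finset.sum_filter, this,
    Finset.sum_insert (by simp), Finset.sum_map]
  rfl

lemma sp_eq (o : α) (r : ι → ℝ) (z : ι → α) :
    sp o r z = ∑ T : Finset ι, if ∀ j ∈ T, z j = o then ∏ j ∈ T, r j else 0 := by
  rw [sp, Finset.prod_one_add, Finset.powerset_univ]
  refine Finset.sum_congr rfl fun T _ => ?_
  rw [Finset.prod_ite_zero]
  convert rfl

lemma sg_eu (o : α) (i : ι) : sg β i (eu o o) =
    diagonal fun z : (ι → α) × β => (((if z.1 i = o then 1 else 0 : ℝ)) : ℂ) := by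
  ext z w
  rw [sg_apply, eu, op_apply]
  by_cases h : z = w
  · subst h
    rw [diagonal_apply_eq]
    by_cases h1 : z.1 i = o <;> simp [dl, h1]
  rw [diagonal_apply_ne _ h]
  by_cases h2 : z.2 = w.2
  · have h3 : z.1 ≠ w.1 := fun h' => h (Prod.ext h' h2)
    obtain ⟨j, hj⟩ := Function.ne_iff.1 h3
    rcases eq_or_ne j i with rfl | hji
    · by_cases h1 : z.1 j = o
      · have : w.1 j ≠ o := fun h' => hj (h1.trans h'.symm)
        simp [this]
      · simp [h1]
    · rw [Finset.prod_eq_zero (i := j) (by simpa using hji) (by simp [dl, hj]), mul_zero, mul_zero]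
  · simp [dl, h2]

theorem big_fixed (o : α) {κ : β → β → β → β → ℂ} {u : β → ℝ} (hκ : Good κ u) {L : ℝ}
    (hβ : 0 < Fintype.card β) (hu0 : ∀ b, 0 ≤ u b) (hu1 : ∀ b, u b ≤ L) {r : ι → ℝ}
    (hr : ∀ i, 0 ≤ r i) (hc : ∀ i, (1 + L) * ∏ j ∈ ({i}ᶜ : Finset ι), (1 + r j) ≤ 1 + ∑ j, r j)
    {ρ P : Matrix ((ι → α) × β) ((ι → α) × β) ℂ} (hρ : St ρ) (hP : Con P)
    (hfix : ∀ i σ, St σ → tp P (sg β i σ) ≤ tp P (sg β i (eu o o))) (t : ℝ) :
    tp P (big r (fun a b x y => κ a b x y + dl a b * dl x y) ρ) ≤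
      t * P.trace.re + ∑ z : (ι → α) × β, max (sp o r z.1 * (1 + u z.2) - t) 0 := by
  obtain ⟨b0⟩ := Fintype.card_pos_iff.1 hβ
  have hL : 0 ≤ L := (hu0 b0).trans (hu1 b0)
  set D : ℝ := (Fintype.card β : ℝ) with hD
  set m : (ι → α) → ℝ := fun a => ∑ y, (P (a, y) (a, y)).re with hm
  set w : Finset ι → ℝ := fun T => ∏ j ∈ T, r j with hw
  have hw0 : ∀ T, 0 ≤ w T := fun T => Finset.prod_nonneg fun j _ => hr j
  have hm0 : ∀ a, 0 ≤ m a ∧ m a ≤ D := fun a => by
    refine ⟨Finset.sum_nonneg fun y _ => (Complex.nonneg_iff.1 (hP.1.diag_nonneg (i := (a, y)))).1,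
      ?_⟩
    rw [hD, Fintype.card_eq_sum_ones, Nat.cast_sum]
    refine Finset.sum_le_sum fun y _ => ?_
    have := (Complex.nonneg_iff.1 (hP.2.diag_nonneg (i := (a, y)))).1
    simp only [Matrix.sub_apply, one_apply_eq, Complex.sub_re, Complex.one_re] at this
    push_cast
    linarith
  have htr : P.trace.re = ∑ a, m a := by
    simp [trace, hm, Fintype.sum_prod_type]
  set F : Finset ι → ℝ → ℝ := fun T x => w T * (Kf u x + if 2 ≤ T.card then min x D else 0)
    with hF
  obtain ⟨m', hm', hs, hle⟩ := exists_compressed o (r := r) (F := F)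
    (L := fun T => w T * (L + if 2 ≤ T.card then 1 else 0))
    (fun T => mul_nonneg (hw0 T) (by split_ifs <;> linarith))
    (fun T x y => by
      simp only [hF]
      rw [mul_assoc, ← mul_add]
      refine mul_le_mul_of_nonneg_left ?_ (hw0 T)
      have h1 := Kf_lip hL hu1 x y
      have h2 : min x D ≤ min y D + max (x - y) 0 := by
        rcases le_total y D with h | h
        · rw [min_eq_left h]
          linarith [min_le_left x D, le_max_left (x - y) 0]
        · rw [min_eq_right h]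
          linarith [min_le_right x D, le_max_right (x - y) 0]
      split_ifs <;> linarith)
    (fun i => by
      have h1 : ∑ T with i ∉ T, w T = ∏ j ∈ ({i}ᶜ : Finset ι), (1 + r j) := by
        rw [Finset.prod_one_add]
        refine Finset.sum_congr ?_ fun _ _ => rfl
        ext T
        simp [Finset.subset_compl_singleton]
      have h2 := sum_small fun T => if i ∉ T then w T else 0
      have h3 : ∑ j, (if i ∉ ({j} : Finset ι) then w {j} else 0) = ∑ j, r j - r i := by
        rw [Fintype.sum_eq_add_sum_compl i, Fintype.sum_eq_add_sum_compl i, if_neg (by simp),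
          zero_add, add_sub_cancel_left]
        refine Finset.sum_congr rfl fun j hj => ?_
        rw [if_pos (by simpa [eq_comm] using hj), hw]
        simp
      have h4 : ∑ T with i ∉ T, w T * (L + if 2 ≤ T.card then 1 else 0) =
          (1 + L) * ∑ T with i ∉ T, w T -
            ∑ T, if 2 ≤ T.card then 0 else if i ∉ T then w T else 0 := by
        rw [Finset.sum_filter, Finset.sum_filter, Finset.mul_sum, ← Finset.sum_sub_distrib]
        refine Finset.sum_congr rfl fun T _ => ?_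
        split_ifs <;> ring
      have h5 : w ∅ = 1 := by simp [hw]
      rw [h4, h2, h3, h1, if_pos (by simp), h5]
      linarith [hc i])
    (D := D) (by rw [hD]; exact_mod_cast hβ)
    (fun T x => by
      simp only [hF]
      refine mul_le_mul_of_nonneg_left ?_ (hw0 T)
      have h1 := Kf_le_top u x
      have h2 : min x D ≤ min D D := by rw [min_self]; exact min_le_right _ _
      split_ifs <;> linarith) m hm0
  have b1 : ∀ T : Finset ι, tp P (term T κ ρ) ≤
      ∑ z, if ∀ j ∈ T, z j = o then Kf u (fm T m z) else 0 := fun T =>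
    term_fibre o T κ hρ hP (Kf u) fun σ C hσ hC => le_Kf u _ fun s hs => by
      rw [max_eq_left (Complex.nonneg_iff.1 hC.1.trace_nonneg).1]
      exact hκ _ σ hσ C hC s hs
  have b2 : ∀ T : Finset ι, tp P (term T (fun a b x y => dl a b * dl x y) ρ) ≤
      ∑ z, if ∀ j ∈ T, z j = o then min (fm T m z) D else 0 := fun T =>
    term_fibre o T _ hρ hP (fun x => min x D) fun σ C hσ hC => by
      rw [amp_dl]
      exact tp_exr_le hσ.trr hC
  have b3 : tp P (term ∅ (fun a b x y => dl a b * dl x y) ρ) ≤ ∑ a, m a := by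
    refine (b2 ∅).trans (Finset.sum_le_sum fun z _ => ?_)
    rw [if_pos (by simp)]
    refine (min_le_left _ _).trans (le_of_eq ?_)
    simp [fm, ← funext_iff]
  have b4 : ∀ i, tp P (term {i} (fun a b x y => dl a b * dl x y) ρ) ≤
      ∑ a, if a i = o then m a else 0 := by
    intro i
    rw [term_single]
    refine (hfix i _ (hρ.mg o i)).trans (le_of_eq ?_)
    rw [sg_eu, tp_diagonal, Fintype.sum_prod_type]
    refine Finset.sum_congr rfl fun a _ => ?_
    split_ifs <;> simp [hm]
  have c1 : tp P (big r (fun a b x y => κ a b x y + dl a b * dl x y) ρ) ≤ ∑ a, m a + obj o r F m := by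
    rw [big_eq, tp_sum]
    have h1 : ∀ T : Finset ι, tp P (((∏ j ∈ T, r j : ℝ) : ℂ) •
        term T (fun a b x y => κ a b x y + dl a b * dl x y) ρ) ≤
        (∑ z, if ∀ j ∈ T, z j = o then F T (fm T m z) else 0) +
        if 2 ≤ T.card then 0 else w T * tp P (term T (fun a b x y => dl a b * dl x y) ρ) := by
      intro T
      rw [tp_smul, term_add, tp_add]
      have h2 := mul_le_mul_of_nonneg_left (b1 T) (hw0 T)
      have h3 := mul_le_mul_of_nonneg_left (b2 T) (hw0 T)
      change w T * _ ≤ _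
      by_cases h : 2 ≤ T.card
      · have : (∑ z, if ∀ j ∈ T, z j = o then F T (fm T m z) else 0) =
            w T * (∑ z, if ∀ j ∈ T, z j = o then Kf u (fm T m z) else 0) +
            w T * ∑ z, if ∀ j ∈ T, z j = o then min (fm T m z) D else 0 := by
          rw [← mul_add, ← Finset.sum_add_distrib, Finset.mul_sum]
          refine Finset.sum_congr rfl fun z _ => ?_
          simp only [hF, if_pos h]
          split_ifs <;> simp
        rw [this, if_pos h]
        linarith
      · have : (∑ z, if ∀ j ∈ T, z j = o then F T (fm T m z) else 0) =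
            w T * (∑ z, if ∀ j ∈ T, z j = o then Kf u (fm T m z) else 0) := by
          rw [Finset.mul_sum]
          refine Finset.sum_congr rfl fun z _ => ?_
          simp only [hF, if_neg h]
          split_ifs <;> simp
        rw [this, if_neg h]
        linarith
    refine (Finset.sum_le_sum fun T _ => h1 T).trans ?_
    rw [Finset.sum_add_distrib, sum_small, obj]
    have h4 := Finset.sum_le_sum fun i (_ : i ∈ Finset.univ) =>
      mul_le_mul_of_nonneg_left (b4 i) (hr i)
    simp only [hw, Finset.prod_empty, Finset.prod_singleton, one_mul]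
    linarith
  have c2 : ∀ z, m' z + ∑ i, r i * (if z i = o then m' z else 0) +
      (∑ T : Finset ι, if ∀ j ∈ T, z j = o then F T (m' z) else 0) ≤
      t * m' z + ∑ b, max (sp o r z * (1 + u b) - t) 0 := by
    intro z
    have h1 := sum_small fun T => if ∀ j ∈ T, z j = o then w T * m' z else 0
    have h2 : (∑ T : Finset ι, if ∀ j ∈ T, z j = o then F T (m' z) else 0) +
        (∑ T : Finset ι, if 2 ≤ T.card then 0 else if ∀ j ∈ T, z j = o then w T * m' z else 0) =
        sp o r z * (Kf u (m' z) + m' z) := by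
      rw [sp_eq, Finset.sum_mul, ← Finset.sum_add_distrib]
      refine Finset.sum_congr rfl fun T _ => ?_
      simp only [hF, min_eq_left (hm' z).2, hw]
      split_ifs <;> ring
    have h3 : 0 < sp o r z := lt_of_lt_of_le one_pos (one_le_sp o hr z)
    have h4 := mul_le_mul_of_nonneg_left
      (Kf_le_all hu0 (hm' z).1 (hm' z).2 (t / sp o r z - 1)) h3.le
    have h5 : sp o r z * ((t / sp o r z - 1) * m' z + ∑ b, max (u b - (t / sp o r z - 1)) 0) =
        t * m' z - sp o r z * m' z + ∑ b, max (sp o r z * (1 + u b) - t) 0 := by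
      rw [mul_add, Finset.mul_sum]
      congr 1
      · field_simp
      · refine Finset.sum_congr rfl fun b _ => ?_
        rw [mul_max_of_nonneg _ _ h3.le, mul_zero]
        congr 1
        field_simp
        ring
    simp only [Finset.notMem_empty, IsEmpty.forall_iff, implies_true, if_true, hw,
      Finset.prod_empty, one_mul, Finset.mem_singleton, forall_eq, Finset.prod_singleton] at h1
    simp only [mul_ite, mul_zero]
    simp only [hw] at h2
    linarith
  have c3 := Finset.sum_le_sum fun z (_ : z ∈ Finset.univ) => c2 z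
  rw [Finset.sum_add_distrib, Finset.sum_add_distrib, Finset.sum_add_distrib, ← Finset.mul_sum,
    Finset.sum_comm, Finset.sum_comm (s := (Finset.univ : Finset (ι → α)))] at c3
  simp only [← Finset.mul_sum] at c3
  rw [Fintype.sum_prod_type, htr, ← hs]
  linarith

theorem big_bound (o : α) {κ : β → β → β → β → ℂ} {u : β → ℝ} (hκ : Good κ u) {L : ℝ}
    (hβ : 0 < Fintype.card β) (hu0 : ∀ b, 0 ≤ u b) (hu1 : ∀ b, u b ≤ L) {r : ι → ℝ}
    (hr : ∀ i, 0 ≤ r i) (hc : ∀ i, (1 + L) * ∏ j ∈ ({i}ᶜ : Finset ι), (1 + r j) ≤ 1 + ∑ j, r j)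
    {ρ P : Matrix ((ι → α) × β) ((ι → α) × β) ℂ} (hρ : St ρ) (hP : Con P) (t : ℝ) :
    tp P (big r (fun a b x y => κ a b x y + dl a b * dl x y) ρ) ≤
      t * P.trace.re + ∑ z : (ι → α) × β, max (sp o r z.1 * (1 + u z.2) - t) 0 := by
  choose V h1 h2 h3 using fun i => exists_frame o (mg_herm i hP.1.isHermitian)
  set U := exr β (pu V) with hU
  have u1 : Uᴴ * U = 1 := by
    rw [hU, exr_conj, pu_conj, exr_mul, pu_mul]
    simp only [h1, pu_one, exr_one]
  have u2 : U * Uᴴ = 1 := by
    rw [hU, exr_conj, pu_conj, exr_mul, pu_mul]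
    simp only [h2, pu_one, exr_one]
  have tr : ∀ X, (U * X * Uᴴ).trace = X.trace := fun X => by
    rw [trace_mul_cycle, u1, one_mul]
  have tq : ∀ X, tp (U * P * Uᴴ) X = tp P (Uᴴ * X * U) := fun X => by
    rw [tp, tp, mul_assoc, mul_assoc, trace_mul_comm, mul_assoc]
  have h := big_fixed o hκ hβ hu0 hu1 hr hc (ρ := U * ρ * Uᴴ) (P := U * P * Uᴴ)
    ⟨hρ.1.mul_mul_conjTranspose_same U, by rw [tr, hρ.2]⟩
    ⟨hP.1.mul_mul_conjTranspose_same U, by
      have := hP.2.mul_mul_conjTranspose_same U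
      rwa [mul_sub, sub_mul, mul_one, u2] at this⟩ (fun i σ hσ => by
      rw [tq, tq, hU, sg_cov i _ h1, sg_cov i _ h1, tp, tp, trace_mg, trace_mg]
      refine h3 i _ ⟨hσ.1.conjTranspose_mul_mul_same _, ?_⟩
      rw [trace_mul_cycle, h2, one_mul, hσ.2]) t
  rw [hU, big_cov r _ h1 h2, ← hU, tq, tr, ← mul_assoc, ← mul_assoc, u1, one_mul, mul_assoc, u1,
    mul_one] at h
  exact h

end Pool.Agent.MP_b746ed_mp.KF

end PartD

section PartE

/-! Assembly. -/

set_option autoImplicit false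
set_option linter.unusedSectionVars false
open scoped ComplexOrder
open Matrix

namespace Pool.Agent.MP_b746ed_mp.KF

variable {ι α : Type} [Fintype ι] [DecidableEq ι] [Fintype α] [DecidableEq α]

theorem kmap_bound (hd : 2 ≤ Fintype.card α) (o : α) {r : ι → ℝ} (hr : ∀ i, 0 ≤ r i)
    (A : Finset ι) (rk : ι → ℕ) (hrk : Function.Injective rk)
    (hA : ∀ i ∈ A, ∏ j ∈ Finset.univ.erase i, (1 + r j) ≤ 1 + ∑ j ∈ A, r j)
    (hB : ∀ i, i ∉ A → ∏ j with j ∉ A ∧ rk i < rk j, (1 + r j) ≤ 1 + r i)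
    {ρ P : Matrix (ι → α) (ι → α) ℂ} (hρ : St ρ) (hP : Con P) (t : ℝ) :
    tp P (kmap r ρ) ≤ t * P.trace.re + ∑ a, max (sp o r a - t) 0 := by
  have : Nonempty α := ⟨o⟩
  set e := (Equiv.piEquivPiSubtypeProd (fun j => j ∈ A) fun _ => α).symm with he
  have p1 : ∀ {M : Type} [CommMonoid M] (F : ι → M),
      ∏ j, F j = (∏ j : {j // j ∈ A}, F j) * ∏ j : {j // j ∉ A}, F j := fun F => by
    refine (Fintype.prod_subtype_mul_prod_subtype (fun j => j ∈ A) F).symm.trans
      (congrArg₂ (· * ·) ?_ ?_) <;>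
    exact Finset.prod_congr (Finset.ext fun _ => by simp) fun _ _ => rfl
  have g := good_tower hd o _ {j // j ∉ A} rfl (fun j => rk j)
    (fun j j' h => Subtype.ext (hrk h)) (fun j => r j) (fun j => hr j) (fun i => by
      refine le_trans (le_of_eq ?_) (hB i i.2)
      rw [Finset.prod_filter, Finset.prod_filter, p1 fun j => if j ∉ A ∧ rk i < rk j then _ else 1,
        Finset.prod_eq_one (s := (Finset.univ : Finset {j // j ∈ A})) fun j _ => by simp [j.2],
        one_mul]
      exact Finset.prod_congr rfl fun j _ => by simp [j.2])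
  have h := big_bound (ι := {j // j ∈ A}) o g (L := ∏ j : {j // j ∉ A}, (1 + r j) - 1)
    Fintype.card_pos (fun b => sub_nonneg.2 (one_le_sp o (fun j : {j // j ∉ A} => hr j) b))
    (fun b => sub_le_sub_right (sp_le o (fun j : {j // j ∉ A} => hr j) b) 1)
    (r := fun j => r j) (fun j => hr j) (fun i => by
      have h1 := hA i i.2
      have h2 : 0 < 1 + r i := by linarith [hr i]
      rw [Finset.sum_subtype (p := fun j => j ∈ A) A (fun _ => Iff.rfl)] at h1
      refine le_trans (le_of_eq (mul_left_cancel₀ h2.ne' ?_)) h1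
      rw [Finset.mul_prod_erase _ (fun j => 1 + r j) (Finset.mem_univ _),
        p1 fun j => 1 + r j, Fintype.prod_eq_mul_prod_compl i]
      ring) (hρ.sub_equiv e) (hP.submatrix e.injective) t
  have q1 : ∀ (z : ({j // j ∈ A} → α) × ({j // j ∉ A} → α)) (j : {j // j ∈ A}),
      e z j = z.1 j := fun z j => by simp [he, j.2]
  have q2 : ∀ (z : ({j // j ∈ A} → α) × ({j // j ∉ A} → α)) (j : {j // j ∉ A}),
      e z j = z.2 j := fun z j => by simp [he, j.2]
  have e1 : (kmap r ρ).submatrix e e = big (fun j : {j // j ∈ A} => r j)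
      (fun a b x y => (kr (fun j : {j // j ∉ A} => r j) a b x y - dl a b * dl x y) +
        dl a b * dl x y) (ρ.submatrix e e) := by
    ext z w
    simp only [submatrix_apply, kmap, big, blk, of_apply, sub_add_cancel]
    rw [← Equiv.sum_comp e]
    simp only [← Equiv.sum_comp e (fun y => ρ _ y * _)]
    simp only [kr, p1, q1, q2, Fintype.sum_prod_type, Finset.mul_sum]
    rw [Finset.sum_comm]
    refine Finset.sum_congr rfl fun v _ => ?_
    conv_rhs => rw [Finset.sum_comm]
    refine Finset.sum_congr rfl fun x _ => ?_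
    rw [Finset.sum_comm]
    exact Finset.sum_congr rfl fun v' _ => Finset.sum_congr rfl fun y _ => by ring
  rw [← e1, tp_sub_equiv, trace_sub_equiv] at h
  refine h.trans (le_of_eq ?_)
  rw [← Equiv.sum_comp e]
  simp only [sp, p1, q1, q2, add_sub_cancel]

lemma chan_eq (hd : 2 ≤ Fintype.card α) {q : ι → ℝ} (hq : ∀ i, q i < 1)
    (X : Matrix (ι → α) (ι → α) ℂ) :
    chan q X = ((∏ i, (1 - q i) / Fintype.card α : ℝ) : ℂ) •
      kmap (fun i => Fintype.card α * q i / (1 - q i)) X := by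
  have hd0 : (Fintype.card α : ℂ) ≠ 0 := by
    have : Fintype.card α ≠ 0 := by omega
    exact_mod_cast this
  ext a b
  have e1 : ∀ (S : Finset ι) (c : ι → α), X (S.piecewise c a) (S.piecewise c b) =
      ∑ x, ∑ y, X x y * ∏ i, (if i ∈ S then dl (c i) (x i) * dl (c i) (y i)
        else dl (a i) (x i) * dl (b i) (y i)) := by
    intro S c
    have : ∀ x y : ι → α, (∏ i, (if i ∈ S then dl (c i) (x i) * dl (c i) (y i)
        else dl (a i) (x i) * dl (b i) (y i))) = dl (S.piecewise c a) x * dl (S.piecewise c b) y := by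
      intro x y
      rw [dl_fun, dl_fun, ← Finset.prod_mul_distrib]
      refine Finset.prod_congr rfl fun i _ => ?_
      by_cases h : i ∈ S <;> simp [Finset.piecewise, h]
    simp only [this]
    simp [dl]
  have e2 : ∀ (S : Finset ι) (x y : ι → α), ∑ c : ι → α, ∏ i,
      (if i ∈ S then dl (c i) (x i) * dl (c i) (y i) else dl (a i) (x i) * dl (b i) (y i)) =
      (∏ i ∈ S, dl (x i) (y i)) *
        ∏ i ∈ Finset.univ \ S, (Fintype.card α * (dl (a i) (x i) * dl (b i) (y i))) := by
    intro S x y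
    rw [sum_prod_fun fun i s => if i ∈ S then dl s (x i) * dl s (y i)
      else dl (a i) (x i) * dl (b i) (y i), ← Finset.prod_mul_prod_compl S,
      Finset.compl_eq_univ_sdiff]
    congr 1
    · refine Finset.prod_congr rfl fun i hi => ?_
      simp [hi, dl, eq_comm (a := y i)]
    · refine Finset.prod_congr rfl fun i hi => ?_
      simp [(Finset.mem_sdiff.1 hi).2]
  have e3 : ∀ x y : ι → α, ((∏ i, (1 - q i) / Fintype.card α : ℝ) : ℂ) *
      kr (fun i => Fintype.card α * q i / (1 - q i)) a b x y =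
      ∏ i, ((1 - q i) / Fintype.card α * (dl (a i) (b i) * dl (x i) (y i)) +
        (q i : ℂ) * (dl (a i) (x i) * dl (b i) (y i))) := by
    intro x y
    rw [kr, Complex.ofReal_prod, ← Finset.prod_mul_distrib]
    refine Finset.prod_congr rfl fun i _ => ?_
    have : (1 - q i : ℂ) ≠ 0 := by
      have : (1 - q i : ℝ) ≠ 0 := by linarith [hq i]
      exact_mod_cast this
    push_cast
    field_simp
    ring
  rw [chan_apply, Matrix.smul_apply, smul_eq_mul, kmap, of_apply]
  simp only [Finset.mul_sum, mul_left_comm _ (X _ _), e3, Finset.prod_add, Finset.powerset_univ]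
  conv_rhs => enter [2, x]; rw [Finset.sum_comm]
  rw [Finset.sum_comm (s := (Finset.univ : Finset (ι → α)))]
  refine Finset.sum_congr rfl fun S _ => ?_
  simp only [← Finset.mul_sum, e1]
  rw [Finset.sum_comm, Finset.mul_sum, Finset.mul_sum]
  refine Finset.sum_congr rfl fun x _ => ?_
  rw [Finset.sum_comm, Finset.mul_sum, Finset.mul_sum]
  refine Finset.sum_congr rfl fun y _ => ?_
  rw [← Finset.mul_sum, e2]
  have e4 : (1 / (Fintype.card α : ℂ)) ^ Fintype.card ι =
      (∏ i ∈ S, (1 / (Fintype.card α : ℂ))) * ∏ i ∈ Finset.univ \ S, (1 / (Fintype.card α : ℂ)) := by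
    rw [mul_comm, Finset.prod_sdiff (Finset.subset_univ S), Finset.prod_const, Finset.card_univ]
  have e5 : (∏ i ∈ Finset.univ \ S, (1 / (Fintype.card α : ℂ))) *
      ∏ i ∈ Finset.univ \ S, (Fintype.card α : ℂ) = 1 := by
    rw [← Finset.prod_mul_distrib]
    exact Finset.prod_eq_one fun i _ => by field_simp
  simp only [e4, div_eq_mul_one_div (1 - (q _ : ℂ)), Finset.prod_mul_distrib, Complex.ofReal_mul,
    Complex.ofReal_prod, Complex.ofReal_sub, Complex.ofReal_one, ← dl.eq_1]
  linear_combination (X x y * (∏ i ∈ Finset.univ \ S, (q i : ℂ)) * (∏ i ∈ S, (1 - (q i : ℂ))) *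
    (∏ i ∈ S, dl (a i) (b i)) * (∏ i ∈ S, (1 / (Fintype.card α : ℂ))) *
    (∏ i ∈ S, dl (x i) (y i)) * (∏ i ∈ Finset.univ \ S, dl (a i) (x i)) *
    ∏ i ∈ Finset.univ \ S, dl (b i) (y i)) * e5

lemma trace_kmap (r : ι → ℝ) (X : Matrix (ι → α) (ι → α) ℂ) :
    (kmap r X).trace = X.trace * ∏ i, ((r i : ℂ) + Fintype.card α) := by
  have e : ∀ x y : ι → α, ∑ a, kr r a a x y = dl x y * ∏ i, ((r i : ℂ) + Fintype.card α) := by
    intro x y
    simp only [kr]
    rw [sum_prod_fun fun i s => (r i : ℂ) * (dl s (x i) * dl s (y i)) + dl s s * dl (x i) (y i),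
      dl_fun, ← Finset.prod_mul_distrib]
    refine Finset.prod_congr rfl fun i _ => ?_
    by_cases h : x i = y i
    · simp [dl, h, Finset.sum_add_distrib]
    · simp [dl, h, Ne.symm h]
  simp only [trace, diag_apply, kmap, of_apply]
  rw [Finset.sum_comm, Finset.sum_mul]
  refine Finset.sum_congr rfl fun x _ => ?_
  rw [Finset.sum_comm]
  simp only [← Finset.mul_sum, e]
  simp [dl]

lemma exists_top {β : Type} [Fintype β] [DecidableEq β] (σ : β → ℝ) {k : ℕ}
    (hk : k ≤ Fintype.card β) : ∃ (J : Finset β) (t : ℝ), J.card = k ∧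
      t * k + ∑ b, max (σ b - t) 0 = ∑ b ∈ J, σ b := by
  obtain ⟨J, hJ, hmax⟩ := Finset.exists_max_image (Finset.powersetCard k Finset.univ)
    (fun J => ∑ b ∈ J, σ b) (Finset.powersetCard_nonempty.2 hk)
  have hJk := (Finset.mem_powersetCard.1 hJ).2
  have hx : ∀ i ∈ J, ∀ j, j ∉ J → σ j ≤ σ i := by
    intro i hi j hj
    have hj' : j ∉ J.erase i := fun h => hj (Finset.mem_of_mem_erase h)
    have := hmax (insert j (J.erase i)) (Finset.mem_powersetCard.2 ⟨Finset.subset_univ _, by
      rw [Finset.card_insert_of_notMem hj', Finset.card_erase_add_one hi, hJk]⟩)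
    rw [Finset.sum_insert hj', ← Finset.add_sum_erase J σ hi] at this
    linarith
  obtain ⟨t, h1, h2⟩ : ∃ t, (∀ i ∈ J, t ≤ σ i) ∧ ∀ j, j ∉ J → σ j ≤ t := by
    rcases J.eq_empty_or_nonempty with rfl | hne
    · obtain ⟨t, ht⟩ := (Set.finite_range σ).bddAbove
      exact ⟨t, by simp, fun j _ => ht ⟨j, rfl⟩⟩
    · obtain ⟨i, hi, h⟩ := Finset.exists_min_image J σ hne
      exact ⟨σ i, h, hx i hi⟩
  refine ⟨J, t, hJk, ?_⟩
  rw [← Finset.sum_add_sum_compl J, Finset.sum_congr rfl fun i hi => max_eq_left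
    (sub_nonneg.2 (h1 i hi)), Finset.sum_eq_zero (s := Jᶜ) fun j hj => max_eq_right
    (sub_nonpos.2 (h2 j (Finset.mem_compl.1 hj))), Finset.sum_sub_distrib, Finset.sum_const, hJk,
    nsmul_eq_mul]
  ring

theorem norm_of_bound {β : Type} [Fintype β] [DecidableEq β] (N : Matrix β β ℂ → ℝ)
    (hadd : ∀ X Y, N (X + Y) ≤ N X + N Y) (hsmul : ∀ (c : ℂ) X, N (c • X) = ‖c‖ * N X)
    (hU : ∀ X U V, U ∈ unitaryGroup β ℂ → V ∈ unitaryGroup β ℂ → N (U * X * V) = N X)
    {M : Matrix β β ℂ} (hM : M.IsHermitian) (σ : β → ℝ) (h0 : M.trace.re = ∑ i, σ i)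
    (H : ∀ P, Con P → ∀ t, tp P M ≤ t * P.trace.re + ∑ a, max (σ a - t) 0) :
    N M ≤ N (diagonal fun i => (σ i : ℂ)) := by
  obtain ⟨b, l, hb, hb1, hX, hl⟩ := spectral_op hM
  set U : Matrix β β ℂ := Matrix.of fun i k => b k i with hUdef
  have hU1 : U ∈ unitaryGroup β ℂ := by
    rw [mem_unitaryGroup_iff, ← hb1]
    ext i j
    simp [hUdef, Matrix.mul_apply, Matrix.sum_apply, op_apply]
  have hX' : M = U * (diagonal fun k => (l k : ℂ)) * star U := by
    rw [hX]
    ext i j
    simp only [hUdef, Matrix.mul_apply (N := star _), mul_diagonal, Matrix.sum_apply, op_apply,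
      Matrix.smul_apply, of_apply, star_apply, smul_eq_mul]
    refine Finset.sum_congr rfl fun k _ => ?_
    ring
  have hA : ∀ A : Finset β, IsProj (∑ k ∈ A, op (b k) (b k)) ∧
      (∑ k ∈ A, op (b k) (b k)).trace.re = A.card ∧
      tp (∑ k ∈ A, op (b k) (b k)) M = ∑ k ∈ A, l k := by
    intro A
    refine ⟨⟨by simp only [conjTranspose_sum, op_conjTranspose], ?_⟩, ?_, ?_⟩
    · rw [Finset.sum_mul_sum]
      refine Finset.sum_congr rfl fun k hk => ?_
      simp [op_mul_op, hb, hk]
    · simp [trace_sum, trace_op, hb]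
    · rw [hX, tp, Finset.sum_mul_sum, trace_sum, Complex.re_sum]
      refine Finset.sum_congr rfl fun k hk => ?_
      simp [op_mul_op, hb, trace_op, -Complex.coe_smul]
  rw [hX', hU _ _ _ hU1 (Unitary.star_mem hU1)]
  refine norm_diag_le N hadd hsmul hU l _ ?_ fun A => ?_
  · obtain ⟨-, -, h⟩ := hA Finset.univ
    rw [← h, hb1, tp, one_mul, h0]
  · obtain ⟨h1, h2, h3⟩ := hA A
    obtain ⟨J, t, hJ, ht⟩ := exists_top σ A.card_le_univ
    have h := H _ h1.con t
    rw [h2, h3, ht] at h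
    refine ⟨fun i => if i ∈ J then 1 else 0, fun i => by by_cases hi : i ∈ J <;> simp [hi],
      by simp [hJ], ?_⟩
    simpa using h

theorem norm_lex (hd : 2 ≤ Fintype.card α) (o : α) {q : ι → ℝ} (hq : ∀ i, 0 ≤ q i ∧ q i < 1)
    {r : ι → ℝ} (hr : ∀ i, r i = Fintype.card α * q i / (1 - q i))
    (A : Finset ι) (rk : ι → ℕ) (hrk : Function.Injective rk)
    (hA : ∀ i ∈ A, ∏ j ∈ Finset.univ.erase i, (1 + r j) ≤ 1 + ∑ j ∈ A, r j)
    (hB : ∀ i, i ∉ A → ∏ j with j ∉ A ∧ rk i < rk j, (1 + r j) ≤ 1 + r i)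
    (N : Matrix (ι → α) (ι → α) ℂ → ℝ)
    (hadd : ∀ X Y, N (X + Y) ≤ N X + N Y) (hsmul : ∀ (c : ℂ) X, N (c • X) = ‖c‖ * N X)
    (hU : ∀ X U V, U ∈ unitaryGroup (ι → α) ℂ → V ∈ unitaryGroup (ι → α) ℂ → N (U * X * V) = N X)
    {ρ : Matrix (ι → α) (ι → α) ℂ} (hρ : ρ.PosSemidef) (htr : ρ.trace = 1) :
    N (chan q ρ) ≤ N (chan q (op (Pi.single (fun _ => o) 1) (Pi.single (fun _ => o) 1))) := by
  have : Nonempty α := ⟨o⟩
  have hq' : ∀ i, 0 ≤ q i ∧ q i ≤ 1 := fun i => ⟨(hq i).1, (hq i).2.le⟩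
  have hd0 : (0 : ℝ) < Fintype.card α := by
    have : 0 < Fintype.card α := by omega
    exact_mod_cast this
  have hr0 : ∀ i, 0 ≤ r i := fun i => by
    rw [hr]
    exact div_nonneg (mul_nonneg hd0.le (hq i).1) (by linarith [(hq i).2])
  have hre : (fun i => Fintype.card α * q i / (1 - q i)) = r := (funext hr).symm
  set c : ℝ := ∏ i, (1 - q i) / Fintype.card α with hc
  have hc0 : 0 < c := Finset.prod_pos fun i _ => div_pos (by linarith [(hq i).2]) hd0
  have hσ : ∀ a : ι → α, (∏ i, ((1 - q i) / Fintype.card α + q i * if a i = o then 1 else 0)) =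
      c * sp o r a := fun a => by
    rw [hc, sp, ← Finset.prod_mul_distrib]
    refine Finset.prod_congr rfl fun i _ => ?_
    have : 1 - q i ≠ 0 := by linarith [(hq i).2]
    rw [hr]
    split_ifs
    · field_simp
    · simp
  have htr' : ∀ X : Matrix (ι → α) (ι → α) ℂ, (chan q X).trace =
      c * (X.trace * ∏ i, ((r i : ℂ) + Fintype.card α)) := fun X => by
    rw [chan_eq hd (fun i => (hq i).2), trace_smul, trace_kmap, smul_eq_mul, hc]
    simp only [hr]
  have h0 := htr' (op (Pi.single (fun _ => o) 1) (Pi.single (fun _ => o) 1))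
  rw [trace_op, ip_single_self, chan_basis, trace_diagonal, ← htr, ← htr'] at h0
  rw [chan_basis]
  refine norm_of_bound N hadd hsmul hU (chan_psd hq' hρ).isHermitian _
    (by rw [← h0, ← Complex.ofReal_sum, Complex.ofReal_re]) fun P hP t => ?_
  have h := mul_le_mul_of_nonneg_left
    (kmap_bound hd o hr0 A rk hrk hA hB ⟨hρ, htr⟩ hP (t / c)) hc0.le
  rw [chan_eq hd (fun i => (hq i).2), tp_smul, hre]
  refine h.trans (le_of_eq ?_)
  rw [mul_add, Finset.mul_sum]
  congr 1
  · field_simp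
  · refine Finset.sum_congr rfl fun a _ => ?_
    rw [hσ, mul_max_of_nonneg _ _ hc0.le, mul_zero]
    congr 1
    field_simp

end Pool.Agent.MP_b746ed_mp.KF

end PartE
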